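import Pool.Agent.TorusAA.Defs

/-! Small facts on boxes. -/

namespace Pool.Agent.TorusAA

open Quaternion Pool.Agent.TorusL4

theorem al_neg_left (x y : ℍ[ℤ]) : al (-x) y = al x y := by
  unfold al; rw [neg_mul, ct_neg]

theorem al_neg_right (x y : ℍ[ℤ]) : al x (-y) = al x y := by
  unfold al; rw [mul_neg, ct_neg, nq_neg]

theorem G2_neg_left {M : ℕ} {x y : ℍ[ℤ]} : G2 M (-x) y ↔ G2 M x y := by
  unfold G2; rw [al_neg_left, al_neg_right, nq_neg]

theorem G2_neg_right {M : ℕ} {x y : ℍ[ℤ]} : G2 M x (-y) ↔ G2 M x y := by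
  unfold G2; rw [al_neg_left, al_neg_right, nq_neg]

theorem nq_pure {x : ℍ[ℤ]} (hx : x.re = 0) : (nq x : ℤ) = dot x x := by
  rw [nq_cast, ← dot_self_eq hx]

/-- The box of three points of the sphere whose sum is on the sphere. -/
theorem box_of_points {n : ℕ} {x y z : ℍ[ℤ]} (hx0 : x.re = 0) (hy0 : y.re = 0) (hz0 : z.re = 0)
    (hx : nq x = n) (hy : nq y = n) (hz : nq z = n) (hw : nq (x + y + z) = n)
    (h1 : y + z ≠ 0) (h2 : x + z ≠ 0) (h3 : x + y ≠ 0) : Box n (y + z) (x + z) (x + y) := by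
  have qx : normSq x = (n : ℤ) := by rw [← nq_cast, hx]
  have qy : normSq y = (n : ℤ) := by rw [← nq_cast, hy]
  have qz : normSq z = (n : ℤ) := by rw [← nq_cast, hz]
  have qw : normSq (x + y + z) = (n : ℤ) := by rw [← nq_cast, hw]
  obtain ⟨d12, d13, d23⟩ := dot_sides hx0 hy0 hz0 qx qy qz qw
  refine ⟨⟨?_, ?_, ?_, d12, d13, d23, h1, h2, h3⟩, ?_⟩
  · rw [re_add, hy0, hz0]; rfl
  · rw [re_add, hx0, hz0]; rfl
  · rw [re_add, hx0, hy0]; rfl
  · have : (nq (y + z) : ℤ) + nq (x + z) + nq (x + y) = 4 * n := by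
      rw [normSq_def'] at qx qy qz qw
      rw [nq_def', nq_def', nq_def']
      simp only [re_add, imI_add, imJ_add, imK_add] at qw ⊢
      linear_combination qx + qy + qz + qw
    exact_mod_cast this

/-- The box of two points of a circle. -/
theorem box_of_circle {n : ℕ} {x y D : ℍ[ℤ]} (hx0 : x.re = 0) (hy0 : y.re = 0)
    (hD0 : D.re = 0) (hx : nq x = n) (hy : nq y = n) (hxD : nq (D - x) = n)
    (hyD : nq (D - y) = n) (h1 : D ≠ 0) (h2 : x - y ≠ 0) (h3 : x + y - D ≠ 0) :
    Box n D (x - y) (x + y - D) := by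
  have qx : (nq x : ℤ) = n := by rw [hx]
  have qy : (nq y : ℤ) = n := by rw [hy]
  have qxD : (nq (D - x) : ℤ) = n := by rw [hxD]
  have qyD : (nq (D - y) : ℤ) = n := by rw [hyD]
  rw [nq_def'] at qx qy qxD qyD
  simp only [re_sub, imI_sub, imJ_sub, imK_sub, hx0, hy0, hD0] at qx qy qxD qyD
  refine ⟨⟨hD0, ?_, ?_, ?_, ?_, ?_, h1, h2, h3⟩, ?_⟩
  · rw [re_sub, hx0, hy0]; rfl
  · rw [re_sub, re_add, hx0, hy0, hD0]; rfl
  · have : 2 * dot D (x - y) = 0 := by
      unfold dot
      simp only [imI_sub, imJ_sub, imK_sub]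
      linear_combination qx - qy - qxD + qyD
    linarith
  · have : 2 * dot D (x + y - D) = 0 := by
      unfold dot
      simp only [imI_sub, imJ_sub, imK_sub, imI_add, imJ_add, imK_add]
      linear_combination qx + qy - qxD - qyD
    linarith
  · have : 2 * dot (x - y) (x + y - D) = 0 := by
      unfold dot
      simp only [imI_sub, imJ_sub, imK_sub, imI_add, imJ_add, imK_add]
      linear_combination qx - qy + qxD - qyD
    linarith
  · have : (nq D : ℤ) + nq (x - y) + nq (x + y - D) = 4 * n := by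
      rw [nq_def', nq_def', nq_def']
      simp only [re_sub, imI_sub, imJ_sub, imK_sub, re_add, imI_add, imJ_add, imK_add, hx0, hy0,
        hD0]
      linear_combination qx + qy + qxD + qyD
    exact_mod_cast this

/-- A vector parallel to a primitive vector is an integer multiple of it. -/
theorem eq_smul_of_parallel {x v : ℍ[ℤ]} {r s : ℤ} (hr : r ≠ 0) (hv : ct v = 1)
    (h : r • x = s • v) : ∃ g : ℤ, x = g • v := by
  have h1 := congrArg ct h
  rw [ct_smul, ct_smul, hv, mul_one] at h1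
  have h2 : r ∣ s := Int.natAbs_dvd_natAbs.mp ⟨ct x, h1.symm⟩
  obtain ⟨g, rfl⟩ := h2
  refine ⟨g, smul_right_injective _ hr ?_⟩
  show r • x = r • (g • v)
  rw [h, smul_smul]

/-- The product of two sides of a box is a multiple of the primitive vector of the third. -/
theorem mul_eq_smul {D x y v : ℍ[ℤ]} {c : ℤ} (h : OB D x y) (hv : ct v = 1) (hD : D = c • v) :
    ∃ g : ℤ, g ≠ 0 ∧ x * y = g • v ∧ ct (x * y) = g.natAbs ∧
      nq x * nq y = nq v * g.natAbs ^ 2 := by
  have key : (normSq D) • (x * y) = (dot D (x * y)) • D := by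
    have h1 := h.r1
    have h2 := h.r2
    have h3 := h.r3
    have h12 := h.d12
    have h13 := h.d13
    have h23 := h.d23
    rw [normSq_def']
    unfold dot at *
    ext
    · simp only [re_smul, re_mul, imI_mul, imJ_mul, imK_mul, smul_eq_mul, h1, h2, h3]
      linear_combination (-(D.imI ^ 2 + D.imJ ^ 2 + D.imK ^ 2)) * h23
    · simp only [imI_smul, imI_mul, imJ_mul, imK_mul, smul_eq_mul, h1, h2, h3]
      linear_combination (D.imJ * y.imK - D.imK * y.imJ) * h12
        - (D.imJ * x.imK - D.imK * x.imJ) * h13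
    · simp only [imJ_smul, imI_mul, imJ_mul, imK_mul, smul_eq_mul, h1, h2, h3]
      linear_combination (D.imK * y.imI - D.imI * y.imK) * h12
        - (D.imK * x.imI - D.imI * x.imK) * h13
    · simp only [imK_smul, imI_mul, imJ_mul, imK_mul, smul_eq_mul, h1, h2, h3]
      linear_combination (D.imI * y.imJ - D.imJ * y.imI) * h12
        - (D.imI * x.imJ - D.imJ * x.imI) * h13
  have key2 : (normSq D) • (x * y) = (dot D (x * y) * c) • v := by
    rw [key, ← smul_smul, ← hD]
  obtain ⟨g, hg⟩ := eq_smul_of_parallel (normSq_ne_zero.mpr h.n1) hv key2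
  have hg0 : g ≠ 0 := by
    rintro rfl
    rw [zero_smul] at hg
    exact mul_ne_zero h.n2 h.n3 hg
  refine ⟨g, hg0, hg, ?_, ?_⟩
  · rw [hg, ct_smul, hv, mul_one]
  · rw [← nq_mul, hg, nq_smul, mul_comm]

theorem al_pos {x y : ℍ[ℤ]} (hx : x ≠ 0) (hy : y ≠ 0) : 1 ≤ al x y := by
  unfold al
  have h1 := ct_pos (mul_ne_zero hx hy)
  exact Nat.div_pos (Nat.le_of_dvd h1 (Nat.gcd_dvd_left _ _))
    (Nat.gcd_pos_of_pos_left _ h1)

/-- The basic relation between `al`, contents and the cross product with the primitive normal. -/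
theorem al_mul {x y v : ℍ[ℤ]} {g : ℤ} (hy0 : y.re = 0) (hx : x ≠ 0) (hy : y ≠ 0)
    (hv : ct v = 1) (h : x * y = g • v) : ∃ B : ℕ, 0 < B ∧ al x y * ct (v * y) = B * ct x ∧
      Nat.Coprime (al x y) B ∧ nq y = B * Nat.gcd g.natAbs (nq y) ∧
      g.natAbs = al x y * Nat.gcd g.natAbs (nq y) ∧
      (g / (Nat.gcd g.natAbs (nq y) : ℕ)) • (v * y) = (-(B : ℤ)) • x := by
  have hct : ct (x * y) = g.natAbs := by rw [h, ct_smul, hv, mul_one]
  have hg0 : 0 < g.natAbs := by rw [← hct]; exact ct_pos (mul_ne_zero hx hy)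
  set k := Nat.gcd g.natAbs (nq y) with hk
  have hk0 : 0 < k := Nat.gcd_pos_of_pos_left _ hg0
  have hkz : (k : ℤ) ≠ 0 := by exact_mod_cast hk0.ne'
  obtain ⟨B, hB⟩ : k ∣ nq y := Nat.gcd_dvd_right _ _
  have hal : al x y = g.natAbs / k := by unfold al; rw [hct]
  have hal2 : g.natAbs = al x y * k := by
    rw [hal]; exact (Nat.div_mul_cancel (Nat.gcd_dvd_left _ _)).symm
  have hgz : g = (g / (k : ℤ)) * k := by
    refine (Int.ediv_mul_cancel ?_).symm
    exact Int.natCast_dvd.mpr (Nat.gcd_dvd_left _ _)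
  have hB' : nq y = B * k := by rw [hB, mul_comm]
  have h1 : g • (v * y) = (-(nq y : ℤ)) • x := by
    have e1 : x * y * y = (-(nq y : ℤ)) • x := by
      rw [mul_assoc, mul_self_pure hy0, ← nq_cast, mul_smul_comm, mul_one]
    rw [← e1, h, smul_mul_assoc]
  have h2 : (g / (k : ℤ)) • (v * y) = (-(B : ℤ)) • x := by
    refine smul_right_injective _ hkz ?_
    show (k : ℤ) • ((g / (k : ℤ)) • (v * y)) = (k : ℤ) • ((-(B : ℤ)) • x)
    rw [smul_smul, smul_smul, mul_comm (k : ℤ) (g / (k : ℤ)), ← hgz, h1, hB]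
    congr 1
    push_cast; ring
  have hB0 : 0 < B := by
    rcases Nat.eq_zero_or_pos B with h0 | h0
    · rw [h0, mul_zero] at hB
      exact absurd hB (nq_pos hy).ne'
    · exact h0
  refine ⟨B, hB0, ?_, ?_, hB', hal2, h2⟩
  · have h3 := congrArg ct h2
    rw [ct_smul, ct_smul, Int.natAbs_neg, Int.natAbs_natCast] at h3
    have h4 : (g / (k : ℤ)).natAbs = al x y := by
      have h5 := congrArg Int.natAbs hgz
      rw [Int.natAbs_mul, Int.natAbs_natCast, hal2] at h5
      exact (Nat.eq_of_mul_eq_mul_right hk0 h5).symm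
    rw [← h4]; exact h3
  · have h5 := Nat.coprime_div_gcd_div_gcd (m := g.natAbs) (n := nq y) (by rw [← hk]; exact hk0)
    rw [← hk, ← hal] at h5
    have h6 : nq y / k = B := by rw [hB]; exact Nat.mul_div_cancel_left _ hk0
    rw [h6] at h5
    exact h5

end Pool.Agent.TorusAA
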