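import Pool.Agent.TorusAA.Stmts
import Pool.Agent.TorusAA.Api

/-! Arithmetic data of a good box. -/

namespace Pool.Agent.TorusAA

open Quaternion Pool.Agent.TorusL4

private theorem bezout {v : ℍ[ℤ]} (hv0 : v.re = 0) (hv : ct v = 1) :
    ∃ p q r : ℤ, p * v.imI + q * v.imJ + r * v.imK = 1 := by
  unfold ct at hv
  rw [hv0, Int.natAbs_zero, Nat.gcd_zero_left] at hv
  have h1 := Int.gcd_eq_gcd_ab v.imI (Int.gcd v.imJ v.imK : ℤ)
  have h2 := Int.gcd_eq_gcd_ab v.imJ v.imK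
  have h3 : (Int.gcd v.imI (Int.gcd v.imJ v.imK : ℤ) : ℤ) = 1 := by
    have : Int.gcd v.imI (Int.gcd v.imJ v.imK : ℤ) = 1 := by
      rw [← hv]; rfl
    rw [this]; rfl
  rw [h3] at h1
  refine ⟨Int.gcdA v.imI (Int.gcd v.imJ v.imK : ℤ),
    Int.gcdA v.imJ v.imK * Int.gcdB v.imI (Int.gcd v.imJ v.imK : ℤ),
    Int.gcdB v.imJ v.imK * Int.gcdB v.imI (Int.gcd v.imJ v.imK : ℤ), ?_⟩
  linear_combination (-1) * h1 - Int.gcdB v.imI (Int.gcd v.imJ v.imK : ℤ) * h2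

/-- A vector whose product with the primitive vector `v` is divisible by `W` is a multiple of `v`
modulo `W`. -/
private theorem mod_par {v x y : ℍ[ℤ]} {W : ℤ} {p q r : ℤ} (hv0 : v.re = 0) (hx0 : x.re = 0)
    (hpqr : p * v.imI + q * v.imJ + r * v.imK = 1) (h : v * x = W • y) :
    ∃ l a b c : ℤ, x.imI = l * v.imI + W * a ∧ x.imJ = l * v.imJ + W * b ∧
      x.imK = l * v.imK + W * c := by
  have h1 := congrArg (fun q : ℍ[ℤ] => q.imI) h
  have h2 := congrArg (fun q : ℍ[ℤ] => q.imJ) h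
  have h3 := congrArg (fun q : ℍ[ℤ] => q.imK) h
  simp only [imI_mul, imJ_mul, imK_mul, imI_smul, imJ_smul, imK_smul, smul_eq_mul, hv0, hx0,
    zero_mul, mul_zero, zero_add] at h1 h2 h3
  refine ⟨p * x.imI + q * x.imJ + r * x.imK, r * y.imJ - q * y.imK, p * y.imK - r * y.imI,
    q * y.imI - p * y.imJ, ?_, ?_, ?_⟩
  · linear_combination (-x.imI) * hpqr + r * h2 - q * h3
  · linear_combination (-x.imJ) * hpqr + p * h3 - r * h1
  · linear_combination (-x.imK) * hpqr + q * h1 - p * h2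

/-- If the products of `x` and `y` with the primitive vector `v` are divisible by `W`, then the
coefficient of `v` in `x * y` is divisible by `W`. -/
private theorem dvd_coeff {v x y x' y' : ℍ[ℤ]} {W f : ℤ} (hv0 : v.re = 0) (hx0 : x.re = 0)
    (hy0 : y.re = 0) (hv : ct v = 1) (h1 : v * x = W • x') (h2 : v * y = W • y')
    (h : x * y = f • v) : W ∣ f := by
  obtain ⟨p, q, r, hpqr⟩ := bezout hv0 hv
  obtain ⟨l, a, b, c, e1, e2, e3⟩ := mod_par hv0 hx0 hpqr h1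
  obtain ⟨m, a', b', c', f1, f2, f3⟩ := mod_par hv0 hy0 hpqr h2
  have k1 := congrArg (fun q : ℍ[ℤ] => q.imI) h
  have k2 := congrArg (fun q : ℍ[ℤ] => q.imJ) h
  have k3 := congrArg (fun q : ℍ[ℤ] => q.imK) h
  simp only [imI_mul, imJ_mul, imK_mul, imI_smul, imJ_smul, imK_smul, smul_eq_mul, hx0, hy0,
    zero_mul, mul_zero, zero_add] at k1 k2 k3
  rw [e2, e3, f2, f3] at k1
  rw [e1, e3, f1, f3] at k2
  rw [e1, e2, f1, f2] at k3
  refine ⟨p * (l * v.imJ * c' + b * m * v.imK + W * b * c' - l * v.imK * b' - c * m * v.imJ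
      - W * c * b')
    + q * (l * v.imK * a' + c * m * v.imI + W * c * a' - l * v.imI * c' - a * m * v.imK
      - W * a * c')
    + r * (l * v.imI * b' + a * m * v.imJ + W * a * b' - l * v.imJ * a' - b * m * v.imI
      - W * b * a'), ?_⟩
  linear_combination (-f) * hpqr - p * k1 - q * k2 - r * k3

/-- One side of the relations. -/
private theorem side {x y v : ℍ[ℤ]} {g : ℤ} {Q a b e f : ℕ} (hy0 : y.re = 0) (hx : x ≠ 0)
    (hy : y ≠ 0) (hv : ct v = 1) (h : x * y = g • v) (hQ : nq y = Q) (ha : a = al x y)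
    (hf : 0 < f) (hb : 0 < b) (hg : g.natAbs = a * b * f) (hQ2 : Q = b ^ 2 * e * f) :
    (∃ x1 : ℍ[ℤ], x = (a : ℤ) • x1) ∧ ∃ σ : ℤ, (σ = 1 ∨ σ = -1) ∧
      (a : ℤ) • (v * y) = (σ * (b * e : ℕ)) • x := by
  obtain ⟨B, hB0, h1, h2, h3, h4, h5⟩ := al_mul hy0 hx hy hv h
  obtain ⟨k, hk⟩ : ∃ k, k = Nat.gcd g.natAbs (nq y) := ⟨_, rfl⟩
  rw [← hk] at h3 h4 h5
  rw [← ha] at h1 h2 h4
  have ha0 : 0 < a := by rw [ha]; exact al_pos hx hy
  have hk2 : k = b * f := by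
    rw [hg, mul_assoc] at h4
    exact (Nat.eq_of_mul_eq_mul_left ha0 h4).symm
  have hk0 : 0 < k := by rw [hk2]; exact Nat.mul_pos hb hf
  have hB : B = b * e := by
    have : B * k = (b * e) * k := by
      rw [← h3, hQ, hQ2, hk2]; ring
    exact Nat.eq_of_mul_eq_mul_right hk0 this
  constructor
  · have hd : a ∣ ct x := h2.dvd_of_dvd_mul_left ⟨ct (v * y), h1.symm⟩
    obtain ⟨m, hm⟩ := hd
    obtain ⟨p, hp, hxp⟩ := exists_prim hx
    refine ⟨(m : ℤ) • p, ?_⟩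
    rw [smul_smul]
    conv_lhs => rw [hxp, hm]
    push_cast; rfl
  · have hgz : g = (g / (k : ℤ)) * k := by
      refine (Int.ediv_mul_cancel ?_).symm
      exact Int.natCast_dvd.mpr ⟨a, by rw [h4, mul_comm]⟩
    have h6 : (g / (k : ℤ)).natAbs = a := by
      have h7 := congrArg Int.natAbs hgz
      rw [Int.natAbs_mul, Int.natAbs_natCast, h4] at h7
      exact (Nat.eq_of_mul_eq_mul_right hk0 h7).symm
    rw [hB] at h5
    rcases Int.natAbs_eq (g / (k : ℤ)) with h8 | h8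
    · rw [h8, h6] at h5
      exact ⟨-1, Or.inr rfl, by rw [h5]; congr 1; ring⟩
    · rw [h8, h6, neg_smul, neg_smul, neg_inj] at h5
      exact ⟨1, Or.inl rfl, by rw [h5, one_mul]⟩

theorem boxpair (h : S_pair) : S_boxpair := by
  intro n Z D u1 u2 v hn hb hg hns hv hD
  obtain ⟨gD1, gD2, g12⟩ := hg
  have hD0 := hb.r1
  have hvre : v.re = 0 := by
    have h1 := congrArg (fun q : ℍ[ℤ] => q.re) hD
    simp only [re_smul, smul_eq_mul, hD0] at h1
    rcases mul_eq_zero.mp h1.symm with h | h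
    · exact absurd h (by exact_mod_cast (ct_pos hb.n1).ne')
    · exact h
  have hvn : v ≠ 0 := by
    rintro rfl; rw [ct_zero] at hv; exact zero_ne_one hv
  obtain ⟨g, hg0, hmul, hctg, hnq⟩ := mul_eq_smul hb.toOB hv hD
  have hgp : 0 < g.natAbs := Int.natAbs_pos.mpr hg0
  have hPp := nq_pos hb.n2
  have hQp := nq_pos hb.n3
  obtain ⟨e, e', f, e0, e'0, f0, hee, hP, hQ, hgg, hcα, hcβ⟩ :=
    h (nq u1) (nq u2) g.natAbs (nq v) hPp hQp hgp hnq
  have hmul2 : u2 * u1 = (-g) • v := by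
    rw [anticomm hb.r3 hb.r2 (by rw [dot_comm']; exact hb.d23), hmul, neg_smul]
  have hα : g.natAbs / Nat.gcd g.natAbs (nq u2) = al u1 u2 := by unfold al; rw [hctg]
  have hβ : g.natAbs / Nat.gcd g.natAbs (nq u1) = al u2 u1 := by
    unfold al; rw [hmul2, ct_smul, hv, mul_one, Int.natAbs_neg]
  rw [hα, hβ] at hgg hcα hcβ
  rw [hα] at hP
  rw [hβ] at hQ
  obtain ⟨α, hαd⟩ : ∃ α, α = al u1 u2 := ⟨_, rfl⟩
  obtain ⟨β, hβd⟩ : ∃ β, β = al u2 u1 := ⟨_, rfl⟩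
  have hα1 : 1 ≤ α := by rw [hαd]; exact al_pos hb.n2 hb.n3
  have hβ1 : 1 ≤ β := by rw [hβd]; exact al_pos hb.n3 hb.n2
  have hαZ : α ≤ Z := by rw [hαd]; exact g12.1
  have hβZ : β ≤ Z := by rw [hβd]; exact g12.2.1
  rw [← hαd, ← hβd] at hgg hcα hcβ
  rw [← hαd] at hP
  rw [← hβd] at hQ
  obtain ⟨⟨x1, hx1⟩, σ, hσ, hs1⟩ := side hb.r3 hb.n2 hb.n3 hv hmul hQ hαd f0 hβ1 hgg rfl
  obtain ⟨⟨x2, hx2⟩, τ, hτ, hs2⟩ := side hb.r2 hb.n3 hb.n2 hv hmul2 hP hβd f0 hα1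
    (by rw [Int.natAbs_neg, hgg]; ring) rfl
  have hαz : (α : ℤ) ≠ 0 := by exact_mod_cast (Nat.pos_of_ne_zero (by omega)).ne'
  have hβz : (β : ℤ) ≠ 0 := by exact_mod_cast (Nat.pos_of_ne_zero (by omega)).ne'
  have hab : (α : ℤ) * β ≠ 0 := mul_ne_zero hαz hβz
  -- the relations for the reduced vectors
  have r1 : v * x2 = (σ * e) • x1 := by
    refine smul_right_injective _ hab ?_
    show ((α : ℤ) * β) • (v * x2) = ((α : ℤ) * β) • ((σ * e) • x1)
    rw [hx2, hx1, mul_smul_comm, smul_smul, smul_smul] at hs1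
    rw [hs1, smul_smul]
    congr 1
    push_cast; ring
  have r2 : v * x1 = (τ * e') • x2 := by
    refine smul_right_injective _ hab ?_
    show ((α : ℤ) * β) • (v * x1) = ((α : ℤ) * β) • ((τ * e') • x2)
    rw [hx2, hx1, mul_smul_comm, smul_smul, smul_smul] at hs2
    rw [mul_comm (α : ℤ) β, hs2, smul_smul]
    congr 1
    push_cast; ring
  have x10 : x1.re = 0 := by
    have h1 := congrArg (fun q : ℍ[ℤ] => q.re) hx1
    simp only [re_smul, smul_eq_mul, hb.r2] at h1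
    exact (mul_eq_zero.mp h1.symm).resolve_left hαz
  have x20 : x2.re = 0 := by
    have h1 := congrArg (fun q : ℍ[ℤ] => q.re) hx2
    simp only [re_smul, smul_eq_mul, hb.r3] at h1
    exact (mul_eq_zero.mp h1.symm).resolve_left hβz
  obtain ⟨f', hf'⟩ : ∃ f' : ℤ, f'.natAbs = f ∧ x1 * x2 = f' • v := by
    have h1 : ((α : ℤ) * β) • (x1 * x2) = g • v := by
      rw [← hmul]
      conv_rhs => rw [hx1, hx2, smul_mul_smul_comm]
    obtain ⟨f', hf'⟩ := eq_smul_of_parallel hab hv h1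
    refine ⟨f', ?_, hf'⟩
    rw [hf', smul_smul] at h1
    have h2 := congrArg ct h1
    rw [ct_smul, ct_smul, hv, mul_one, mul_one, hgg, Int.natAbs_mul, Int.natAbs_mul,
      Int.natAbs_natCast, Int.natAbs_natCast] at h2
    exact Nat.eq_of_mul_eq_mul_left (Nat.mul_pos hα1 hβ1) h2
  obtain ⟨hf1, hf2⟩ := hf'
  -- the gcd of `e` and `e'`
  have hωZ : Nat.gcd e e' ≤ Z := by
    obtain ⟨W, hW⟩ : ∃ W, W = Nat.gcd e e' := ⟨_, rfl⟩
    rw [← hW]
    obtain ⟨a, ha⟩ : W ∣ e := by rw [hW]; exact Nat.gcd_dvd_left _ _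
    obtain ⟨b, hb'⟩ : W ∣ e' := by rw [hW]; exact Nat.gcd_dvd_right _ _
    have hWf : (W : ℤ) ∣ f' := by
      refine dvd_coeff (x' := (τ * b) • x2) (y' := (σ * a) • x1) hvre x10 x20 hv ?_ ?_ hf2
      · rw [r2, hb', smul_smul]; congr 1; push_cast; ring
      · rw [r1, ha, smul_smul]; congr 1; push_cast; ring
    have hWf2 : W ∣ f := by
      rw [← hf1]; exact Int.natCast_dvd.mp hWf
    obtain ⟨t, ht⟩ := hWf2
    refine hns W ?_
    have hDd : nq D = ct D ^ 2 * nq v := by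
      conv_lhs => rw [hD, nq_smul, Int.natAbs_natCast]
    rw [← hb.sum, hDd, hP, hQ, ← hee, ht]
    refine ⟨ct D ^ 2 * (a * b) + α ^ 2 * b * t + β ^ 2 * a * t, ?_⟩
    conv_lhs => rw [ha, hb']
    ring
  have hE : 0 < β ^ 2 * f := Nat.mul_pos (pow_pos hβ1 2) f0
  have hE' : 0 < α ^ 2 * f := Nat.mul_pos (pow_pos hα1 2) f0
  refine ⟨g, α, β, e, e', f, al D u1 * α, hmul, ?_⟩
  refine ⟨hα1, hαZ, hβ1, hβZ, e0, e'0, f0, hee, hP, hQ, hgg, hcα, hcβ, hωZ, ?_, ?_, ?_, ?_, ?_⟩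
  · -- e ≤ Z^3 e'
    have h1 : β ^ 2 * e * f ≤ Z * (α ^ 2 * e' * f) := by rw [← hP, ← hQ]; exact g12.2.2.2
    have h2 : β ^ 2 * e ≤ Z * (α ^ 2 * e') := by
      refine Nat.le_of_mul_le_mul_right ?_ f0
      calc β ^ 2 * e * f ≤ _ := h1
        _ = Z * (α ^ 2 * e') * f := by ring
    calc e ≤ β ^ 2 * e := Nat.le_mul_of_pos_left _ (pow_pos hβ1 2)
      _ ≤ Z * (α ^ 2 * e') := h2
      _ ≤ Z * (Z ^ 2 * e') := Nat.mul_le_mul_left _ (Nat.mul_le_mul_right _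
          (Nat.pow_le_pow_left hαZ 2))
      _ = Z ^ 3 * e' := by ring
  · have h1 : α ^ 2 * e' * f ≤ Z * (β ^ 2 * e * f) := by rw [← hP, ← hQ]; exact g12.2.2.1
    have h2 : α ^ 2 * e' ≤ Z * (β ^ 2 * e) := by
      refine Nat.le_of_mul_le_mul_right ?_ f0
      calc α ^ 2 * e' * f ≤ _ := h1
        _ = Z * (β ^ 2 * e) * f := by ring
    calc e' ≤ α ^ 2 * e' := Nat.le_mul_of_pos_left _ (pow_pos hα1 2)
      _ ≤ Z * (β ^ 2 * e) := h2
      _ ≤ Z * (Z ^ 2 * e) := Nat.mul_le_mul_left _ (Nat.mul_le_mul_right _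
          (Nat.pow_le_pow_left hβZ 2))
      _ = Z ^ 3 * e := by ring
  · exact Nat.mul_pos (al_pos hb.n1 hb.n2) hα1
  · rw [sq]; exact Nat.mul_le_mul gD1.1 hαZ
  · -- the divisibility by the content
    obtain ⟨v2, hv2, hu2⟩ := exists_prim hb.n3
    obtain ⟨g', -, hg', -, -⟩ := mul_eq_smul (D := u2) (x := D) (y := u1)
      ⟨hb.r3, hb.r1, hb.r2, by rw [dot_comm']; exact hb.d13, by rw [dot_comm']; exact hb.d23,
        hb.d12, hb.n3, hb.n1, hb.n2⟩ hv2 hu2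
    obtain ⟨B, -, hB, -⟩ := al_mul hb.r2 hb.n1 hb.n2 hv2 hg'
    -- x2 = m v2
    have hct2 : ct u2 = β * ct x2 := by
      conv_lhs => rw [hx2, ct_smul, Int.natAbs_natCast]
    have hx2v : x2 = (ct x2 : ℤ) • v2 := by
      refine smul_right_injective _ hβz ?_
      show (β : ℤ) • x2 = (β : ℤ) • ((ct x2 : ℤ) • v2)
      rw [← hx2, smul_smul]
      conv_lhs => rw [hu2, hct2]
      push_cast; rfl
    have v20 : v2.re = 0 := by
      have h1 := congrArg (fun q : ℍ[ℤ] => q.re) hu2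
      simp only [re_smul, smul_eq_mul, hb.r3] at h1
      exact (mul_eq_zero.mp h1.symm).resolve_left (by exact_mod_cast (ct_pos hb.n3).ne')
    have hcc : ct (v2 * x1) = ct (x1 * v2) := by
      rw [← ct_star (x1 * v2), star_mul, star_pure v20, star_pure x10, neg_mul_neg]
    have hf3 : f = ct x2 * ct (v2 * x1) := by
      have h1 : ct (x1 * x2) = f := by rw [hf2, ct_smul, hv, mul_one, hf1]
      rw [← h1, hcc]
      conv_lhs => rw [hx2v, mul_smul_comm, ct_smul, Int.natAbs_natCast]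
    have hu1 : ct (v2 * u1) = α * ct (v2 * x1) := by
      conv_lhs => rw [hx1, mul_smul_comm, ct_smul, Int.natAbs_natCast]
    rw [hu1] at hB
    refine ⟨B * ct x2, ?_⟩
    calc al D u1 * α * (nq u1 + nq u2)
        = (al D u1 * (α * ct (v2 * x1))) * ct x2 * (β ^ 2 * e + α ^ 2 * e') := by
          rw [hP, hQ, hf3]; ring
      _ = ct D * (β ^ 2 * e + α ^ 2 * e') * (B * ct x2) := by rw [hB]; ring

end Pool.Agent.TorusAA
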