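import Pool.Agent.TorusAA.Stmts
import Pool.Agent.TorusAA.Api

/-! A clique gives an arithmetic configuration. -/

namespace Pool.Agent.TorusAA

open Quaternion Pool.Agent.TorusL4

theorem cfg (h1 : S_boxpair) (h2 : S_triple) (h3 : S_tlem) (h4 : S_five) (h5 : S_lin) :
    S_cfg := by
  classical
  intro n Z D hn hD0 hD hNS hclq
  obtain ⟨x, hx, hcl⟩ := hclq
  obtain ⟨v, hv, hDv⟩ := exists_prim hD
  have hc0 : 0 < ct D := ct_pos hD
  have hcz : (ct D : ℤ) ≠ 0 := by exact_mod_cast hc0.ne'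
  have hv0 : v.re = 0 := by
    have := congrArg QuaternionAlgebra.re hDv
    rw [re_smul, hD0, smul_eq_mul] at this
    exact (mul_eq_zero.mp this.symm).resolve_left hcz
  have hnqD : nq D = ct D ^ 2 * nq v := by
    conv_lhs => rw [hDv, nq_smul]
    simp
  have hbox : ∀ i j, i ≠ j → Box n D (x i - x j) (x i + x j - D) := fun i j hij =>
    box_of_circle (hx i).1 (hx j).1 hD0 (hx i).2.1 (hx j).2.1 (hx i).2.2 (hx j).2.2 hD
      (hcl i j hij).1 (hcl i j hij).2.1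
  have hdata : ∀ p : Fin 5 × Fin 5, ∃ (g : ℤ) (α β e e' f s : ℕ), p.1 < p.2 →
      (x p.1 - x p.2) * (x p.1 + x p.2 - D) = g • v ∧
      PD Z (ct D) (nq v) (nq (x p.1 - x p.2)) (nq (x p.1 + x p.2 - D)) g.natAbs α β e e' f s := by
    intro p
    by_cases hp : p.1 < p.2
    · obtain ⟨g, α, β, e, e', f, s, h⟩ := h1 n Z D _ _ v hn (hbox p.1 p.2 hp.ne)
        (hcl p.1 p.2 hp.ne).2.2 hNS hv hDv
      exact ⟨g, α, β, e, e', f, s, fun _ => h⟩
    · exact ⟨0, 0, 0, 0, 0, 0, 0, fun h => absurd h hp⟩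
  choose g α β e e' f s hd using hdata
  have hsum : ∀ i j, i ≠ j → nq (x i - x j) + nq (x i + x j - D) = 4 * n - ct D ^ 2 * nq v := by
    intro i j hij
    have := (hbox i j hij).sum
    rw [hnqD] at this
    omega
  have h01 := hbox 0 1 (by decide)
  have hPpos : 0 < nq (x 0 - x 1) := nq_pos h01.n2
  have hN := hsum 0 1 (by decide)
  have hmem : ∀ p : Fin 5 × Fin 5, p ∈ prs ↔ p.1 < p.2 := by
    intro p; unfold prs; simp
  have hq : ∀ p : Fin 5 × Fin 5, p.1 < p.2 → nq v / e p = e' p := by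
    intro p hp
    have h := (hd p hp).2
    rw [← h.ee, Nat.mul_div_cancel_left _ h.e0]
  have hpd : ∀ i j : Fin 5, (hij : i < j) → PD Z (ct D) (nq v) (nq (x i - x j))
      (nq (x i + x j - D)) (g (i, j)).natAbs (α (i, j)) (β (i, j)) (e (i, j)) (e' (i, j))
      (f (i, j)) (s (i, j)) := fun i j hij => (hd (i, j) hij).2
  have htr : ∀ i j k : Fin 5, i < j → j < k → _ := fun i j k hij hjk =>
    h2 n (ct D) v (x i) (x j) (x k) (g (i, j)) (g (j, k)) (g (i, k)) hv0 hv hcz (hx i).1 (hx j).1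
      (hx k).1 (hx i).2.1 (hx j).2.1 (hx k).2.1 (by rw [← hDv]; exact (hx i).2.2)
      (by rw [← hDv]; exact (hx j).2.2) (by rw [← hDv]; exact (hx k).2.2) (hcl i j hij.ne).1
      (by rw [← hDv]; exact (hd (i, j) hij).1) (by rw [← hDv]; exact (hd (j, k) hjk).1)
      (by rw [← hDv]; exact (hd (i, k) (hij.trans hjk)).1)
  simp only [← hDv] at htr
  refine ⟨nq v, 4 * n - ct D ^ 2 * nq v, ?_, ?_, ?_, ?_, α, β, e, s, ?_, ?_⟩
  · have := (hbox 0 1 (by decide)).sum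
    rw [hnqD] at this
    omega
  · omega
  · have ht := htr 0 1 2 (by decide) (by decide)
    exact h5 Z (ct D) (nq v) _ _ _ _ _ _ _ _ _ _ _ _ _ _ _ _ _ _ _ _ _ _ _ _ _ _ _ _
      (hpd 0 1 (by decide)) (hpd 1 2 (by decide)) (hpd 0 2 (by decide))
      (hsum 0 1 (by decide)) (hsum 1 2 (by decide)) (hsum 0 2 (by decide)) ht.2.1
  · have hg := (hcl 0 1 (by decide)).2.2
    have a1 := hg.1.2.2.2
    have a2 := hg.2.1.2.2.2
    rw [hnqD] at a1 a2
    rw [← hN]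
    calc nq (x 0 - x 1) + nq (x 0 + x 1 - D)
        ≤ Z * (ct D ^ 2 * nq v) + Z * (ct D ^ 2 * nq v) := Nat.add_le_add a1 a2
      _ = 2 * Z * (ct D ^ 2 * nq v) := by ring
  · intro p hp
    rw [hmem] at hp
    have h := (hd p hp).2
    rw [hq p hp]
    refine ⟨h.α1, h.αZ, h.β1, h.βZ, ⟨e' p, h.ee.symm⟩, h.s1, h.sZ, ?_, ?_⟩
    · rw [← hsum p.1 p.2 hp.ne]; exact h.hc
    · have he : e p ≤ β p ^ 2 * e p + α p ^ 2 * e' p := by
        have : 1 ≤ β p ^ 2 := Nat.one_le_pow _ _ h.β1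
        nlinarith [Nat.zero_le (α p ^ 2 * e' p), h.e0]
      calc nq v = e p * e' p := h.ee.symm
        _ ≤ e p * (Z ^ 3 * e p) := Nat.mul_le_mul_left _ h.b2
        _ = Z ^ 3 * (e p) ^ 2 := by ring
        _ ≤ _ := Nat.mul_le_mul_left _ (Nat.pow_le_pow_left he 2)
  · refine h4 _ (4 * Z ^ 5) ?_ ?_
    · intro p hp
      rw [hmem] at hp
      have h := (hd p hp).2
      have : 0 < β p ^ 2 * e p := Nat.mul_pos (Nat.pow_pos h.β1) h.e0
      omega
    · intro i j k hij hjk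
      have ht := htr i j k hij hjk
      obtain ⟨σ, s1, s2, hs⟩ := h3 Z (ct D) (nq v) (4 * n - ct D ^ 2 * nq v) _ _ _ _ _ _ _ _ _ _ _
        _ _ _ _ _ _ _ _ _ _ _ _ _ _ _ _ (hpd i j hij) (hpd j k hjk) (hpd i k (hij.trans hjk))
        (hsum i j hij.ne) (hsum j k hjk.ne) (hsum i k (hij.trans hjk).ne) (by
          rw [← hsum i j hij.ne]
          push_cast
          exact ht.1)
      refine ⟨σ, s1, s2, ?_⟩
      intro L
      rw [hq (i, j) hij, hq (i, k) (hij.trans hjk), hq (j, k) hjk]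
      exact hs L

end Pool.Agent.TorusAA
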