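import Pool.Agent.TorusAA.Stmts

/-! The number of arithmetic configurations for a fixed content. -/

namespace Pool.Agent.TorusAA

open Finset

private abbrev Dt := (p : {p : Fin 5 × Fin 5 // p ∈ prs}) → ℕ × ℕ × ℕ × ℕ

private def qf (d : ℕ) (w : ℕ × ℕ × ℕ × ℕ) : ℕ := w.2.1 ^ 2 * w.2.2.1 + w.1 ^ 2 * (d / w.2.2.1)

private noncomputable def bx (Z d : ℕ) : Finset Dt :=
  Fintype.piFinset (fun _ => Icc 1 Z ×ˢ Icc 1 Z ×ˢ d.divisors ×ˢ Icc 1 (Z ^ 2))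

private theorem prs_card : prs.card = 10 := by decide

private theorem prs_type_card : Fintype.card {p : Fin 5 × Fin 5 // p ∈ prs} = 10 := by
  rw [Fintype.card_coe, prs_card]

private theorem bx_card (Z d : ℕ) : (bx Z d).card = (Z ^ 4 * d.divisors.card) ^ 10 := by
  unfold bx
  rw [Fintype.card_piFinset, Finset.prod_const, Finset.card_univ, prs_type_card]
  simp only [card_product, Nat.card_Icc, Nat.add_sub_cancel]
  ring

/-- The numbers `N` for given data. -/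
private noncomputable def NN (X c d : ℕ) (φ : Dt) : Finset ℕ :=
  (Icc 1 (4 * X)).filter (fun N => ∀ p, c * qf d (φ p) ∣ (φ p).2.2.2 * N)

/-- Good data. -/
private def Gdt (Z d : ℕ) (φ : Dt) : Prop :=
  (∀ p, d ≤ Z ^ 3 * (qf d (φ p)) ^ 2) ∧
    ∀ L : ℕ, 0 < L → (∀ p, qf d (φ p) ∣ L) → ∏ p, qf d (φ p) ≤ (4 * Z ^ 5) ^ 10 * L ^ 6

private theorem NN_card {X Z c d : ℕ} (hX : 1 ≤ X) (hZ : 1 ≤ Z) (hc : 1 ≤ c) (hd : 1 ≤ d)
    (hXd : 4 * X ≤ 3 * Z ^ 2 * (c ^ 2 * d)) {φ : Dt} (hφ : φ ∈ bx Z d) (hg : Gdt Z d φ) :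
    ((NN X c d φ).card : ℝ) ≤
      64 * (Z : ℝ) ^ 33 * (X : ℝ) ^ (1 / 6 : ℝ) * (c : ℝ) ^ (2 / 3 : ℝ) := by
  classical
  have hmem : ∀ p, (1 ≤ (φ p).1 ∧ (φ p).1 ≤ Z) ∧ (1 ≤ (φ p).2.1 ∧ (φ p).2.1 ≤ Z) ∧
      (φ p).2.2.1 ∈ d.divisors ∧ (1 ≤ (φ p).2.2.2 ∧ (φ p).2.2.2 ≤ Z ^ 2) := by
    intro p
    have := (Fintype.mem_piFinset.mp hφ) p
    simpa only [mem_product, mem_Icc] using this
  have hq0 : ∀ p, 0 < qf d (φ p) := by
    intro p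
    obtain ⟨_, h2, h3, _⟩ := hmem p
    unfold qf
    have : 0 < (φ p).2.2.1 := Nat.pos_of_mem_divisors h3
    have : 0 < (φ p).2.1 ^ 2 * (φ p).2.2.1 := Nat.mul_pos (Nat.pow_pos h2.1) this
    omega
  set mp : {p : Fin 5 × Fin 5 // p ∈ prs} → ℕ := fun p =>
    c * qf d (φ p) / Nat.gcd (c * qf d (φ p)) (φ p).2.2.2 with hmp
  have hcq : ∀ p, 0 < c * qf d (φ p) := fun p => Nat.mul_pos hc (hq0 p)
  have hgpos : ∀ p, 0 < Nat.gcd (c * qf d (φ p)) (φ p).2.2.2 := fun p =>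
    Nat.gcd_pos_of_pos_left _ (hcq p)
  have hmppos : ∀ p, 0 < mp p := fun p =>
    Nat.div_pos (Nat.le_of_dvd (hcq p) (Nat.gcd_dvd_left _ _)) (hgpos p)
  set m0 : ℕ := Finset.univ.lcm mp with hm0
  have hm0pos : 0 < m0 := by
    refine Nat.pos_of_ne_zero ?_
    rw [hm0, Ne, Finset.lcm_eq_zero_iff]
    rintro ⟨p, _, hp⟩
    exact (hmppos p).ne' hp
  have hmpm0 : ∀ p, mp p ∣ m0 := fun p => Finset.dvd_lcm (mem_univ p)
  -- the numbers are multiples of m0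
  have hsub : NN X c d φ ⊆ (Ioc 0 (4 * X)).filter (fun N => m0 ∣ N) := by
    intro N hN
    unfold NN at hN
    rw [mem_filter, mem_Icc] at hN
    rw [mem_filter, mem_Ioc]
    refine ⟨⟨hN.1.1, hN.1.2⟩, Finset.lcm_dvd fun p _ => ?_⟩
    have h1 := hN.2 p
    show c * qf d (φ p) / Nat.gcd (c * qf d (φ p)) (φ p).2.2.2 ∣ N
    have h2 : c * qf d (φ p) / Nat.gcd (c * qf d (φ p)) (φ p).2.2.2 ∣
        (φ p).2.2.2 / Nat.gcd (c * qf d (φ p)) (φ p).2.2.2 * N := by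
      obtain ⟨k, hk⟩ := h1
      refine ⟨k, ?_⟩
      have e1 := Nat.div_mul_cancel (Nat.gcd_dvd_left (c * qf d (φ p)) (φ p).2.2.2)
      have e2 := Nat.div_mul_cancel (Nat.gcd_dvd_right (c * qf d (φ p)) (φ p).2.2.2)
      refine Nat.eq_of_mul_eq_mul_left (hgpos p) ?_
      calc Nat.gcd (c * qf d (φ p)) (φ p).2.2.2 *
            ((φ p).2.2.2 / Nat.gcd (c * qf d (φ p)) (φ p).2.2.2 * N)
          = ((φ p).2.2.2 / Nat.gcd (c * qf d (φ p)) (φ p).2.2.2 *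
            Nat.gcd (c * qf d (φ p)) (φ p).2.2.2) * N := by ring
        _ = (φ p).2.2.2 * N := by rw [e2]
        _ = c * qf d (φ p) * k := hk
        _ = (c * qf d (φ p) / Nat.gcd (c * qf d (φ p)) (φ p).2.2.2 *
            Nat.gcd (c * qf d (φ p)) (φ p).2.2.2) * k := by rw [e1]
        _ = _ := by ring
    exact (Nat.coprime_div_gcd_div_gcd (hgpos p)).dvd_of_dvd_mul_left h2
  have hcard : (NN X c d φ).card ≤ 4 * X / m0 := by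
    refine le_trans (card_le_card hsub) ?_
    rw [Nat.Ioc_filter_dvd_card_eq_div]
  -- the lower bound for m0
  have hdvd : ∀ p, c * qf d (φ p) ∣ (φ p).2.2.2 * m0 := by
    intro p
    have e1 := Nat.div_mul_cancel (Nat.gcd_dvd_left (c * qf d (φ p)) (φ p).2.2.2)
    rw [← e1, mul_comm]
    exact Nat.mul_dvd_mul (Nat.gcd_dvd_right _ _) (hmpm0 p)
  set S : ℕ := ∏ p, (φ p).2.2.2 with hS
  have hSdvd : ∀ p, (φ p).2.2.2 ∣ S := fun p => Finset.dvd_prod_of_mem _ (mem_univ p)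
  have hS1 : 1 ≤ S := Nat.succ_le_of_lt (Finset.prod_pos fun p _ => (hmem p).2.2.2.1)
  have hSZ : S ≤ Z ^ 20 := by
    calc S ≤ ∏ _p : {p : Fin 5 × Fin 5 // p ∈ prs}, Z ^ 2 :=
          Finset.prod_le_prod' fun p _ => (hmem p).2.2.2.2
      _ = Z ^ 20 := by
          rw [Finset.prod_const, Finset.card_univ, prs_type_card]; ring
  have hdvdS : ∀ p, c * qf d (φ p) ∣ S * m0 := fun p =>
    (hdvd p).trans (Nat.mul_dvd_mul_right (hSdvd p) _)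
  have hp0 : ((0, 1) : Fin 5 × Fin 5) ∈ prs := by decide
  obtain ⟨L, hL⟩ : c ∣ S * m0 := (Dvd.intro _ rfl).trans (hdvdS ⟨(0, 1), hp0⟩)
  have hLpos : 0 < L := by
    rcases Nat.eq_zero_or_pos L with h | h
    · rw [h, mul_zero] at hL
      exact absurd hL (Nat.mul_pos hS1 hm0pos).ne'
    · exact h
  have hqL : ∀ p, qf d (φ p) ∣ L := by
    intro p
    have := hdvdS p
    rw [hL] at this
    exact Nat.dvd_of_mul_dvd_mul_left hc this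
  have hprod := hg.2 L hLpos hqL
  have h1 : d ^ 10 ≤ Z ^ 30 * (∏ p, qf d (φ p)) ^ 2 := by
    calc d ^ 10 = ∏ _p : {p : Fin 5 × Fin 5 // p ∈ prs}, d := by
          rw [Finset.prod_const, Finset.card_univ, prs_type_card]
      _ ≤ ∏ p : {p : Fin 5 × Fin 5 // p ∈ prs}, Z ^ 3 * (qf d (φ p)) ^ 2 :=
          Finset.prod_le_prod' fun p _ => hg.1 p
      _ = Z ^ 30 * (∏ p, qf d (φ p)) ^ 2 := by
          rw [Finset.prod_mul_distrib, Finset.prod_const, Finset.card_univ, prs_type_card,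
            Finset.prod_pow]
          ring
  have h2 : d ^ 10 ≤ Z ^ 30 * ((4 * Z ^ 5) ^ 10 * L ^ 6) ^ 2 :=
    h1.trans (Nat.mul_le_mul_left _ (Nat.pow_le_pow_left hprod 2))
  have h3 : c ^ 12 * d ^ 10 ≤ 4 ^ 20 * Z ^ 370 * m0 ^ 12 := by
    calc c ^ 12 * d ^ 10 ≤ c ^ 12 * (Z ^ 30 * ((4 * Z ^ 5) ^ 10 * L ^ 6) ^ 2) :=
          Nat.mul_le_mul_left _ h2
      _ = 4 ^ 20 * Z ^ 130 * (c * L) ^ 12 := by ring
      _ = 4 ^ 20 * Z ^ 130 * (S * m0) ^ 12 := by rw [hL]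
      _ ≤ 4 ^ 20 * Z ^ 130 * (Z ^ 20 * m0) ^ 12 :=
          Nat.mul_le_mul_left _ (Nat.pow_le_pow_left (Nat.mul_le_mul_right _ hSZ) 12)
      _ = _ := by ring
  have h4 : (4 * X) ^ 12 ≤ 3 ^ 10 * 4 ^ 22 * Z ^ 390 * X ^ 2 * c ^ 8 * m0 ^ 12 := by
    have hc12 : 0 < c ^ 12 := Nat.pow_pos hc
    refine Nat.le_of_mul_le_mul_left ?_ hc12
    calc c ^ 12 * (4 * X) ^ 12 = c ^ 12 * (4 * X) ^ 2 * (4 * X) ^ 10 := by ring
      _ ≤ c ^ 12 * (4 * X) ^ 2 * (3 * Z ^ 2 * (c ^ 2 * d)) ^ 10 :=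
          Nat.mul_le_mul_left _ (Nat.pow_le_pow_left hXd 10)
      _ = 3 ^ 10 * 4 ^ 2 * Z ^ 20 * X ^ 2 * c ^ 20 * (c ^ 12 * d ^ 10) := by ring
      _ ≤ 3 ^ 10 * 4 ^ 2 * Z ^ 20 * X ^ 2 * c ^ 20 * (4 ^ 20 * Z ^ 370 * m0 ^ 12) :=
          Nat.mul_le_mul_left _ h3
      _ = _ := by ring
  -- real form
  have hm0R : (0 : ℝ) < m0 := by exact_mod_cast hm0pos
  have hZR : (1 : ℝ) ≤ Z := by exact_mod_cast hZ
  have hXR : (1 : ℝ) ≤ X := by exact_mod_cast hX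
  have hcR : (1 : ℝ) ≤ c := by exact_mod_cast hc
  have h5 : ((NN X c d φ).card : ℝ) ≤ (4 * X : ℝ) / m0 := by
    have : ((NN X c d φ).card : ℝ) ≤ ((4 * X / m0 : ℕ) : ℝ) := by exact_mod_cast hcard
    refine le_trans this ?_
    have h := @Nat.cast_div_le ℝ _ _ _ (4 * X) m0
    push_cast at h
    exact h
  refine le_trans h5 ?_
  have hb0 : (0 : ℝ) ≤ 64 * (Z : ℝ) ^ 33 * (X : ℝ) ^ (1 / 6 : ℝ) * (c : ℝ) ^ (2 / 3 : ℝ) := by
    positivity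
  refine (pow_le_pow_iff_left₀ (by positivity) hb0 (n := 12) (by norm_num)).mp ?_
  have e1 : ((X : ℝ) ^ (1 / 6 : ℝ)) ^ 12 = (X : ℝ) ^ 2 := by
    rw [← Real.rpow_natCast, ← Real.rpow_mul (by linarith), ← Real.rpow_natCast]
    norm_num
  have e2 : ((c : ℝ) ^ (2 / 3 : ℝ)) ^ 12 = (c : ℝ) ^ 8 := by
    rw [← Real.rpow_natCast, ← Real.rpow_mul (by linarith), ← Real.rpow_natCast]
    norm_num
  rw [div_pow, mul_pow _ ((c : ℝ) ^ (2 / 3 : ℝ)), mul_pow _ ((X : ℝ) ^ (1 / 6 : ℝ)), e1, e2,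
    div_le_iff₀ (by positivity)]
  have h6 : ((4 * X : ℝ)) ^ 12 ≤ 3 ^ 10 * 4 ^ 22 * (Z : ℝ) ^ 390 * X ^ 2 * c ^ 8 * m0 ^ 12 := by
    exact_mod_cast h4
  refine le_trans h6 ?_
  have h7 : (Z : ℝ) ^ 390 ≤ (Z : ℝ) ^ 396 := pow_le_pow_right₀ hZR (by norm_num)
  have h8 : (3 : ℝ) ^ 10 * 4 ^ 22 ≤ 64 ^ 12 := by norm_num
  calc 3 ^ 10 * 4 ^ 22 * (Z : ℝ) ^ 390 * X ^ 2 * c ^ 8 * m0 ^ 12
      ≤ 64 ^ 12 * (Z : ℝ) ^ 396 * X ^ 2 * c ^ 8 * m0 ^ 12 := by gcongr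
    _ = _ := by ring

/-- The possible values of `d`. -/
private noncomputable def Dset (Z R : ℕ) : Finset ℕ :=
  (((Icc (-(Z ^ 18 : ℤ)) (Z ^ 18)) ×ˢ (Icc (-(Z ^ 18 : ℤ)) (Z ^ 18)) ×ˢ
    (Icc (-(Z ^ 18 : ℤ)) (Z ^ 18)) ×ˢ (Icc (-(Z ^ 18 : ℤ)) (Z ^ 18))) ×ˢ
    (Icc 1 R ×ˢ Icc 1 R ×ˢ Icc 1 R)).image (fun w : (ℤ × ℤ × ℤ × ℤ) × (ℕ × ℕ × ℕ) =>
      w.2.1 * w.2.2.1 * w.2.2.2 *
        ((w.1.1 * w.2.1 - w.1.2.2.1 * w.2.2.2 - w.1.2.2.2 * w.2.2.1) / w.1.2.1).natAbs)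

private theorem Dset_card (Z R : ℕ) : (Dset Z R).card ≤ (2 * Z ^ 18 + 1) ^ 4 * R ^ 3 := by
  unfold Dset
  refine le_trans card_image_le (le_of_eq ?_)
  simp only [card_product, Nat.card_Icc, Nat.add_sub_cancel, Int.card_Icc]
  have : ((Z : ℤ) ^ 18 + 1 - -(Z : ℤ) ^ 18).toNat = 2 * Z ^ 18 + 1 := by
    have h : (Z : ℤ) ^ 18 + 1 - -(Z : ℤ) ^ 18 = ((2 * Z ^ 18 + 1 : ℕ) : ℤ) := by push_cast; ring
    rw [h, Int.toNat_natCast]
  rw [this]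
  ring

private theorem mem_Dset {Z R d : ℕ} (h : Lin Z d) (hR : ∀ r : ℕ, r ^ 4 ≤ Z ^ 41 * d → r ≤ R) :
    d ∈ Dset Z R := by
  obtain ⟨r, s, t, u, A, B, C, E, hr, hs, ht, hu, hd, hB, hlin, hA1, hB1, hC1, hE1, hr4, hs4,
    ht4⟩ := h
  unfold Dset
  rw [mem_image]
  refine ⟨((A, B, C, E), (r, s, t)), ?_, ?_⟩
  · simp only [mem_product, mem_Icc]
    exact ⟨⟨abs_le.mp hA1, abs_le.mp hB1, abs_le.mp hC1, abs_le.mp hE1⟩, ⟨hr, hR r hr4⟩,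
      ⟨hs, hR s hs4⟩, ⟨ht, hR t ht4⟩⟩
  · show r * s * t * ((A * r - C * t - E * s) / B).natAbs = d
    have : A * r - C * t - E * s = B * u := by linear_combination hlin
    rw [this, Int.mul_ediv_cancel_left _ hB, Int.natAbs_natCast, hd]

theorem count : S_count := by
  classical
  intro X Z c T hX hZ hc hT
  have hZR : (1 : ℝ) ≤ Z := by exact_mod_cast hZ
  have hXR : (1 : ℝ) ≤ X := by exact_mod_cast hX
  have hcR : (1 : ℝ) ≤ c := by exact_mod_cast hc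
  -- the size of the factors of d
  obtain ⟨Y, hY⟩ : ∃ Y : ℝ, Y = (Z : ℝ) ^ 41 * (4 * X) / (c : ℝ) ^ 2 := ⟨_, rfl⟩
  have hY0 : 0 ≤ Y := by rw [hY]; positivity
  set R : ℕ := ⌊Y ^ (1 / 4 : ℝ)⌋₊ with hR
  have hRle : (R : ℝ) ≤ Y ^ (1 / 4 : ℝ) := Nat.floor_le (Real.rpow_nonneg hY0 _)
  set DD : Finset ℕ := (Dset Z R).filter (fun d => 1 ≤ d ∧ d ≤ 4 * X ∧
    4 * X ≤ 3 * Z ^ 2 * (c ^ 2 * d)) with hDD
  set G : ℕ → Finset Dt := fun d => (bx Z d).filter (fun φ => Gdt Z d φ) with hG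
  set F : Finset ℕ := DD.biUnion (fun d => (G d).biUnion (fun φ =>
    (NN X c d φ).image (fun N => (c ^ 2 * d + N) / 4))) with hF
  have hsub : {n : ℕ | 1 ≤ n ∧ n ≤ X ∧ X ≤ Z * n ∧
      ∃ d N : ℕ, 4 * n = c ^ 2 * d + N ∧ Cfg Z c d N} ⊆ (F : Set ℕ) := by
    rintro n ⟨hn1, hnX, hXn, d, N, h4n, hN0, hlin, hNd, α, β, e, s, hdat, hL⟩
    have hd1 : 1 ≤ d := by
      obtain ⟨r, s, t, u, A, B, C, E, hr, hs, ht, hu, hd, _⟩ := hlin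
      rw [hd]
      exact Nat.mul_pos (Nat.mul_pos (Nat.mul_pos hr hs) ht) hu
    have hc2 : 1 ≤ c ^ 2 := Nat.one_le_pow _ _ hc
    have hdX : c ^ 2 * d ≤ 4 * X := by omega
    have hdX' : d ≤ 4 * X := le_trans (Nat.le_mul_of_pos_left _ hc2) hdX
    have hXd : 4 * X ≤ 3 * Z ^ 2 * (c ^ 2 * d) := by
      have h1 : 4 * n ≤ (2 * Z + 1) * (c ^ 2 * d) := by
        rw [h4n]; nlinarith
      calc 4 * X ≤ Z * (4 * n) := by nlinarith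
        _ ≤ Z * ((2 * Z + 1) * (c ^ 2 * d)) := Nat.mul_le_mul_left _ h1
        _ ≤ Z * ((3 * Z) * (c ^ 2 * d)) :=
          Nat.mul_le_mul_left _ (Nat.mul_le_mul_right _ (by omega))
        _ = _ := by ring
    have hdD : d ∈ DD := by
      rw [hDD, mem_filter]
      refine ⟨mem_Dset hlin ?_, hd1, hdX', hXd⟩
      intro r hr
      rw [hR]
      refine Nat.le_floor ?_
      have h1 : (r : ℝ) ^ 4 ≤ Y := by
        have h2 : (r : ℝ) ^ 4 ≤ (Z : ℝ) ^ 41 * d := by exact_mod_cast hr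
        have h3 : (c : ℝ) ^ 2 * d ≤ 4 * X := by exact_mod_cast hdX
        rw [hY, le_div_iff₀ (by positivity)]
        calc (r : ℝ) ^ 4 * (c : ℝ) ^ 2 ≤ (Z : ℝ) ^ 41 * d * (c : ℝ) ^ 2 := by gcongr
          _ = (Z : ℝ) ^ 41 * ((c : ℝ) ^ 2 * d) := by ring
          _ ≤ _ := by gcongr
      calc (r : ℝ) = ((r : ℝ) ^ 4) ^ (1 / 4 : ℝ) := by
            rw [← Real.rpow_natCast, ← Real.rpow_mul (by positivity)]
            norm_num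
        _ ≤ Y ^ (1 / 4 : ℝ) := Real.rpow_le_rpow (by positivity) h1 (by norm_num)
    -- the data
    obtain ⟨φ, hφ⟩ : ∃ φ : Dt, ∀ p, φ p = (α p.1, β p.1, e p.1, s p.1) := ⟨_, fun _ => rfl⟩
    have hqf : ∀ p, qf d (φ p) = β p.1 ^ 2 * e p.1 + α p.1 ^ 2 * (d / e p.1) := by
      intro p; rw [hφ p]; rfl
    have hφG : φ ∈ G d := by
      rw [hG]
      simp only [mem_filter]
      refine ⟨?_, ?_, ?_⟩
      · unfold bx
        rw [Fintype.mem_piFinset]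
        intro p
        rw [hφ p]
        obtain ⟨h1, h2, h3, h4, h5, h6, h7, h8, h9⟩ := hdat p.1 p.2
        simp only [mem_product, mem_Icc, Nat.mem_divisors]
        exact ⟨⟨h1, h2⟩, ⟨h3, h4⟩, ⟨h5, by omega⟩, ⟨h6, h7⟩⟩
      · intro p
        rw [hqf p]
        exact (hdat p.1 p.2).2.2.2.2.2.2.2.2
      · intro L hL0 hLp
        have h1 := hL L hL0 (by
          intro p hp
          have := hLp ⟨p, hp⟩
          rwa [hqf] at this)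
        rw [← Finset.prod_coe_sort] at h1
        simp only [hqf]
        exact h1
    rw [hF]
    simp only [coe_biUnion, Set.mem_iUnion]
    refine ⟨d, hdD, φ, hφG, ?_⟩
    rw [mem_coe, mem_image]
    refine ⟨N, ?_, by omega⟩
    unfold NN
    rw [mem_filter, mem_Icc]
    refine ⟨⟨hN0, by omega⟩, ?_⟩
    intro p
    rw [hqf p, hφ p]
    exact (hdat p.1 p.2).2.2.2.2.2.2.2.1
  -- the cardinality
  have h1 : (Nat.card {n : ℕ | 1 ≤ n ∧ n ≤ X ∧ X ≤ Z * n ∧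
      ∃ d N : ℕ, 4 * n = c ^ 2 * d + N ∧ Cfg Z c d N} : ℝ) ≤ F.card := by
    rw [Nat.card_coe_set_eq]
    have := Set.ncard_le_ncard hsub (Finset.finite_toSet F)
    rw [Set.ncard_coe_finset] at this
    exact_mod_cast this
  refine le_trans h1 ?_
  obtain ⟨K, hK⟩ : ∃ K : ℝ, K = 64 * (Z : ℝ) ^ 33 * (X : ℝ) ^ (1 / 6 : ℝ) *
    (c : ℝ) ^ (2 / 3 : ℝ) := ⟨_, rfl⟩
  have hK0 : 0 ≤ K := by rw [hK]; positivity
  have h2 : ∀ d ∈ DD, (((G d).biUnion (fun φ =>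
      (NN X c d φ).image (fun N => (c ^ 2 * d + N) / 4))).card : ℝ) ≤
      ((Z : ℝ) ^ 4 * T) ^ 10 * K := by
    intro d hd
    rw [hDD, mem_filter] at hd
    obtain ⟨_, hd1, hdX, hXd⟩ := hd
    have h3 : (((G d).biUnion (fun φ =>
        (NN X c d φ).image (fun N => (c ^ 2 * d + N) / 4))).card : ℝ) ≤
        ∑ φ ∈ G d, ((NN X c d φ).card : ℝ) := by
      have : ((G d).biUnion (fun φ =>
        (NN X c d φ).image (fun N => (c ^ 2 * d + N) / 4))).card ≤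
          ∑ φ ∈ G d, (NN X c d φ).card :=
        le_trans card_biUnion_le (Finset.sum_le_sum fun φ _ => card_image_le)
      exact_mod_cast this
    refine le_trans h3 ?_
    have h4 : ∀ φ ∈ G d, ((NN X c d φ).card : ℝ) ≤ K := by
      intro φ hφ
      rw [hG] at hφ
      simp only [mem_filter] at hφ
      rw [hK]
      exact NN_card hX hZ hc hd1 hXd hφ.1 hφ.2
    refine le_trans (Finset.sum_le_sum h4) ?_
    rw [Finset.sum_const, nsmul_eq_mul]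
    refine mul_le_mul_of_nonneg_right ?_ hK0
    have h5 : (G d).card ≤ (Z ^ 4 * T) ^ 10 := by
      refine le_trans (card_filter_le _ _) ?_
      rw [bx_card]
      exact Nat.pow_le_pow_left (Nat.mul_le_mul_left _ (hT d hd1 hdX)) 10
    exact_mod_cast h5
  have h3 : (F.card : ℝ) ≤ (DD.card : ℝ) * (((Z : ℝ) ^ 4 * T) ^ 10 * K) := by
    have h4 : (F.card : ℝ) ≤ ∑ d ∈ DD, (((G d).biUnion (fun φ =>
        (NN X c d φ).image (fun N => (c ^ 2 * d + N) / 4))).card : ℝ) := by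
      have : F.card ≤ ∑ d ∈ DD, ((G d).biUnion (fun φ =>
        (NN X c d φ).image (fun N => (c ^ 2 * d + N) / 4))).card := card_biUnion_le
      exact_mod_cast this
    refine le_trans h4 (le_trans (Finset.sum_le_sum h2) ?_)
    rw [Finset.sum_const, nsmul_eq_mul]
  refine le_trans h3 ?_
  have h4 : (DD.card : ℝ) ≤ 81 * (Z : ℝ) ^ 72 * (3 * (Z : ℝ) ^ 31 * (X : ℝ) ^ (3 / 4 : ℝ) *
      (c : ℝ) ^ (-3 / 2 : ℝ)) := by
    have h5 : (DD.card : ℝ) ≤ (2 * (Z : ℝ) ^ 18 + 1) ^ 4 * (R : ℝ) ^ 3 := by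
      have : DD.card ≤ (2 * Z ^ 18 + 1) ^ 4 * R ^ 3 :=
        le_trans (card_filter_le _ _) (Dset_card Z R)
      exact_mod_cast this
    refine le_trans h5 ?_
    have h6 : (2 * (Z : ℝ) ^ 18 + 1) ^ 4 ≤ 81 * (Z : ℝ) ^ 72 := by
      have : (1 : ℝ) ≤ (Z : ℝ) ^ 18 := one_le_pow₀ hZR
      calc (2 * (Z : ℝ) ^ 18 + 1) ^ 4 ≤ (3 * (Z : ℝ) ^ 18) ^ 4 := by
            apply pow_le_pow_left₀ (by positivity); linarith
        _ = _ := by ring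
    have h7 : (R : ℝ) ^ 3 ≤ 3 * (Z : ℝ) ^ 31 * (X : ℝ) ^ (3 / 4 : ℝ) *
        (c : ℝ) ^ (-3 / 2 : ℝ) := by
      have h8 : (R : ℝ) ^ 3 ≤ (Y ^ (1 / 4 : ℝ)) ^ 3 := pow_le_pow_left₀ (by positivity) hRle 3
      refine le_trans h8 ?_
      have e1 : (Y ^ (1 / 4 : ℝ)) ^ 3 = Y ^ (3 / 4 : ℝ) := by
        rw [← Real.rpow_natCast, ← Real.rpow_mul hY0]; norm_num
      rw [e1, hY, Real.div_rpow (by positivity) (by positivity), Real.mul_rpow (by positivity)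
        (by positivity), Real.mul_rpow (by norm_num) (by positivity)]
      have e2 : ((c : ℝ) ^ 2) ^ (3 / 4 : ℝ) = (c : ℝ) ^ (3 / 2 : ℝ) := by
        rw [← Real.rpow_natCast, ← Real.rpow_mul (by linarith)]; norm_num
      have e3 : ((Z : ℝ) ^ 41) ^ (3 / 4 : ℝ) ≤ (Z : ℝ) ^ 31 := by
        rw [← Real.rpow_natCast, ← Real.rpow_mul (by linarith), ← Real.rpow_natCast]
        exact Real.rpow_le_rpow_of_exponent_le hZR (by norm_num)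
      have e4 : (4 : ℝ) ^ (3 / 4 : ℝ) ≤ 3 := by
        have : ((4 : ℝ) ^ (3 / 4 : ℝ)) ^ 4 ≤ 3 ^ 4 := by
          rw [← Real.rpow_natCast, ← Real.rpow_mul (by norm_num)]
          norm_num
        exact (pow_le_pow_iff_left₀ (by positivity) (by norm_num) (by norm_num)).mp this
      have e5 : (c : ℝ) ^ (-3 / 2 : ℝ) = ((c : ℝ) ^ (3 / 2 : ℝ))⁻¹ := by
        rw [← Real.rpow_neg (by linarith)]; norm_num
      rw [e2, e5, ← div_eq_mul_inv]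
      have hcp : 0 < (c : ℝ) ^ (3 / 2 : ℝ) := by positivity
      refine div_le_div_of_nonneg_right ?_ hcp.le
      calc ((Z : ℝ) ^ 41) ^ (3 / 4 : ℝ) * (4 ^ (3 / 4 : ℝ) * (X : ℝ) ^ (3 / 4 : ℝ))
          ≤ (Z : ℝ) ^ 31 * (3 * (X : ℝ) ^ (3 / 4 : ℝ)) := by gcongr
        _ = _ := by ring
    exact mul_le_mul h6 h7 (by positivity) (by positivity)
  have hT0 : (0 : ℝ) ≤ T := by positivity
  calc (DD.card : ℝ) * (((Z : ℝ) ^ 4 * T) ^ 10 * K)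
      ≤ (81 * (Z : ℝ) ^ 72 * (3 * (Z : ℝ) ^ 31 * (X : ℝ) ^ (3 / 4 : ℝ) *
        (c : ℝ) ^ (-3 / 2 : ℝ))) * (((Z : ℝ) ^ 4 * T) ^ 10 * K) :=
        mul_le_mul_of_nonneg_right h4 (by positivity)
    _ = 15552 * (Z : ℝ) ^ 176 * (T : ℝ) ^ 10 * ((X : ℝ) ^ (3 / 4 : ℝ) * (X : ℝ) ^ (1 / 6 : ℝ)) *
        ((c : ℝ) ^ (-3 / 2 : ℝ) * (c : ℝ) ^ (2 / 3 : ℝ)) := by rw [hK]; ring
    _ = 15552 * (Z : ℝ) ^ 176 * (T : ℝ) ^ 10 * (X : ℝ) ^ (11 / 12 : ℝ) *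
        (c : ℝ) ^ (-5 / 6 : ℝ) := by
        rw [← Real.rpow_add (by linarith), ← Real.rpow_add (by linarith)]
        norm_num
    _ ≤ 20000 * (Z : ℝ) ^ 180 * (T : ℝ) ^ 10 * (X : ℝ) ^ (11 / 12 : ℝ) *
        (c : ℝ) ^ (-5 / 6 : ℝ) := by
        have : (Z : ℝ) ^ 176 ≤ (Z : ℝ) ^ 180 := pow_le_pow_right₀ hZR (by norm_num)
        gcongr
        norm_num

end Pool.Agent.TorusAA
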