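import Pool.Agent.TorusAA.Stmts
import Pool.Agent.TorusAA.Api

/-! The contents of two sides of a good box. -/

namespace Pool.Agent.TorusAA

open Quaternion Pool.Agent.TorusL4

private theorem dot_smul_left (k : ℤ) (x y : ℍ[ℤ]) : dot (k • x) y = k * dot x y := by
  unfold dot
  simp only [imI_smul, imJ_smul, imK_smul, smul_eq_mul]
  ring

private theorem dot_smul_right (k : ℤ) (x y : ℍ[ℤ]) : dot x (k • y) = k * dot x y := by
  unfold dot
  simp only [imI_smul, imJ_smul, imK_smul, smul_eq_mul]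
  ring

/-- Decomposition of a nonzero pure vector. -/
private theorem prim {x : ℍ[ℤ]} (hx0 : x.re = 0) (hx : x ≠ 0) : ∃ v : ℍ[ℤ], v.re = 0 ∧ ct v = 1 ∧
    v ≠ 0 ∧ x = (ct x : ℤ) • v := by
  obtain ⟨v, hv, hxv⟩ := exists_prim hx
  have hc : (ct x : ℤ) ≠ 0 := by exact_mod_cast (ct_pos hx).ne'
  refine ⟨v, ?_, hv, ?_, hxv⟩
  · have h1 := congrArg (fun q : ℍ[ℤ] => q.re) hxv
    simp only [re_smul, smul_eq_mul, hx0] at h1
    rcases mul_eq_zero.mp h1.symm with h | h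
    · exact absurd h hc
    · exact h
  · rintro rfl; rw [ct_zero] at hv; exact zero_ne_one hv

private theorem ct_sq_dvd (x : ℍ[ℤ]) (hx : x ≠ 0) : ct x ^ 2 ∣ nq x := by
  obtain ⟨v, hv, hxv⟩ := exists_prim hx
  have : nq x = ct x ^ 2 * nq v := by
    conv_lhs => rw [hxv, nq_smul, Int.natAbs_natCast]
  exact ⟨nq v, this⟩

/-- The main step. -/
private theorem step {n Z : ℕ} {x y z : ℍ[ℤ]} (hb : Box n x y z) (hxz : nq x ≤ Z * nq z)
    (h1 : al z x ≤ Z) (h2 : al z y ≤ Z) (hns : NS Z n) : (ct x * ct y) ^ 2 ≤ 4 * Z ^ 7 * n := by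
  obtain ⟨v1, v10, hv1, v1n, hx⟩ := prim hb.r1 hb.n1
  obtain ⟨v2, v20, hv2, v2n, hy⟩ := prim hb.r2 hb.n2
  obtain ⟨v3, v30, hv3, v3n, hz⟩ := prim hb.r3 hb.n3
  have c1 : (ct x : ℤ) ≠ 0 := by exact_mod_cast (ct_pos hb.n1).ne'
  have c2 : (ct y : ℤ) ≠ 0 := by exact_mod_cast (ct_pos hb.n2).ne'
  have d12 : dot v1 v2 = 0 := by
    have h := hb.d12
    rw [hx, hy, dot_smul_left, dot_smul_right] at h
    exact (mul_eq_zero.mp ((mul_eq_zero.mp h).resolve_left c1)).resolve_left c2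
  have d31 : dot z v1 = 0 := by
    have h := hb.d13
    rw [dot_comm', hx, dot_smul_right] at h
    exact (mul_eq_zero.mp h).resolve_left c1
  have d32 : dot z v2 = 0 := by
    have h := hb.d23
    rw [dot_comm', hy, dot_smul_right] at h
    exact (mul_eq_zero.mp h).resolve_left c2
  have hob : OB z v1 v2 := ⟨hb.r3, v10, v20, d31, d32, d12, hb.n3, v1n, v2n⟩
  obtain ⟨g, hg0, hg, hctg, hnq⟩ := mul_eq_smul hob hv3 hz
  have hg21 : ct (v2 * v1) = g.natAbs := by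
    rw [← hctg, anticomm v10 v20 d12, ct_neg]
  -- the two divisibilities
  have hdiv1 : ct z ∣ al z x * (ct x * g.natAbs) := by
    obtain ⟨g', hg'0, hg', -, -⟩ := mul_eq_smul (D := y) (x := z) (y := x)
      ⟨hb.r2, hb.r3, hb.r1, hb.d23, by rw [dot_comm']; exact hb.d12,
        by rw [dot_comm']; exact hb.d13, hb.n2, hb.n3, hb.n1⟩ hv2 hy
    obtain ⟨B, -, hB, -⟩ := al_mul hb.r1 hb.n3 hb.n1 hv2 hg'
    have e : ct (v2 * x) = ct x * g.natAbs := by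
      conv_lhs => rw [hx, mul_smul_comm, ct_smul, hg21, Int.natAbs_natCast]
    rw [e] at hB
    exact ⟨B, by rw [hB, mul_comm]⟩
  have hdiv2 : ct z ∣ al z y * (ct y * g.natAbs) := by
    obtain ⟨g', hg'0, hg', -, -⟩ := mul_eq_smul (D := x) (x := z) (y := y)
      ⟨hb.r1, hb.r3, hb.r2, hb.d13, hb.d12,
        by rw [dot_comm']; exact hb.d23, hb.n1, hb.n3, hb.n2⟩ hv1 hx
    obtain ⟨B, -, hB, -⟩ := al_mul hb.r2 hb.n3 hb.n2 hv1 hg'
    have e : ct (v1 * y) = ct y * g.natAbs := by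
      conv_lhs => rw [hy, mul_smul_comm, ct_smul, hctg, Int.natAbs_natCast]
    rw [e] at hB
    exact ⟨B, by rw [hB, mul_comm]⟩
  obtain ⟨A, hA⟩ : ∃ A, A = al z x * al z y := ⟨_, rfl⟩
  have hAZ : A ≤ Z ^ 2 := by rw [hA, sq]; exact Nat.mul_le_mul h1 h2
  have hA0 : 0 < A := by
    rw [hA]; exact Nat.mul_pos (al_pos hb.n3 hb.n1) (al_pos hb.n3 hb.n2)
  have t1 : ct z ∣ (A * g.natAbs) * ct x := by
    refine hdiv1.trans ⟨al z y, ?_⟩
    rw [hA]; ring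
  have t2 : ct z ∣ (A * g.natAbs) * ct y := by
    refine hdiv2.trans ⟨al z x, ?_⟩
    rw [hA]; ring
  have t3 : ct z ∣ (A * g.natAbs) * ct z := ⟨_, mul_comm _ _⟩
  obtain ⟨c0, hc0⟩ : ∃ c0, c0 = Nat.gcd (Nat.gcd (ct x) (ct y)) (ct z) := ⟨_, rfl⟩
  have t4 : ct z ∣ (A * g.natAbs) * c0 := by
    rw [hc0, ← Nat.gcd_mul_left, ← Nat.gcd_mul_left]
    exact Nat.dvd_gcd (Nat.dvd_gcd t1 t2) t3
  have hc0Z : c0 ≤ Z := by
    refine hns c0 ?_
    rw [← hb.sum]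
    have a1 : c0 ∣ ct x := by
      rw [hc0]; exact (Nat.gcd_dvd_left _ _).trans (Nat.gcd_dvd_left _ _)
    have a2 : c0 ∣ ct y := by
      rw [hc0]; exact (Nat.gcd_dvd_left _ _).trans (Nat.gcd_dvd_right _ _)
    have a3 : c0 ∣ ct z := by rw [hc0]; exact Nat.gcd_dvd_right _ _
    exact ((((pow_dvd_pow_of_dvd a1 2).trans (ct_sq_dvd x hb.n1))).add
      ((pow_dvd_pow_of_dvd a2 2).trans (ct_sq_dvd y hb.n2))).add
      ((pow_dvd_pow_of_dvd a3 2).trans (ct_sq_dvd z hb.n3))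
  have hc0p : 0 < c0 := by
    rw [hc0]; exact Nat.gcd_pos_of_pos_right _ (ct_pos hb.n3)
  have hgp : 0 < g.natAbs := Int.natAbs_pos.mpr hg0
  have t5 : ct z ≤ Z ^ 3 * g.natAbs := by
    have h := Nat.le_of_dvd (by positivity) t4
    calc ct z ≤ (A * g.natAbs) * c0 := h
      _ ≤ (Z ^ 2 * g.natAbs) * Z := Nat.mul_le_mul (Nat.mul_le_mul_right _ hAZ) hc0Z
      _ = Z ^ 3 * g.natAbs := by ring
  have ez : nq z = ct z ^ 2 * nq v3 := by
    conv_lhs => rw [hz, nq_smul, Int.natAbs_natCast]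
  have ex : nq x = ct x ^ 2 * nq v1 := by
    conv_lhs => rw [hx, nq_smul, Int.natAbs_natCast]
  have ey : nq y = ct y ^ 2 * nq v2 := by
    conv_lhs => rw [hy, nq_smul, Int.natAbs_natCast]
  have t6 : nq z ≤ Z ^ 6 * (nq v1 * nq v2) := by
    rw [ez, hnq]
    calc ct z ^ 2 * nq v3 ≤ (Z ^ 3 * g.natAbs) ^ 2 * nq v3 :=
          Nat.mul_le_mul_right _ (Nat.pow_le_pow_left t5 2)
      _ = Z ^ 6 * (nq v3 * g.natAbs ^ 2) := by ring
  have hzp : 0 < nq z := nq_pos hb.n3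
  have t7 : nq z * (ct x * ct y) ^ 2 ≤ nq z * (4 * Z ^ 7 * n) := by
    calc nq z * (ct x * ct y) ^ 2 ≤ Z ^ 6 * (nq v1 * nq v2) * (ct x * ct y) ^ 2 :=
          Nat.mul_le_mul_right _ t6
      _ = Z ^ 6 * nq x * nq y := by rw [ex, ey]; ring
      _ ≤ Z ^ 6 * (Z * nq z) * (4 * n) := by
          refine Nat.mul_le_mul (Nat.mul_le_mul_left _ hxz) ?_
          have := hb.sum; omega
      _ = nq z * (4 * Z ^ 7 * n) := by ring
  exact Nat.le_of_mul_le_mul_left t7 hzp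

theorem ctmul : S_ctmul := by
  intro n Z u1 u2 u3 hn hb hg hns
  obtain ⟨g12, g13, g23⟩ := hg
  exact step hb.swap23 g12.2.2.1 g12.2.1 g23.1 hns

end Pool.Agent.TorusAA
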