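import Pool.Agent.TorusAA.Stmts
import Pool.Agent.TorusAA.Api

/-! The energy bound: Motzkin-Straus on every circle. -/

namespace Pool.Agent.TorusAA

open Quaternion Pool.Agent.TorusL4
open scoped Classical

/-- Triple sums. -/
private noncomputable def S3 (S : Finset ℍ[ℤ]) (f : ℍ[ℤ] → ℍ[ℤ] → ℍ[ℤ] → ℝ) : ℝ :=
  ∑ x ∈ S, ∑ y ∈ S, ∑ z ∈ S, f x y z

private theorem S3_mono {S : Finset ℍ[ℤ]} {f g : ℍ[ℤ] → ℍ[ℤ] → ℍ[ℤ] → ℝ}
    (h : ∀ x ∈ S, ∀ y ∈ S, ∀ z ∈ S, f x y z ≤ g x y z) : S3 S f ≤ S3 S g :=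
  Finset.sum_le_sum fun x hx => Finset.sum_le_sum fun y hy => Finset.sum_le_sum fun z hz =>
    h x hx y hy z hz

private theorem S3_add (S : Finset ℍ[ℤ]) (f g : ℍ[ℤ] → ℍ[ℤ] → ℍ[ℤ] → ℝ) :
    S3 S (fun x y z => f x y z + g x y z) = S3 S f + S3 S g := by
  unfold S3
  simp only [Finset.sum_add_distrib]

private theorem S3_swap13 (S : Finset ℍ[ℤ]) (f : ℍ[ℤ] → ℍ[ℤ] → ℍ[ℤ] → ℝ) :
    S3 S (fun x y z => f z y x) = S3 S f := by
  unfold S3
  calc ∑ x ∈ S, ∑ y ∈ S, ∑ z ∈ S, f z y x = ∑ y ∈ S, ∑ x ∈ S, ∑ z ∈ S, f z y x :=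
        Finset.sum_comm
    _ = ∑ y ∈ S, ∑ z ∈ S, ∑ x ∈ S, f z y x :=
        Finset.sum_congr rfl fun y _ => Finset.sum_comm
    _ = ∑ z ∈ S, ∑ y ∈ S, ∑ x ∈ S, f z y x := Finset.sum_comm

/-- The full weight. -/
private noncomputable def WW (a : ℍ[ℤ] → ℝ) (x y z : ℍ[ℤ]) : ℝ := a x * a y * a z * a (x + y + z)

/-- Regrouping by the sum of the first two points. -/
private theorem regroup (S : Finset ℍ[ℤ]) (f : ℍ[ℤ] → ℍ[ℤ] → ℍ[ℤ] → ℝ)
    (h0 : ∀ x y z, y ∉ S → f x y z = 0) :
    S3 S f = ∑ D ∈ (S ×ˢ S).image (fun p => p.1 + p.2), ∑ x ∈ S, ∑ z ∈ S, f x (D - x) z := by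
  rw [Finset.sum_comm]
  unfold S3
  refine Finset.sum_congr rfl fun x hx => ?_
  rw [← sum_shift ((S ×ˢ S).image (fun p => p.1 + p.2)) S x (fun y => ∑ z ∈ S, f x y z)]
  · intro w hw
    exact Finset.sum_eq_zero fun z _ => h0 x w z hw
  · intro w hw
    left
    exact Finset.mem_image.mpr ⟨(w, x), Finset.mem_product.mpr ⟨hw, hx⟩, rfl⟩

private theorem neg_sum (S : Finset ℍ[ℤ]) (a : ℍ[ℤ] → ℝ) (haS : ∀ x, x ∉ S → a x = 0)
    (hneg : ∀ x, a (-x) = a x) (g : ℍ[ℤ] → ℝ) (hg : ∀ z, a z = 0 → g z = 0) :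
    ∑ z ∈ S, g z = ∑ z ∈ S, g (-z) := by
  have hmem : ∀ z, g z ≠ 0 → -z ∈ S := by
    intro z hz
    by_contra h
    exact hz (hg z (by rw [← hneg]; exact haS _ h))
  refine Finset.sum_bij_ne_zero (fun z _ _ => -z) ?_ ?_ ?_ ?_
  · intro z _ h
    exact hmem z h
  · intro z _ _ w _ _ h
    exact neg_injective h
  · intro w hw h
    refine ⟨-w, ?_, h, by simp⟩
    by_contra h'
    exact h (hg _ (haS _ h'))
  · intro z _ _
    simp

/-- One circle. -/
private theorem one_circle (hms : S_ms) (S : Finset ℍ[ℤ]) (n : ℕ) (a : ℍ[ℤ] → ℝ) (M : ℕ)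
    (hS0 : ∀ x ∈ S, x.re = 0) (hSn : ∀ x ∈ S, normSq x = (n : ℤ)) (ha : ∀ x, 0 ≤ a x)
    (haS : ∀ x, x ∉ S → a x = 0) (hneg : ∀ x, a (-x) = a x) (D : ℍ[ℤ]) (hD : D ≠ 0)
    (hclq : ¬ Clq n M D) :
    ∑ x ∈ S, ∑ z ∈ S, (if Gd M D (x + z) (D - x + z) then XX a x (D - x) z else 0) ≤
      3 / 4 * ∑ x ∈ S, ∑ z ∈ S, WW a x (D - x) z := by
  obtain ⟨b, hb⟩ : ∃ b : ℍ[ℤ] → ℝ, b = fun x => a x * a (D - x) := ⟨_, rfl⟩
  obtain ⟨r, hr⟩ : ∃ r : ℍ[ℤ] → ℍ[ℤ] → Prop, r = fun x y =>
    x - y ≠ 0 ∧ x + y - D ≠ 0 ∧ Gd M D (x - y) (x + y - D) := ⟨_, rfl⟩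
  have hW : ∀ x z, WW a x (D - x) (-z) = b x * b z := by
    intro x z
    unfold WW
    rw [hb]
    have e : x + (D - x) + -z = D - z := by abel
    rw [e, hneg]
    ring
  have hX : ∀ x z, (if Gd M D (x + -z) (D - x + -z) then XX a x (D - x) (-z) else 0) =
      if r x z then b x * b z else 0 := by
    intro x z
    have e1 : x + -z = x - z := by abel
    have e2 : D - x + -z = -(x + z - D) := by abel
    have e3 : x + (D - x) = D := by abel
    have hG : Gd M D (x - z) (-(x + z - D)) ↔ Gd M D (x - z) (x + z - D) := by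
      unfold Gd
      rw [G2_neg_right, G2_neg_right]
    rw [e1, e2]
    rw [hr]
    simp only [hG]
    by_cases c1 : x - z = 0
    · rw [if_neg (show ¬ (x - z ≠ 0 ∧ x + z - D ≠ 0 ∧ Gd M D (x - z) (x + z - D)) from
        fun h => h.1 c1)]
      have : XX a x (D - x) (-z) = 0 := by
        unfold XX
        rw [if_pos]
        right; left
        rw [e1]; exact c1
      rw [this, ite_self]
    · by_cases c2 : x + z - D = 0
      · rw [if_neg (show ¬ (x - z ≠ 0 ∧ x + z - D ≠ 0 ∧ Gd M D (x - z) (x + z - D)) from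
          fun h => h.2.1 c2)]
        have : XX a x (D - x) (-z) = 0 := by
          unfold XX
          rw [if_pos]
          left
          rw [e2, c2, neg_zero]
        rw [this, ite_self]
      · by_cases c3 : Gd M D (x - z) (x + z - D)
        · rw [if_pos c3, if_pos (show x - z ≠ 0 ∧ x + z - D ≠ 0 ∧ Gd M D (x - z) (x + z - D) from
            ⟨c1, c2, c3⟩), ← hW]
          unfold XX
          rw [if_neg]
          · rfl
          · rw [e1, e2, e3]
            rintro (h | h | h)
            · exact c2 (neg_eq_zero.mp h)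
            · exact c1 h
            · exact hD h
        · rw [if_neg c3, if_neg (show ¬ (x - z ≠ 0 ∧ x + z - D ≠ 0 ∧
            Gd M D (x - z) (x + z - D)) from fun h => c3 h.2.2)]
  have hb0 : ∀ x, 0 ≤ b x := fun x => by rw [hb]; exact mul_nonneg (ha _) (ha _)
  -- the sums over the circle
  obtain ⟨s, hs⟩ : ∃ s : Finset ℍ[ℤ], s = S.filter (fun x => D - x ∈ S) := ⟨_, rfl⟩
  have hbs : ∀ x ∈ S, x ∉ s → b x = 0 := by
    intro x hx hxs
    rw [hb]
    have : D - x ∉ S := fun h => hxs (by rw [hs]; exact Finset.mem_filter.mpr ⟨hx, h⟩)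
    show a x * a (D - x) = 0
    rw [haS _ this, mul_zero]
  have hsS : s ⊆ S := by rw [hs]; exact Finset.filter_subset _ _
  have key := hms ℍ[ℤ] s r b (fun i _ => hb0 i) (by
    intro x y h
    rw [hr] at h ⊢
    obtain ⟨h1, h2, h3⟩ := h
    have e1 : y - x = -(x - y) := by abel
    have e2 : y + x - D = x + y - D := by abel
    refine ⟨?_, ?_, ?_⟩
    · rw [e1]; exact neg_ne_zero.mpr h1
    · rw [e2]; exact h2
    · rw [e1, e2]
      unfold Gd at h3 ⊢
      rw [G2_neg_right, G2_neg_left]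
      exact h3) (by
    rintro ⟨x, hx1, hx2⟩
    apply hclq
    refine ⟨x, ?_, ?_⟩
    · intro i
      have h1 := hx1 i
      rw [hs, Finset.mem_filter] at h1
      refine ⟨hS0 _ h1.1, ?_, ?_⟩
      · have := hSn _ h1.1
        rw [← nq_cast] at this
        exact_mod_cast this
      · have := hSn _ h1.2
        rw [← nq_cast] at this
        exact_mod_cast this
    · intro i j hij
      have := hx2 i j hij
      rw [hr] at this
      exact this)
  have ext : ∑ i ∈ s, b i = ∑ i ∈ S, b i :=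
    Finset.sum_subset hsS fun x hx hxs => hbs x hx hxs
  have ext2 : ∑ i ∈ s, ∑ j ∈ s, (if r i j then b i * b j else 0) =
      ∑ i ∈ S, ∑ j ∈ S, (if r i j then b i * b j else 0) := by
    have h1 : ∀ i, ∑ j ∈ s, (if r i j then b i * b j else 0) =
        ∑ j ∈ S, (if r i j then b i * b j else 0) := by
      intro i
      refine Finset.sum_subset hsS fun x hx hxs => ?_
      rw [hbs x hx hxs, mul_zero, ite_self]
    rw [Finset.sum_congr rfl (fun i _ => h1 i)]
    refine Finset.sum_subset hsS fun x hx hxs => Finset.sum_eq_zero fun j _ => ?_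
    rw [hbs x hx hxs, zero_mul, ite_self]
  rw [ext, ext2] at key
  have l1 : ∑ x ∈ S, ∑ z ∈ S, (if Gd M D (x + z) (D - x + z) then XX a x (D - x) z else 0) =
      ∑ i ∈ S, ∑ j ∈ S, (if r i j then b i * b j else 0) := by
    refine Finset.sum_congr rfl fun x _ => ?_
    rw [neg_sum S a haS hneg]
    · exact Finset.sum_congr rfl fun z _ => hX x z
    · intro z hz
      have : XX a x (D - x) z = 0 := by
        unfold XX
        rw [hz]
        split_ifs
        · rfl
        · ring
      rw [this, ite_self]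
  have l2 : ∑ x ∈ S, ∑ z ∈ S, WW a x (D - x) z = (∑ i ∈ S, b i) ^ 2 := by
    rw [pow_two, Finset.sum_mul_sum]
    refine Finset.sum_congr rfl fun x _ => ?_
    rw [neg_sum S a haS hneg]
    · exact Finset.sum_congr rfl fun z _ => hW x z
    · intro z hz
      unfold WW
      rw [hz]
      ring
  rw [l1, l2]
  exact key

theorem energy (hms : S_ms) : S_energy := by
  intro S n a M G Adm hn hS0 hSn ha haS hneg hG hgain hadm hclq
  have hXnn : ∀ x y z, 0 ≤ XX a x y z := XX_nonneg ha
  have hWnn : ∀ x y z, 0 ≤ WW a x y z := fun x y z =>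
    mul_nonneg (mul_nonneg (mul_nonneg (ha _) (ha _)) (ha _)) (ha _)
  have hXW : ∀ x y z, XX a x y z ≤ WW a x y z := by
    intro x y z
    unfold XX
    split_ifs
    · exact hWnn x y z
    · exact le_rfl
  obtain ⟨A, hA⟩ : ∃ A : ℝ, A = (∑ x ∈ S, a x ^ 2) ^ 2 := ⟨_, rfl⟩
  -- the parts
  obtain ⟨gd, hgd⟩ : ∃ gd : ℍ[ℤ] → ℍ[ℤ] → ℍ[ℤ] → Prop,
    gd = fun x y z => Gd M (x + y) (x + z) (y + z) := ⟨_, rfl⟩
  obtain ⟨Bd, hBd⟩ : ∃ Bd, Bd = S3 S (fun x y z => if gd x y z then 0 else XX a x y z) :=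
    ⟨_, rfl⟩
  obtain ⟨Ta, hTa⟩ : ∃ Ta, Ta = S3 S (fun x y z => if gd x y z ∧ Adm (x + y) then XX a x y z
    else 0) := ⟨_, rfl⟩
  obtain ⟨Tn, hTn⟩ : ∃ Tn, Tn = S3 S (fun x y z => if gd x y z ∧ ¬ Adm (x + y) then XX a x y z
    else 0) := ⟨_, rfl⟩
  obtain ⟨Ea, hEa⟩ : ∃ Ea, Ea = S3 S (fun x y z => if x + y ≠ 0 ∧ Adm (x + y) then WW a x y z
    else 0) := ⟨_, rfl⟩
  have hgd_symm : ∀ x y z, gd x y z → gd z y x := by
    intro x y z h
    rw [hgd] at h ⊢
    dsimp only at h ⊢
    rw [add_comm z y, add_comm z x, add_comm y x]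
    exact h.swap12.swap23.swap12
  have hsplit : S3 S (XX a) = Bd + Ta + Tn := by
    rw [hBd, hTa, hTn, ← S3_add, ← S3_add]
    congr 1
    funext x y z
    by_cases c1 : gd x y z
    · by_cases c2 : Adm (x + y)
      · rw [if_pos c1, if_pos ⟨c1, c2⟩, if_neg (fun h => h.2 c2)]; ring
      · rw [if_pos c1, if_neg (fun h => c2 h.2), if_pos ⟨c1, c2⟩]; ring
    · rw [if_neg c1, if_neg (fun h => c1 h.1), if_neg (fun h => c1 h.1)]; ring
  have hEE : EE S a ≤ 3 * A + S3 S (XX a) := by rw [hA]; exact EE_le S a ha hneg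
  -- the bad part
  have hn' : (0 : ℤ) < (n : ℤ) := by exact_mod_cast hn
  have hB : Bd ≤ 12 * Real.log (4 * n) / G * A := by
    have h1 := upper_sym S n hn' a hS0 hSn haS hneg
    have h2 : G * Bd ≤ S3 S (fun x y z => XX a x y z * gain x y z) := by
      rw [hBd]
      unfold S3
      rw [Finset.mul_sum]
      refine Finset.sum_le_sum fun x _ => ?_
      rw [Finset.mul_sum]
      refine Finset.sum_le_sum fun y _ => ?_
      rw [Finset.mul_sum]
      refine Finset.sum_le_sum fun z _ => ?_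
      show G * (if gd x y z then 0 else XX a x y z) ≤ XX a x y z * gain x y z
      by_cases hX : XX a x y z = 0
      · rw [hX, ite_self]; simp
      · obtain ⟨g1, g2⟩ := hgain x y z hX
        by_cases c1 : gd x y z
        · rw [if_pos c1, mul_zero]
          exact mul_nonneg (hXnn _ _ _) g1
        · rw [if_neg c1, mul_comm]
          refine mul_le_mul_of_nonneg_left (g2.resolve_left ?_) (hXnn _ _ _)
          rw [hgd] at c1
          exact c1
    have h3 : S3 S (fun x y z => XX a x y z * gain x y z) ≤ 12 * Real.log (4 * n) * A := by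
      rw [hA]
      have := h1
      push_cast at this
      exact this
    rw [div_mul_eq_mul_div, le_div_iff₀ hG]
    linarith
  -- the part which is not admissible
  have hT : Tn ≤ Ta := by
    have h1 : Tn ≤ S3 S (fun x y z => if gd z y x ∧ Adm (z + y) then XX a z y x else 0) := by
      rw [hTn]
      refine S3_mono fun x hx y hy z hz => ?_
      by_cases c : gd x y z ∧ ¬ Adm (x + y)
      · rw [if_pos c, XX_swap13 a x y z]
        by_cases hX : XX a x y z = 0
        · rw [hX, ite_self]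
        · obtain ⟨c1, c2, c3, ax, ay, az, aP⟩ := XX_ne_zero hX
          have hPS : x + y + z ∈ S := by
            by_contra h; exact aP (haS _ h)
          have hq : ∀ w ∈ S, nq w = n := by
            intro w hw
            have := hSn w hw
            rw [← nq_cast] at this
            exact_mod_cast this
          have hbox := box_of_points (hS0 x hx) (hS0 y hy) (hS0 z hz) (hq x hx) (hq y hy)
            (hq z hz) (hq _ hPS) c1 c2 c3
          have hgd' : Gd M (y + z) (x + z) (x + y) := by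
            have h := c.1
            rw [hgd] at h
            exact h.swap12.swap23.swap12
          have := hadm _ _ _ hbox hgd' c.2
          rw [if_pos ⟨hgd_symm _ _ _ c.1, by rw [add_comm z y]; exact this⟩]
      · rw [if_neg c]
        split_ifs
        · exact hXnn _ _ _
        · exact le_rfl
    rw [S3_swap13 S (fun x y z => if gd x y z ∧ Adm (x + y) then XX a x y z else 0)] at h1
    rw [hTa]
    exact h1
  -- Motzkin-Straus
  have hMS : Ta ≤ 3 / 4 * Ea := by
    rw [hTa, hEa, regroup, regroup, Finset.mul_sum]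
    · refine Finset.sum_le_sum fun D hD => ?_
      have e1 : ∀ x : ℍ[ℤ], x + (D - x) = D := fun x => by abel
      by_cases hA' : D ≠ 0 ∧ Adm D
      · have hD0 : D.re = 0 := by
          obtain ⟨p, hp, hpD⟩ := Finset.mem_image.mp hD
          have hp' := Finset.mem_product.mp hp
          rw [← hpD, re_add, hS0 _ hp'.1, hS0 _ hp'.2]; rfl
        have h1 := one_circle hms S n a M hS0 hSn ha haS hneg D hA'.1
          (hclq D hD0 hA'.1 hA'.2)
        have e2 : ∑ x ∈ S, ∑ z ∈ S, (if gd x (D - x) z ∧ Adm (x + (D - x)) then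
            XX a x (D - x) z else 0) = ∑ x ∈ S, ∑ z ∈ S,
            (if Gd M D (x + z) (D - x + z) then XX a x (D - x) z else 0) := by
          refine Finset.sum_congr rfl fun x _ => Finset.sum_congr rfl fun z _ => ?_
          rw [hgd]
          simp only [e1, hA'.2, and_true]
        have e3 : ∑ x ∈ S, ∑ z ∈ S, (if x + (D - x) ≠ 0 ∧ Adm (x + (D - x)) then
            WW a x (D - x) z else 0) = ∑ x ∈ S, ∑ z ∈ S, WW a x (D - x) z := by
          refine Finset.sum_congr rfl fun x _ => Finset.sum_congr rfl fun z _ => ?_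
          rw [e1, if_pos hA']
        rw [e2, e3]
        exact h1
      · have e2 : ∑ x ∈ S, ∑ z ∈ S, (if gd x (D - x) z ∧ Adm (x + (D - x)) then
            XX a x (D - x) z else 0) = 0 := by
          refine Finset.sum_eq_zero fun x _ => Finset.sum_eq_zero fun z _ => ?_
          rw [e1]
          by_cases hD0 : D = 0
          · have : XX a x (D - x) z = 0 := by
              unfold XX
              rw [if_pos]
              right; right
              rw [e1]; exact hD0
            rw [this, ite_self]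
          · rw [if_neg]
            rintro ⟨_, h⟩
            exact hA' ⟨hD0, h⟩
        rw [e2]
        refine mul_nonneg (by norm_num) (Finset.sum_nonneg fun x _ =>
          Finset.sum_nonneg fun z _ => ?_)
        split_ifs
        · exact hWnn _ _ _
        · exact le_rfl
    · intro x y z hy
      have : WW a x y z = 0 := by
        unfold WW; rw [haS y hy]; ring
      rw [this, ite_self]
    · intro x y z hy
      have : XX a x y z = 0 := by
        unfold XX; rw [haS y hy]
        split_ifs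
        · rfl
        · ring
      rw [this, ite_self]
  -- the admissible energy
  have hEa' : Ea ≤ 3 * A + Bd + Ta := by
    have h1 : Ea ≤ S3 S (fun x y z => (WW a x y z - XX a x y z) +
        ((if gd x y z then 0 else XX a x y z) +
          (if gd x y z ∧ Adm (x + y) then XX a x y z else 0))) := by
      rw [hEa]
      refine S3_mono fun x _ y _ z _ => ?_
      have p1 := hXW x y z
      have p2 := hXnn x y z
      by_cases c0 : x + y ≠ 0 ∧ Adm (x + y)
      · rw [if_pos c0]
        by_cases c1 : gd x y z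
        · rw [if_pos c1, if_pos ⟨c1, c0.2⟩]
          linarith
        · rw [if_neg c1, if_neg (fun h => c1 h.1)]
          linarith
      · rw [if_neg c0]
        have q1 : 0 ≤ (if gd x y z then 0 else XX a x y z) := by
          split_ifs
          · exact le_rfl
          · exact p2
        have q2 : 0 ≤ (if gd x y z ∧ Adm (x + y) then XX a x y z else 0) := by
          split_ifs
          · exact p2
          · exact le_rfl
        linarith
    rw [S3_add, S3_add, ← hBd, ← hTa] at h1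
    have h2 : S3 S (fun x y z => WW a x y z - XX a x y z) = EE S a - S3 S (XX a) := by
      unfold S3 EE
      simp only [Finset.sum_sub_distrib]
      rfl
    rw [h2] at h1
    linarith
  rw [← hA]
  have hA0 : 0 ≤ A := by rw [hA]; positivity
  have hfin : EE S a ≤ 7 * (3 * A + Bd) := by
    linarith
  calc EE S a ≤ 7 * (3 * A + Bd) := hfin
    _ ≤ 7 * (3 * A + 12 * Real.log (4 * n) / G * A) := by linarith
    _ = 7 * (3 + 12 * Real.log (4 * n) / G) * A := by ring

end Pool.Agent.TorusAA
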