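import Pool.Agent.TorusAA.Stmts
import Pool.Agent.Poonen40.Psi

/-! AA13: the exceptional set is small. -/

set_option autoImplicit false

namespace Pool.Agent.TorusAA

open Quaternion Pool.Agent.TorusL4 Finset
open scoped Classical

private theorem exc_natcard (X : ℕ) (P : ℕ → Prop) :
    Nat.card {n : ℕ | 1 ≤ n ∧ n ≤ X ∧ P n} = ((Icc 1 X).filter P).card := by
  have h : {n : ℕ | 1 ≤ n ∧ n ≤ X ∧ P n} = (((Icc 1 X).filter P : Finset ℕ) : Set ℕ) := by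
    ext n
    simp only [Set.mem_ofPred_eq, coe_filter, mem_Icc, and_assoc]
  rw [h]
  exact Nat.card_eq_card_toFinset _ |>.trans (by simp)

/-- the sum of `c^(-5/6)` -/
private theorem exc_sum (n : ℕ) :
    ∑ c ∈ Icc 1 n, (c : ℝ) ^ (-5 / 6 : ℝ) ≤ 6 * (n : ℝ) ^ (1 / 6 : ℝ) := by
  induction n with
  | zero => simp
  | succ n ih =>
    rw [sum_Icc_succ_top (by omega)]
    set s : ℝ := (n : ℝ) ^ (1 / 6 : ℝ) with hs
    set t : ℝ := ((n + 1 : ℕ) : ℝ) ^ (1 / 6 : ℝ) with ht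
    have hn1 : (0 : ℝ) < ((n + 1 : ℕ) : ℝ) := by positivity
    have hs0 : 0 ≤ s := by positivity
    have ht0 : 0 < t := by positivity
    have hs6 : s ^ 6 = n := by
      rw [hs, ← Real.rpow_natCast, ← Real.rpow_mul (by positivity)]
      norm_num
    have ht6 : t ^ 6 = n + 1 := by
      rw [ht, ← Real.rpow_natCast, ← Real.rpow_mul (by positivity)]
      norm_num
    have hst : s ≤ t := Real.rpow_le_rpow (by positivity) (by push_cast; linarith) (by norm_num)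
    have h5 : ((n + 1 : ℕ) : ℝ) ^ (-5 / 6 : ℝ) * t ^ 5 = 1 := by
      rw [ht, ← Real.rpow_natCast, ← Real.rpow_mul hn1.le, ← Real.rpow_add hn1]
      norm_num
    have h6 : 1 ≤ 6 * (t - s) * t ^ 5 := by
      have e1 : (t - s) * (t ^ 5 + t ^ 4 * s + t ^ 3 * s ^ 2 + t ^ 2 * s ^ 3 + t * s ^ 4 + s ^ 5) = 1 := by
        have : (t - s) * (t ^ 5 + t ^ 4 * s + t ^ 3 * s ^ 2 + t ^ 2 * s ^ 3 + t * s ^ 4 + s ^ 5) =
            t ^ 6 - s ^ 6 := by ring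
        rw [this, hs6, ht6]
        ring
      have e2 : t ^ 4 * s ≤ t ^ 5 := by
        calc t ^ 4 * s ≤ t ^ 4 * t := by gcongr
          _ = t ^ 5 := by ring
      have e3 : t ^ 3 * s ^ 2 ≤ t ^ 5 := by
        calc t ^ 3 * s ^ 2 ≤ t ^ 3 * t ^ 2 := by gcongr
          _ = t ^ 5 := by ring
      have e4 : t ^ 2 * s ^ 3 ≤ t ^ 5 := by
        calc t ^ 2 * s ^ 3 ≤ t ^ 2 * t ^ 3 := by gcongr
          _ = t ^ 5 := by ring
      have e5 : t * s ^ 4 ≤ t ^ 5 := by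
        calc t * s ^ 4 ≤ t * t ^ 4 := by gcongr
          _ = t ^ 5 := by ring
      have e6 : s ^ 5 ≤ t ^ 5 := by gcongr
      have e7 : t ^ 5 + t ^ 4 * s + t ^ 3 * s ^ 2 + t ^ 2 * s ^ 3 + t * s ^ 4 + s ^ 5 ≤ 6 * t ^ 5 := by
        linarith
      calc (1 : ℝ) = (t - s) * (t ^ 5 + t ^ 4 * s + t ^ 3 * s ^ 2 + t ^ 2 * s ^ 3 + t * s ^ 4 + s ^ 5) :=
            e1.symm
        _ ≤ (t - s) * (6 * t ^ 5) := mul_le_mul_of_nonneg_left e7 (by linarith)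
        _ = 6 * (t - s) * t ^ 5 := by ring
    have h7 : ((n + 1 : ℕ) : ℝ) ^ (-5 / 6 : ℝ) ≤ 6 * (t - s) := by
      have ht5 : 0 < t ^ 5 := by positivity
      have : ((n + 1 : ℕ) : ℝ) ^ (-5 / 6 : ℝ) * t ^ 5 ≤ 6 * (t - s) * t ^ 5 := by rw [h5]; exact h6
      exact le_of_mul_le_mul_right this ht5
    linarith

private theorem exc_small (X Z : ℕ) (hZ : 1 ≤ Z) :
    (((Icc 1 X).filter fun n => Z * n < X).card : ℝ) ≤ (X : ℝ) / Z := by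
  have h1 : ((Icc 1 X).filter fun n => Z * n < X).card ≤ X / Z := by
    calc ((Icc 1 X).filter fun n => Z * n < X).card ≤ (Icc 1 (X / Z)).card := by
          refine card_le_card ?_
          intro n hn
          rw [mem_filter, mem_Icc] at hn
          rw [mem_Icc]
          refine ⟨hn.1.1, ?_⟩
          rw [Nat.le_div_iff_mul_le (by omega), mul_comm]
          exact hn.2.le
      _ = X / Z := by simp
  calc (((Icc 1 X).filter fun n => Z * n < X).card : ℝ) ≤ ((X / Z : ℕ) : ℝ) := by exact_mod_cast h1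
    _ ≤ (X : ℝ) / Z := Nat.cast_div_le

private theorem exc_sq (X m : ℕ) (hm : 1 ≤ m) :
    (((Icc 1 X).filter fun n => m ^ 2 ∣ 4 * n).card : ℝ) ≤ 4 * X * ((m : ℝ) ^ 2)⁻¹ := by
  have h1 : ((Icc 1 X).filter fun n => m ^ 2 ∣ 4 * n).card ≤ 4 * X / m ^ 2 := by
    calc ((Icc 1 X).filter fun n => m ^ 2 ∣ 4 * n).card ≤ (Icc 1 (4 * X / m ^ 2)).card := by
          refine card_le_card_of_injOn (fun n => 4 * n / m ^ 2) ?_ ?_
          · intro n hn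
            have hn' := mem_filter.1 hn
            rw [mem_Icc] at hn'
            have hle : m ^ 2 ≤ 4 * n := Nat.le_of_dvd (by omega) hn'.2
            rw [mem_coe, mem_Icc]
            exact ⟨Nat.div_pos hle (by positivity), Nat.div_le_div_right (by omega)⟩
          · intro n hn n' hn' h
            have h1 := (mem_filter.1 hn).2
            have h2 := (mem_filter.1 hn').2
            have h3 : 4 * n / m ^ 2 = 4 * n' / m ^ 2 := h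
            have h4 : 4 * n = 4 * n' := by
              rw [← Nat.div_mul_cancel h1, ← Nat.div_mul_cancel h2, h3]
            omega
      _ = 4 * X / m ^ 2 := by simp
  calc (((Icc 1 X).filter fun n => m ^ 2 ∣ 4 * n).card : ℝ) ≤ ((4 * X / m ^ 2 : ℕ) : ℝ) := by
        exact_mod_cast h1
    _ ≤ ((4 * X : ℕ) : ℝ) / ((m ^ 2 : ℕ) : ℝ) := Nat.cast_div_le
    _ = 4 * X * ((m : ℝ) ^ 2)⁻¹ := by push_cast; rw [div_eq_mul_inv]

/-- numbers with a large square divisor of `4 n` -/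
private theorem exc_sqs (X : ℕ) (M0 : ℝ) (hM0 : 0 < M0) :
    (((Icc 1 X).filter fun n => ∃ m : ℕ, M0 < m ∧ m ^ 2 ∣ 4 * n).card : ℝ) ≤ 8 * X / M0 := by
  set k := ⌊M0⌋₊ with hk
  have hsub : ((Icc 1 X).filter fun n => ∃ m : ℕ, M0 < m ∧ m ^ 2 ∣ 4 * n) ⊆
      (Ioo k (4 * X + 1)).biUnion fun m => (Icc 1 X).filter fun n => m ^ 2 ∣ 4 * n := by
    intro n hn
    rw [mem_filter] at hn
    obtain ⟨h1, m, hm, hmd⟩ := hn
    have h1' := mem_Icc.1 h1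
    rw [mem_biUnion]
    refine ⟨m, ?_, mem_filter.2 ⟨h1, hmd⟩⟩
    rw [mem_Ioo]
    constructor
    · exact Nat.floor_lt hM0.le |>.2 hm
    · have h2 : m ^ 2 ≤ 4 * n := Nat.le_of_dvd (by omega) hmd
      nlinarith [h1'.2]
  have h1 : (((Icc 1 X).filter fun n => ∃ m : ℕ, M0 < m ∧ m ^ 2 ∣ 4 * n).card : ℝ) ≤
      ∑ m ∈ Ioo k (4 * X + 1), (((Icc 1 X).filter fun n => m ^ 2 ∣ 4 * n).card : ℝ) := by
    exact_mod_cast (card_le_card hsub).trans card_biUnion_le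
  have h2 : ∑ m ∈ Ioo k (4 * X + 1), (((Icc 1 X).filter fun n => m ^ 2 ∣ 4 * n).card : ℝ) ≤
      ∑ m ∈ Ioo k (4 * X + 1), 4 * X * ((m : ℝ) ^ 2)⁻¹ := by
    refine sum_le_sum fun m hm => exc_sq X m ?_
    rw [mem_Ioo] at hm
    omega
  have h3 : ∑ m ∈ Ioo k (4 * X + 1), 4 * (X : ℝ) * ((m : ℝ) ^ 2)⁻¹ ≤ 4 * X * (2 / (k + 1)) := by
    rw [← mul_sum]
    exact mul_le_mul_of_nonneg_left (sum_Ioo_inv_sq_le k (4 * X + 1)) (by positivity)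
  have h4 : (2 : ℝ) / (k + 1) ≤ 2 / M0 :=
    div_le_div_of_nonneg_left (by norm_num) hM0 (Nat.lt_floor_add_one M0).le
  calc (((Icc 1 X).filter fun n => ∃ m : ℕ, M0 < m ∧ m ^ 2 ∣ 4 * n).card : ℝ)
      ≤ 4 * X * (2 / (k + 1)) := h1.trans (h2.trans h3)
    _ ≤ 4 * X * (2 / M0) := mul_le_mul_of_nonneg_left h4 (by positivity)
    _ = 8 * X / M0 := by ring

/-- `D = c v` with `D ≠ 0` has positive content -/
private theorem exc_ct (D : ℍ[ℤ]) (hD : D ≠ 0) : 1 ≤ ct D := by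
  exact ct_pos hD

/-- the third set -/
private theorem exc_third (h1 : S_cfg) (h2 : S_count) (X Z T : ℕ) (hX : 1 ≤ X) (hZ : 1 ≤ Z)
    (hT : ∀ m : ℕ, 1 ≤ m → m ≤ 4 * X → m.divisors.card ≤ T) :
    (((Icc 1 X).filter fun n => X ≤ Z * n ∧ NS Z n ∧ ∃ D : ℍ[ℤ], D.re = 0 ∧ D ≠ 0 ∧
      ct D ^ 4 ≤ 4 * Z ^ 7 * X ∧ Clq n Z D).card : ℝ) ≤
    20000 * (Z : ℝ) ^ 180 * (T : ℝ) ^ 10 * (X : ℝ) ^ (11 / 12 : ℝ) *
      (6 * ((4 * (Z : ℝ) ^ 7 * X) ^ (1 / 24 : ℝ))) := by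
  set Y : ℝ := 4 * (Z : ℝ) ^ 7 * X with hY
  have hY0 : 0 ≤ Y := by positivity
  set C0 := ⌊Y ^ (1 / 4 : ℝ)⌋₊ with hC0
  let Sc : ℕ → Finset ℕ := fun c => (Icc 1 X).filter fun n => X ≤ Z * n ∧
    ∃ d N : ℕ, 4 * n = c ^ 2 * d + N ∧ Cfg Z c d N
  have hsub : ((Icc 1 X).filter fun n => X ≤ Z * n ∧ NS Z n ∧ ∃ D : ℍ[ℤ], D.re = 0 ∧ D ≠ 0 ∧
      ct D ^ 4 ≤ 4 * Z ^ 7 * X ∧ Clq n Z D) ⊆ (Icc 1 C0).biUnion Sc := by
    intro n hn
    rw [mem_filter] at hn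
    obtain ⟨hn1, hn2, hn3, D, hD1, hD2, hD3, hD4⟩ := hn
    rw [mem_biUnion]
    have hn1' := mem_Icc.1 hn1
    obtain ⟨d, N, h3, h4⟩ := h1 n Z D (by omega) hD1 hD2 hn3 hD4
    refine ⟨ct D, ?_, mem_filter.2 ⟨hn1, hn2, d, N, h3, h4⟩⟩
    rw [mem_Icc]
    refine ⟨exc_ct D hD2, ?_⟩
    apply Nat.le_floor
    have h5 : ((ct D : ℝ)) ^ 4 ≤ Y := by
      rw [hY]
      exact_mod_cast hD3
    have h6 : (ct D : ℝ) = (((ct D : ℝ)) ^ 4) ^ (1 / 4 : ℝ) := by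
      rw [← Real.rpow_natCast, ← Real.rpow_mul (by positivity)]
      norm_num
    rw [h6]
    exact Real.rpow_le_rpow (by positivity) h5 (by norm_num)
  have h3 : (((Icc 1 X).filter fun n => X ≤ Z * n ∧ NS Z n ∧ ∃ D : ℍ[ℤ], D.re = 0 ∧ D ≠ 0 ∧
      ct D ^ 4 ≤ 4 * Z ^ 7 * X ∧ Clq n Z D).card : ℝ) ≤ ∑ c ∈ Icc 1 C0, ((Sc c).card : ℝ) := by
    exact_mod_cast (card_le_card hsub).trans card_biUnion_le
  have h4 : ∀ c ∈ Icc 1 C0, ((Sc c).card : ℝ) ≤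
      20000 * (Z : ℝ) ^ 180 * (T : ℝ) ^ 10 * (X : ℝ) ^ (11 / 12 : ℝ) * (c : ℝ) ^ (-5 / 6 : ℝ) := by
    intro c hc
    have h5 := h2 X Z c T hX hZ (mem_Icc.1 hc).1 hT
    rw [exc_natcard] at h5
    refine le_trans (le_of_eq ?_) h5
    refine congrArg (fun s : Finset ℕ => (s.card : ℝ)) ?_
    ext n
    simp only [Sc, mem_filter]
  have h5 : (C0 : ℝ) ^ (1 / 6 : ℝ) ≤ Y ^ (1 / 24 : ℝ) := by
    calc (C0 : ℝ) ^ (1 / 6 : ℝ) ≤ (Y ^ (1 / 4 : ℝ)) ^ (1 / 6 : ℝ) :=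
          Real.rpow_le_rpow (by positivity) (Nat.floor_le (by positivity)) (by norm_num)
      _ = Y ^ (1 / 24 : ℝ) := by
          rw [← Real.rpow_mul hY0]
          norm_num
  calc (((Icc 1 X).filter fun n => X ≤ Z * n ∧ NS Z n ∧ ∃ D : ℍ[ℤ], D.re = 0 ∧ D ≠ 0 ∧
      ct D ^ 4 ≤ 4 * Z ^ 7 * X ∧ Clq n Z D).card : ℝ) ≤ ∑ c ∈ Icc 1 C0, ((Sc c).card : ℝ) := h3
    _ ≤ ∑ c ∈ Icc 1 C0, 20000 * (Z : ℝ) ^ 180 * (T : ℝ) ^ 10 * (X : ℝ) ^ (11 / 12 : ℝ) *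
        (c : ℝ) ^ (-5 / 6 : ℝ) := sum_le_sum h4
    _ = 20000 * (Z : ℝ) ^ 180 * (T : ℝ) ^ 10 * (X : ℝ) ^ (11 / 12 : ℝ) *
        ∑ c ∈ Icc 1 C0, (c : ℝ) ^ (-5 / 6 : ℝ) := by rw [mul_sum]
    _ ≤ 20000 * (Z : ℝ) ^ 180 * (T : ℝ) ^ 10 * (X : ℝ) ^ (11 / 12 : ℝ) *
        (6 * (C0 : ℝ) ^ (1 / 6 : ℝ)) := mul_le_mul_of_nonneg_left (exc_sum C0) (by positivity)
    _ ≤ 20000 * (Z : ℝ) ^ 180 * (T : ℝ) ^ 10 * (X : ℝ) ^ (11 / 12 : ℝ) *
      (6 * (Y ^ (1 / 24 : ℝ))) := by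
        refine mul_le_mul_of_nonneg_left ?_ (by positivity)
        linarith

/-- the size of the third bound -/
private theorem exc_third_size (K : ℝ) (hK : 0 < K) : ∃ C : ℝ, 0 < C ∧ ∀ (x z t : ℝ), 1 ≤ x →
    0 ≤ z → z ≤ 2 * x ^ (1 / 20000 : ℝ) → 0 ≤ t → t ≤ K * (4 * x) ^ (1 / 2000 : ℝ) →
    20000 * z ^ 180 * t ^ 10 * x ^ (11 / 12 : ℝ) * (6 * ((4 * z ^ 7 * x) ^ (1 / 24 : ℝ))) ≤
      C * x ^ (1 - 1 / 40000 : ℝ) := by
  refine ⟨20000 * 2 ^ 180 * (K * 4 ^ (1 / 2000 : ℝ)) ^ 10 * (6 * 512 ^ (1 / 24 : ℝ)), by positivity, ?_⟩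
  intro x z t hx hz hzx ht htx
  have hx0 : 0 < x := by linarith
  have h1 : z ^ 180 ≤ 2 ^ 180 * x ^ (180 / 20000 : ℝ) := by
    calc z ^ 180 ≤ (2 * x ^ (1 / 20000 : ℝ)) ^ 180 := pow_le_pow_left₀ hz hzx _
      _ = 2 ^ 180 * x ^ (180 / 20000 : ℝ) := by
          rw [mul_pow, ← Real.rpow_natCast (x ^ (1 / 20000 : ℝ)), ← Real.rpow_mul hx0.le]
          norm_num
  have h2 : t ^ 10 ≤ (K * 4 ^ (1 / 2000 : ℝ)) ^ 10 * x ^ (10 / 2000 : ℝ) := by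
    calc t ^ 10 ≤ (K * (4 * x) ^ (1 / 2000 : ℝ)) ^ 10 := pow_le_pow_left₀ ht htx _
      _ = (K * 4 ^ (1 / 2000 : ℝ)) ^ 10 * x ^ (10 / 2000 : ℝ) := by
          rw [Real.mul_rpow (by norm_num) hx0.le, ← mul_assoc, mul_pow _ (x ^ (1 / 2000 : ℝ)),
            ← Real.rpow_natCast (x ^ (1 / 2000 : ℝ)), ← Real.rpow_mul hx0.le]
          norm_num
  have h3 : (4 * z ^ 7 * x) ^ (1 / 24 : ℝ) ≤ 512 ^ (1 / 24 : ℝ) * x ^ ((7 / 20000 + 1) / 24 : ℝ) := by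
    have e1 : 4 * z ^ 7 * x ≤ 512 * x ^ (7 / 20000 + 1 : ℝ) := by
      have e2 : z ^ 7 ≤ 2 ^ 7 * x ^ (7 / 20000 : ℝ) := by
        calc z ^ 7 ≤ (2 * x ^ (1 / 20000 : ℝ)) ^ 7 := pow_le_pow_left₀ hz hzx _
          _ = 2 ^ 7 * x ^ (7 / 20000 : ℝ) := by
              rw [mul_pow, ← Real.rpow_natCast (x ^ (1 / 20000 : ℝ)), ← Real.rpow_mul hx0.le]
              norm_num
      rw [Real.rpow_add hx0, Real.rpow_one]
      calc 4 * z ^ 7 * x ≤ 4 * (2 ^ 7 * x ^ (7 / 20000 : ℝ)) * x := by gcongr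
        _ = 512 * (x ^ (7 / 20000 : ℝ) * x) := by ring
    calc (4 * z ^ 7 * x) ^ (1 / 24 : ℝ) ≤ (512 * x ^ (7 / 20000 + 1 : ℝ)) ^ (1 / 24 : ℝ) :=
          Real.rpow_le_rpow (by positivity) e1 (by norm_num)
      _ = 512 ^ (1 / 24 : ℝ) * x ^ ((7 / 20000 + 1) / 24 : ℝ) := by
          rw [Real.mul_rpow (by norm_num) (by positivity), ← Real.rpow_mul hx0.le]
          norm_num
  have h4 : x ^ (180 / 20000 : ℝ) * x ^ (10 / 2000 : ℝ) * x ^ (11 / 12 : ℝ) *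
      x ^ ((7 / 20000 + 1) / 24 : ℝ) ≤ x ^ (1 - 1 / 40000 : ℝ) := by
    rw [← Real.rpow_add hx0, ← Real.rpow_add hx0, ← Real.rpow_add hx0]
    exact Real.rpow_le_rpow_of_exponent_le hx (by norm_num)
  calc 20000 * z ^ 180 * t ^ 10 * x ^ (11 / 12 : ℝ) * (6 * ((4 * z ^ 7 * x) ^ (1 / 24 : ℝ)))
      ≤ 20000 * (2 ^ 180 * x ^ (180 / 20000 : ℝ)) *
          ((K * 4 ^ (1 / 2000 : ℝ)) ^ 10 * x ^ (10 / 2000 : ℝ)) * x ^ (11 / 12 : ℝ) *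
          (6 * (512 ^ (1 / 24 : ℝ) * x ^ ((7 / 20000 + 1) / 24 : ℝ))) := by gcongr
    _ = 20000 * 2 ^ 180 * (K * 4 ^ (1 / 2000 : ℝ)) ^ 10 * (6 * 512 ^ (1 / 24 : ℝ)) *
        (x ^ (180 / 20000 : ℝ) * x ^ (10 / 2000 : ℝ) * x ^ (11 / 12 : ℝ) *
          x ^ ((7 / 20000 + 1) / 24 : ℝ)) := by ring
    _ ≤ 20000 * 2 ^ 180 * (K * 4 ^ (1 / 2000 : ℝ)) ^ 10 * (6 * 512 ^ (1 / 24 : ℝ)) *
        x ^ (1 - 1 / 40000 : ℝ) := mul_le_mul_of_nonneg_left h4 (by positivity)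

theorem exc (h1 : S_cfg) (h2 : S_count) : S_exc := by
  obtain ⟨K, hK, hKd⟩ := Pool.Agent.Poonen40.card_divisors_le (ε := 1 / 2000) (by norm_num)
  obtain ⟨C3, hC3, hC3'⟩ := exc_third_size K hK
  refine ⟨1 / 20000, 1 / 40000, 1 + 32 + C3, by norm_num, by norm_num, by norm_num, by positivity, ?_⟩
  intro X hX
  rw [exc_natcard]
  set x : ℝ := (X : ℝ) with hx
  have hx1 : 1 ≤ x := by rw [hx]; exact_mod_cast hX
  have hx0 : 0 < x := by linarith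
  set Z := ⌈x ^ (1 / 20000 : ℝ)⌉₊ with hZ
  have hxd1 : 1 ≤ x ^ (1 / 20000 : ℝ) := Real.one_le_rpow hx1 (by norm_num)
  have hZ1 : 1 ≤ Z := Nat.one_le_iff_ne_zero.2 (Nat.ceil_pos.2 (by linarith)).ne'
  have hZlo : x ^ (1 / 20000 : ℝ) ≤ Z := Nat.le_ceil _
  have hZhi : (Z : ℝ) ≤ 2 * x ^ (1 / 20000 : ℝ) := by
    have := (Nat.ceil_lt_add_one (by positivity : 0 ≤ x ^ (1 / 20000 : ℝ))).le
    linarith
  have hZ0 : (0 : ℝ) < Z := by exact_mod_cast hZ1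
  set T := ⌊K * (4 * x) ^ (1 / 2000 : ℝ)⌋₊ with hT
  have hTd : ∀ m : ℕ, 1 ≤ m → m ≤ 4 * X → m.divisors.card ≤ T := by
    intro m hm1 hm2
    apply Nat.le_floor
    refine (hKd m (by omega)).trans ?_
    refine mul_le_mul_of_nonneg_left ?_ hK.le
    refine Real.rpow_le_rpow (by positivity) ?_ (by norm_num)
    rw [hx]
    exact_mod_cast hm2
  have hThi : (T : ℝ) ≤ K * (4 * x) ^ (1 / 2000 : ℝ) := Nat.floor_le (by positivity)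
  set M0 : ℝ := (x / Z) ^ (1 / 20000 : ℝ) with hM0
  have hM0pos : 0 < M0 := by positivity
  -- the ceiling is at most `Z`
  have hceil : ∀ n : ℕ, n ≤ X → ⌈(n : ℝ) ^ (1 / 20000 : ℝ)⌉₊ ≤ Z := by
    intro n hn
    apply Nat.ceil_le_ceil
    refine Real.rpow_le_rpow (by positivity) ?_ (by norm_num)
    rw [hx]
    exact_mod_cast hn
  have hsub : (Icc 1 X).filter (Exc (1 / 20000)) ⊆
      (((Icc 1 X).filter fun n => Z * n < X) ∪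
        ((Icc 1 X).filter fun n => ∃ m : ℕ, M0 < m ∧ m ^ 2 ∣ 4 * n)) ∪
      ((Icc 1 X).filter fun n => X ≤ Z * n ∧ NS Z n ∧ ∃ D : ℍ[ℤ], D.re = 0 ∧ D ≠ 0 ∧
        ct D ^ 4 ≤ 4 * Z ^ 7 * X ∧ Clq n Z D) := by
    intro n hn
    rw [mem_filter] at hn
    obtain ⟨hn1, hn2⟩ := hn
    have hn1' := mem_Icc.1 hn1
    rw [mem_union, mem_union]
    by_cases ha : Z * n < X
    · exact Or.inl (Or.inl (mem_filter.2 ⟨hn1, ha⟩))
    have ha' : X ≤ Z * n := by omega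
    by_cases hb : NS ⌈(n : ℝ) ^ (1 / 20000 : ℝ)⌉₊ n
    · right
      rcases hn2 with h | ⟨D, hD1, hD2, hD3, hD4⟩
      · exact absurd hb h
      · have hc := hceil n hn1'.2
        refine mem_filter.2 ⟨hn1, ha', fun m hm => (hb m hm).trans hc, D, hD1, hD2, ?_, hD4.mono hc⟩
        refine hD3.trans ?_
        exact Nat.mul_le_mul (Nat.mul_le_mul_left _ (Nat.pow_le_pow_left hc _)) hn1'.2
    · left; right
      unfold NS at hb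
      push Not at hb
      obtain ⟨m, hm1, hm2⟩ := hb
      refine mem_filter.2 ⟨hn1, m, ?_, hm1⟩
      have h3 : (n : ℝ) ^ (1 / 20000 : ℝ) < m := by
        calc (n : ℝ) ^ (1 / 20000 : ℝ) ≤ ⌈(n : ℝ) ^ (1 / 20000 : ℝ)⌉₊ := Nat.le_ceil _
          _ < m := by exact_mod_cast hm2
      refine lt_of_le_of_lt ?_ h3
      refine Real.rpow_le_rpow (by positivity) ?_ (by norm_num)
      rw [div_le_iff₀ hZ0, hx]
      have : (X : ℝ) ≤ Z * n := by exact_mod_cast ha'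
      linarith
  have hη : x ^ (1 - 1 / 20000 : ℝ) ≤ x ^ (1 - 1 / 40000 : ℝ) :=
    Real.rpow_le_rpow_of_exponent_le hx1 (by norm_num)
  have hA : (((Icc 1 X).filter fun n => Z * n < X).card : ℝ) ≤ 1 * x ^ (1 - 1 / 40000 : ℝ) := by
    refine (exc_small X Z hZ1).trans ?_
    rw [one_mul]
    refine le_trans ?_ hη
    rw [div_le_iff₀ hZ0]
    calc x = x ^ (1 - 1 / 20000 : ℝ) * x ^ (1 / 20000 : ℝ) := by
          rw [← Real.rpow_add hx0]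
          norm_num
      _ ≤ x ^ (1 - 1 / 20000 : ℝ) * Z := mul_le_mul_of_nonneg_left hZlo (by positivity)
  have hB : (((Icc 1 X).filter fun n => ∃ m : ℕ, M0 < m ∧ m ^ 2 ∣ 4 * n).card : ℝ) ≤
      32 * x ^ (1 - 1 / 40000 : ℝ) := by
    refine (exc_sqs X M0 hM0pos).trans ?_
    have h3 : x ^ (1 / 40000 : ℝ) ≤ 2 * M0 := by
      have e1 : x ^ (1 - 1 / 20000 : ℝ) / 2 ≤ x / Z := by
        rw [div_le_div_iff₀ (by norm_num) hZ0]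
        calc x ^ (1 - 1 / 20000 : ℝ) * Z ≤ x ^ (1 - 1 / 20000 : ℝ) * (2 * x ^ (1 / 20000 : ℝ)) :=
              mul_le_mul_of_nonneg_left hZhi (by positivity)
          _ = 2 * (x ^ (1 - 1 / 20000 : ℝ) * x ^ (1 / 20000 : ℝ)) := by ring
          _ = x * 2 := by
              rw [← Real.rpow_add hx0]
              norm_num
              ring
      have e2 : (x ^ (1 - 1 / 20000 : ℝ) / 2) ^ (1 / 20000 : ℝ) ≤ M0 :=
        Real.rpow_le_rpow (by positivity) e1 (by norm_num)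
      have e3 : (x ^ (1 - 1 / 20000 : ℝ) / 2) ^ (1 / 20000 : ℝ) =
          x ^ ((1 - 1 / 20000) * (1 / 20000) : ℝ) / 2 ^ (1 / 20000 : ℝ) := by
        rw [Real.div_rpow (by positivity) (by norm_num), ← Real.rpow_mul hx0.le]
      have e4 : (2 : ℝ) ^ (1 / 20000 : ℝ) ≤ 2 := by
        calc (2 : ℝ) ^ (1 / 20000 : ℝ) ≤ 2 ^ (1 : ℝ) :=
              Real.rpow_le_rpow_of_exponent_le (by norm_num) (by norm_num)
          _ = 2 := Real.rpow_one 2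
      have e5 : x ^ (1 / 40000 : ℝ) ≤ x ^ ((1 - 1 / 20000) * (1 / 20000) : ℝ) :=
        Real.rpow_le_rpow_of_exponent_le hx1 (by norm_num)
      rw [e3] at e2
      have e6 : x ^ ((1 - 1 / 20000) * (1 / 20000) : ℝ) / 2 ≤
          x ^ ((1 - 1 / 20000) * (1 / 20000) : ℝ) / 2 ^ (1 / 20000 : ℝ) :=
        div_le_div_of_nonneg_left (by positivity) (by positivity) e4
      linarith
    rw [div_le_iff₀ hM0pos]
    calc 8 * x = 8 * (x ^ (1 - 1 / 40000 : ℝ) * x ^ (1 / 40000 : ℝ)) := by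
          rw [← Real.rpow_add hx0]
          norm_num
      _ ≤ 8 * (x ^ (1 - 1 / 40000 : ℝ) * (2 * M0)) := by gcongr
      _ ≤ 32 * x ^ (1 - 1 / 40000 : ℝ) * M0 := by
          have : 0 ≤ x ^ (1 - 1 / 40000 : ℝ) * M0 := by positivity
          linarith
  have hC := (exc_third h1 h2 X Z T hX hZ1 hTd).trans
    (hC3' x Z T hx1 hZ0.le hZhi (by positivity) hThi)
  have hcard : (((Icc 1 X).filter (Exc (1 / 20000))).card : ℝ) ≤
      (((Icc 1 X).filter fun n => Z * n < X).card : ℝ) +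
        (((Icc 1 X).filter fun n => ∃ m : ℕ, M0 < m ∧ m ^ 2 ∣ 4 * n).card : ℝ) +
      (((Icc 1 X).filter fun n => X ≤ Z * n ∧ NS Z n ∧ ∃ D : ℍ[ℤ], D.re = 0 ∧ D ≠ 0 ∧
        ct D ^ 4 ≤ 4 * Z ^ 7 * X ∧ Clq n Z D).card : ℝ) := by
    have e1 := card_le_card hsub
    have e2 := card_union_le ((((Icc 1 X).filter fun n => Z * n < X)) ∪
        ((Icc 1 X).filter fun n => ∃ m : ℕ, M0 < m ∧ m ^ 2 ∣ 4 * n))
      ((Icc 1 X).filter fun n => X ≤ Z * n ∧ NS Z n ∧ ∃ D : ℍ[ℤ], D.re = 0 ∧ D ≠ 0 ∧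
        ct D ^ 4 ≤ 4 * Z ^ 7 * X ∧ Clq n Z D)
    have e3 := card_union_le ((Icc 1 X).filter fun n => Z * n < X)
        ((Icc 1 X).filter fun n => ∃ m : ℕ, M0 < m ∧ m ^ 2 ∣ 4 * n)
    exact_mod_cast e1.trans (e2.trans (Nat.add_le_add_right e3 _))
  calc (((Icc 1 X).filter (Exc (1 / 20000))).card : ℝ) ≤ _ := hcard
    _ ≤ 1 * x ^ (1 - 1 / 40000 : ℝ) + 32 * x ^ (1 - 1 / 40000 : ℝ) + C3 * x ^ (1 - 1 / 40000 : ℝ) :=
        add_le_add (add_le_add hA hB) hC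
    _ = (1 + 32 + C3) * x ^ (1 - 1 / 40000 : ℝ) := by ring

end Pool.Agent.TorusAA
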