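import Pool.Agent.TorusAA.Stmts

/-!
# Five points
-/

namespace Pool.Agent.TorusAA

private lemma tri {a b c s : ℕ} (ha : 0 < a) (hb : 0 < b) (hc : 0 < c) (hs : 1 ≤ s)
    (h : ∀ L : ℕ, a ∣ L → b ∣ L → c ∣ L → a * b * c ∣ s * L ^ 2) (p M : ℕ)
    (h1 : a.factorization p ≤ M) (h2 : b.factorization p ≤ M) (h3 : c.factorization p ≤ M) :
    a.factorization p + b.factorization p + c.factorization p ≤ s.factorization p + 2 * M := by
  set L := a.lcm (b.lcm c) with hL
  have hbc : b.lcm c ≠ 0 := Nat.lcm_ne_zero hb.ne' hc.ne'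
  have hL0 : L ≠ 0 := Nat.lcm_ne_zero ha.ne' hbc
  have hd := h L (Nat.dvd_lcm_left _ _) ((Nat.dvd_lcm_left b c).trans (Nat.dvd_lcm_right _ _))
    ((Nat.dvd_lcm_right b c).trans (Nat.dvd_lcm_right _ _))
  have hLp : L.factorization p ≤ M := by
    rw [hL, Nat.factorization_lcm ha.ne' hbc, Nat.factorization_lcm hb.ne' hc.ne']
    simp only [Finsupp.sup_apply, sup_le_iff]
    exact ⟨h1, h2, h3⟩
  have h4 := (Nat.factorization_le_iff_dvd (by positivity) (by positivity)).2 hd p
  rw [Nat.factorization_mul (by positivity) hc.ne', Nat.factorization_mul ha.ne' hb.ne',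
    Nat.factorization_mul (by omega) (by positivity), Nat.factorization_pow] at h4
  simp only [Finsupp.add_apply, Finsupp.smul_apply, smul_eq_mul] at h4
  omega

private lemma prs_eq : prs = {(0, 1), (0, 2), (0, 3), (0, 4), (1, 2), (1, 3), (1, 4), (2, 3),
    (2, 4), (3, 4)} := by
  decide

private lemma prod_prs (q : Fin 5 × Fin 5 → ℕ) : ∏ p ∈ prs, q p =
    q (0, 1) * q (0, 2) * q (0, 3) * q (0, 4) * q (1, 2) * q (1, 3) * q (1, 4) * q (2, 3) *
      q (2, 4) * q (3, 4) := by
  rw [prs_eq]
  rw [Finset.prod_insert (by decide), Finset.prod_insert (by decide),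
    Finset.prod_insert (by decide), Finset.prod_insert (by decide),
    Finset.prod_insert (by decide), Finset.prod_insert (by decide),
    Finset.prod_insert (by decide), Finset.prod_insert (by decide),
    Finset.prod_insert (by decide), Finset.prod_singleton]
  ring

theorem five : S_five := by
  intro q σ hq h L hL hdvd
  have hm : ∀ i j : Fin 5, i < j → (i, j) ∈ prs := fun i j hij => by
    simp [prs, hij]
  have hpos : ∀ i j : Fin 5, i < j → 0 < q (i, j) := fun i j hij => hq _ (hm i j hij)
  choose! s hs1 hsσ hsd using h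
  have key : ∏ p ∈ prs, q p ∣ (s 0 1 2 * s 0 1 3 * s 0 1 4 * s 0 2 3 * s 0 2 4 * s 0 3 4 *
      s 1 2 3 * s 1 2 4 * s 1 3 4 * s 2 3 4) * L ^ 6 := by
    have hs0 : ∀ i j k : Fin 5, i < j → j < k → s i j k ≠ 0 := fun i j k hij hjk => by
      have := hs1 i j k hij hjk
      omega
    have p01 := hpos 0 1 (by decide)
    have p02 := hpos 0 2 (by decide)
    have p03 := hpos 0 3 (by decide)
    have p04 := hpos 0 4 (by decide)
    have p12 := hpos 1 2 (by decide)
    have p13 := hpos 1 3 (by decide)
    have p14 := hpos 1 4 (by decide)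
    have p23 := hpos 2 3 (by decide)
    have p24 := hpos 2 4 (by decide)
    have p34 := hpos 3 4 (by decide)
    have s012 := hs0 0 1 2 (by decide) (by decide)
    have s013 := hs0 0 1 3 (by decide) (by decide)
    have s014 := hs0 0 1 4 (by decide) (by decide)
    have s023 := hs0 0 2 3 (by decide) (by decide)
    have s024 := hs0 0 2 4 (by decide) (by decide)
    have s034 := hs0 0 3 4 (by decide) (by decide)
    have s123 := hs0 1 2 3 (by decide) (by decide)
    have s124 := hs0 1 2 4 (by decide) (by decide)
    have s134 := hs0 1 3 4 (by decide) (by decide)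
    have s234 := hs0 2 3 4 (by decide) (by decide)
    have hs00 : s 0 1 2 * s 0 1 3 * s 0 1 4 * s 0 2 3 * s 0 2 4 * s 0 3 4 *
      s 1 2 3 * s 1 2 4 * s 1 3 4 * s 2 3 4 ≠ 0 := by positivity
    rw [← Nat.factorization_le_iff_dvd (Finset.prod_ne_zero_iff.2 fun p hp => (hq p hp).ne')
      (by positivity)]
    intro p
    rw [prod_prs]
    rw [Nat.factorization_mul (by positivity) (by positivity),
      Nat.factorization_mul (by positivity) (by positivity),
      Nat.factorization_mul (by positivity) (by positivity),
      Nat.factorization_mul (by positivity) (by positivity),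
      Nat.factorization_mul (by positivity) (by positivity),
      Nat.factorization_mul (by positivity) (by positivity),
      Nat.factorization_mul (by positivity) (by positivity),
      Nat.factorization_mul (by positivity) (by positivity),
      Nat.factorization_mul (by positivity) (by positivity),
      Nat.factorization_mul hs00 (by positivity), Nat.factorization_pow,
      Nat.factorization_mul (by positivity) (by positivity),
      Nat.factorization_mul (by positivity) (by positivity),
      Nat.factorization_mul (by positivity) (by positivity),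
      Nat.factorization_mul (by positivity) (by positivity),
      Nat.factorization_mul (by positivity) (by positivity),
      Nat.factorization_mul (by positivity) (by positivity),
      Nat.factorization_mul (by positivity) (by positivity),
      Nat.factorization_mul (by positivity) (by positivity),
      Nat.factorization_mul (by positivity) (by positivity)]
    simp only [Finsupp.add_apply, Finsupp.smul_apply, smul_eq_mul]
    obtain ⟨⟨a, b⟩, hab, hmax⟩ := prs.exists_max_image (fun x => (q x).factorization p)
      ⟨(0, 1), hm 0 1 (by decide)⟩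
    set M := (q (a, b)).factorization p with hM
    have hle : ∀ i j : Fin 5, i < j → (q (i, j)).factorization p ≤ M :=
      fun i j hij => hmax _ (hm i j hij)
    have hML : M ≤ L.factorization p :=
      (Nat.factorization_le_iff_dvd (hq _ hab).ne' hL.ne').2 (hdvd _ hab) p
    have ht : ∀ i j k : Fin 5, i < j → j < k → (q (i, j)).factorization p +
        (q (i, k)).factorization p + (q (j, k)).factorization p ≤
        (s i j k).factorization p + 2 * M := fun i j k hij hjk =>
      tri (hpos i j hij) (hpos i k (hij.trans hjk)) (hpos j k hjk) (hs1 i j k hij hjk)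
        (hsd i j k hij hjk) p M (hle i j hij) (hle i k (hij.trans hjk)) (hle j k hjk)
    have t012 := ht 0 1 2 (by decide) (by decide)
    have t013 := ht 0 1 3 (by decide) (by decide)
    have t014 := ht 0 1 4 (by decide) (by decide)
    have t023 := ht 0 2 3 (by decide) (by decide)
    have t024 := ht 0 2 4 (by decide) (by decide)
    have t034 := ht 0 3 4 (by decide) (by decide)
    have t123 := ht 1 2 3 (by decide) (by decide)
    have t124 := ht 1 2 4 (by decide) (by decide)
    have t134 := ht 1 3 4 (by decide) (by decide)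
    have t234 := ht 2 3 4 (by decide) (by decide)
    clear ht hle hmax hsd hs1 hsσ
    rw [prs_eq] at hab
    simp only [Finset.mem_insert, Finset.mem_singleton, Prod.mk.injEq] at hab
    rcases hab with ⟨rfl, rfl⟩ | ⟨rfl, rfl⟩ | ⟨rfl, rfl⟩ | ⟨rfl, rfl⟩ | ⟨rfl, rfl⟩ | ⟨rfl, rfl⟩ |
      ⟨rfl, rfl⟩ | ⟨rfl, rfl⟩ | ⟨rfl, rfl⟩ | ⟨rfl, rfl⟩ <;> omega
  have hsle : s 0 1 2 * s 0 1 3 * s 0 1 4 * s 0 2 3 * s 0 2 4 * s 0 3 4 *
      s 1 2 3 * s 1 2 4 * s 1 3 4 * s 2 3 4 ≤ σ ^ 10 := by
    calc s 0 1 2 * s 0 1 3 * s 0 1 4 * s 0 2 3 * s 0 2 4 * s 0 3 4 *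
        s 1 2 3 * s 1 2 4 * s 1 3 4 * s 2 3 4 ≤ σ * σ * σ * σ * σ * σ * σ * σ * σ * σ := by
          gcongr <;> exact hsσ _ _ _ (by decide) (by decide)
      _ = σ ^ 10 := by ring
  have hspos : 0 < s 0 1 2 * s 0 1 3 * s 0 1 4 * s 0 2 3 * s 0 2 4 * s 0 3 4 *
      s 1 2 3 * s 1 2 4 * s 1 3 4 * s 2 3 4 := by
    have hs0 : ∀ i j k : Fin 5, i < j → j < k → 0 < s i j k := fun i j k hij hjk =>
      hs1 i j k hij hjk
    have s012 := hs0 0 1 2 (by decide) (by decide)
    have s013 := hs0 0 1 3 (by decide) (by decide)
    have s014 := hs0 0 1 4 (by decide) (by decide)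
    have s023 := hs0 0 2 3 (by decide) (by decide)
    have s024 := hs0 0 2 4 (by decide) (by decide)
    have s034 := hs0 0 3 4 (by decide) (by decide)
    have s123 := hs0 1 2 3 (by decide) (by decide)
    have s124 := hs0 1 2 4 (by decide) (by decide)
    have s134 := hs0 1 3 4 (by decide) (by decide)
    have s234 := hs0 2 3 4 (by decide) (by decide)
    positivity
  exact (Nat.le_of_dvd (by positivity) key).trans (Nat.mul_le_mul_right _ hsle)

end Pool.Agent.TorusAA
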