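import Pool.Agent.TorusAA.Stmts
import Pool.Agent.TorusAA.Api

/-! A box which is not good has a large gain. -/

namespace Pool.Agent.TorusAA

open Quaternion Pool.Agent.TorusL4

/-- The refined kernel of one direction, without the constant. -/
private noncomputable def tt (x y : ℍ[ℤ]) : ℝ :=
  2 * Real.log ((nq x + nq y : ℕ) : ℝ) - Real.log (nq x) - Real.log (nq y)
    + 2 * Real.log (al x y) + 2 * Real.log (al y x)

private theorem ct_anticomm {x y : ℍ[ℤ]} (hx0 : x.re = 0) (hy0 : y.re = 0) (h : dot x y = 0) :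
    ct (y * x) = ct (x * y) := by
  rw [anticomm hx0 hy0 h, ct_neg]

private theorem al_gcd {x y : ℍ[ℤ]} (hx : x ≠ 0) (hy : y ≠ 0) :
    al x y * Nat.gcd (ct (x * y)) (nq y) = ct (x * y) :=
  Nat.div_mul_cancel (Nat.gcd_dvd_left _ _)

private theorem sepB' {x y : ℍ[ℤ]} (hx0 : x.re = 0) (hy0 : y.re = 0) (h : dot x y = 0)
    (hx : x ≠ 0) (hy : y ≠ 0) :
    tt x y - 4 * Real.log 2 ≤ ell (x * (x + y)) + ell (y * (x + y)) - 2 * ell (x * y) := by
  obtain ⟨h1, h2, h3⟩ := orth_facts hx0 hy0 h
  have hxy := add_ne_zero_of_orth hx0 hy0 h hx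
  have e1 := (ell_ge_prim (mul_ne_zero hx hxy)).1
  have e2 := (ell_ge_prim (mul_ne_zero hy hxy)).1
  have e3 := (ell_ge_prim (mul_ne_zero hx hy)).2
  have hc := ct_pos (mul_ne_zero hx hy)
  -- the contents divide the norms
  have dx : ct (x * (x + y)) ∣ nq x := by
    have q := ((dvd_ct_iff _ (x * (x + y))).mp dvd_rfl).1
    have e : (x * (x + y)).re = -(nq x : ℤ) := by
      rw [nq_pure hx0]
      unfold dot at h ⊢
      simp only [re_mul, re_add, imI_add, imJ_add, imK_add, hx0, hy0]
      linear_combination (-1) * h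
    rw [e, dvd_neg] at q
    exact_mod_cast q
  have dy : ct (y * (x + y)) ∣ nq y := by
    have q := ((dvd_ct_iff _ (y * (x + y))).mp dvd_rfl).1
    have e : (y * (x + y)).re = -(nq y : ℤ) := by
      rw [nq_pure hy0]
      unfold dot at h ⊢
      simp only [re_mul, re_add, imI_add, imJ_add, imK_add, hx0, hy0]
      linear_combination (-1) * h
    rw [e, dvd_neg] at q
    exact_mod_cast q
  have key : ∀ {p q : ℕ} {a : ℕ}, 0 < p → 0 < a → 0 < ct (x * y) → p ∣ q → a * q = ct (x * y) →
      Real.log p ≤ Real.log (ct (x * y)) - Real.log a := by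
    intro p q a hp ha hct hpq haq
    have hq : 0 < q := by
      rcases Nat.eq_zero_or_pos q with h0 | h0
      · rw [h0, mul_zero] at haq; omega
      · exact h0
    have : Real.log (ct (x * y)) = Real.log a + Real.log q := by
      rw [← haq, Nat.cast_mul, Real.log_mul (by exact_mod_cast ha.ne') (by exact_mod_cast hq.ne')]
    have h4 : Real.log p ≤ Real.log q :=
      Real.log_le_log (by exact_mod_cast hp) (by exact_mod_cast Nat.le_of_dvd hq hpq)
    linarith
  have c1 : Real.log (ct (x * (x + y))) ≤ Real.log (ct (x * y)) - Real.log (al y x) := by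
    refine key (q := Nat.gcd (ct (x * y)) (nq x)) (ct_pos (mul_ne_zero hx hxy)) (al_pos hy hx) hc
      (Nat.dvd_gcd h2 dx) ?_
    have := al_gcd hy hx
    rwa [ct_anticomm hx0 hy0 h] at this
  have c2 : Real.log (ct (y * (x + y))) ≤ Real.log (ct (x * y)) - Real.log (al x y) :=
    key (q := Nat.gcd (ct (x * y)) (nq y)) (ct_pos (mul_ne_zero hy hxy)) (al_pos hx hy) hc
      (Nat.dvd_gcd h3 dy) (al_gcd hx hy)
  have l1 : Real.log (nq (x * (x + y))) = Real.log (nq x) + Real.log ((nq x + nq y : ℕ) : ℝ) := by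
    rw [nq_mul, h1, Nat.cast_mul, Real.log_mul]
    · exact_mod_cast (nq_pos hx).ne'
    · rw [← h1]; exact_mod_cast (nq_pos hxy).ne'
  have l2 : Real.log (nq (y * (x + y))) = Real.log (nq y) + Real.log ((nq x + nq y : ℕ) : ℝ) := by
    rw [nq_mul, h1, Nat.cast_mul, Real.log_mul]
    · exact_mod_cast (nq_pos hy).ne'
    · rw [← h1]; exact_mod_cast (nq_pos hxy).ne'
  have l3 : Real.log (nq (x * y)) = Real.log (nq x) + Real.log (nq y) := by
    rw [nq_mul, Nat.cast_mul, Real.log_mul]
    · exact_mod_cast (nq_pos hx).ne'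
    · exact_mod_cast (nq_pos hy).ne'
  rw [l1] at e1
  rw [l2] at e2
  rw [l3] at e3
  unfold tt
  linarith

private theorem tt_nonneg {x y : ℍ[ℤ]} (hx : x ≠ 0) (hy : y ≠ 0) : 0 ≤ tt x y := by
  have h1 := log_amgm (nq_pos hx) (nq_pos hy)
  have h2 : 0 ≤ Real.log (al x y) := Real.log_nonneg (by exact_mod_cast al_pos hx hy)
  have h3 : 0 ≤ Real.log (al y x) := Real.log_nonneg (by exact_mod_cast al_pos hy hx)
  have h4 : 0 < Real.log 2 := Real.log_pos (by norm_num)
  unfold tt
  linarith

private theorem tt_large {x y : ℍ[ℤ]} (hx : x ≠ 0) (hy : y ≠ 0) {M : ℕ} (hM : 1 ≤ M)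
    (h : ¬ G2 M x y) : Real.log M ≤ tt x y := by
  have h1 := log_amgm2 (nq_pos hx) (nq_pos hy)
  have h2 : 0 ≤ Real.log (al x y) := Real.log_nonneg (by exact_mod_cast al_pos hx hy)
  have h3 : 0 ≤ Real.log (al y x) := Real.log_nonneg (by exact_mod_cast al_pos hy hx)
  have h5 : 0 ≤ Real.log M := Real.log_nonneg (by exact_mod_cast hM)
  have h0 : 0 ≤ |Real.log (nq x) - Real.log (nq y)| := abs_nonneg _
  have hMpos : (0 : ℝ) < M := by exact_mod_cast hM
  unfold tt
  unfold G2 at h
  by_cases c1 : al x y ≤ M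
  · by_cases c2 : al y x ≤ M
    · by_cases c3 : nq x ≤ M * nq y
      · have c4 : ¬ nq y ≤ M * nq x := fun h' => h ⟨c1, c2, c3, h'⟩
        push Not at c4
        have h6 : Real.log M + Real.log (nq x) ≤ Real.log (nq y) := by
          rw [← Real.log_mul hMpos.ne' (by exact_mod_cast (nq_pos hx).ne')]
          refine Real.log_le_log (mul_pos hMpos (by exact_mod_cast nq_pos hx)) ?_
          exact_mod_cast c4.le
        have h7 := neg_abs_le (Real.log (nq x : ℝ) - Real.log (nq y))
        linarith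
      · push Not at c3
        have h6 : Real.log M + Real.log (nq y) ≤ Real.log (nq x) := by
          rw [← Real.log_mul hMpos.ne' (by exact_mod_cast (nq_pos hy).ne')]
          refine Real.log_le_log (mul_pos hMpos (by exact_mod_cast nq_pos hy)) ?_
          exact_mod_cast c3.le
        have h7 := le_abs_self (Real.log (nq x : ℝ) - Real.log (nq y))
        linarith
    · push Not at c2
      have h6 : Real.log M ≤ Real.log (al y x) :=
        Real.log_le_log hMpos (by exact_mod_cast c2.le)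
      linarith
  · push Not at c1
    have h6 : Real.log M ≤ Real.log (al x y) :=
      Real.log_le_log hMpos (by exact_mod_cast c1.le)
    linarith

theorem gain_thm : S_gain := by
  intro u1 u2 u3 M hO hM
  by_cases hg : Gd M u1 u2 u3
  · exact Or.inl hg
  right
  obtain ⟨h1, h2, h3, h12, h13, h23, n1, n2, n3⟩ := hO
  have dsymm : ∀ x y : ℍ[ℤ], dot x y = dot y x := fun x y => by unfold dot; ring
  have a1 := sepB' h2 h3 h23 n2 n3
  have a2 := sepB' h1 h3 h13 n1 n3
  have a3 := sepB' h1 h2 h12 n1 n2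
  rw [← ell_third h1 h2 h3 h12 h13 h23 n1 n2 n3] at a1
  rw [← ell_third h2 h1 h3 (by rw [dsymm]; exact h12) h23 h13 n2 n1 n3] at a2
  rw [← ell_third h3 h1 h2 (by rw [dsymm]; exact h13) (by rw [dsymm]; exact h23) h12 n3 n1 n2]
    at a3
  have b1 := tt_nonneg n2 n3
  have b2 := tt_nonneg n1 n3
  have b3 := tt_nonneg n1 n2
  have hsum : Real.log M ≤ tt u2 u3 + tt u1 u3 + tt u1 u2 := by
    by_cases c1 : G2 M u1 u2
    · by_cases c2 : G2 M u1 u3
      · have c3 : ¬ G2 M u2 u3 := fun h => hg ⟨c1, c2, h⟩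
        have := tt_large n2 n3 hM c3
        linarith
      · have := tt_large n1 n3 hM c2
        linarith
    · have := tt_large n1 n2 hM c1
      linarith
  unfold FF
  linarith

end Pool.Agent.TorusAA
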