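import Pool.Agent.TorusAA.Stmts

/-! The linear relation between the four factors of `d`. -/

namespace Pool.Agent.TorusAA

private theorem signed {g : ℤ} {α β f : ℕ} (hα : 1 ≤ α) (h : g.natAbs = α * β * f) :
    ∃ a : ℤ, a ≠ 0 ∧ a.natAbs = α ∧ g = a * β * f := by
  rcases Int.natAbs_eq g with hg | hg
  · refine ⟨α, by positivity, by simp, ?_⟩
    rw [hg, h]; push_cast; ring
  · refine ⟨-α, by simp; omega, by simp, ?_⟩
    rw [hg, h]; push_cast; ring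

private theorem lin_core (Z d : ℕ) (a1 a2 a3 : ℤ) (b1 b2 b3 e1 e1' e2 e2' e3 e3' : ℕ)
    (ha1 : a1 ≠ 0) (ha2 : a2 ≠ 0) (ha3 : a3 ≠ 0) (hb1 : 0 < b1) (hb2 : 0 < b2) (hb3 : 0 < b3)
    (A1 : a1.natAbs ≤ Z) (A2 : a2.natAbs ≤ Z) (A3 : a3.natAbs ≤ Z) (B1 : b1 ≤ Z) (B2 : b2 ≤ Z)
    (B3 : b3 ≤ Z) (he1 : 0 < e1) (he1' : 0 < e1') (he2 : 0 < e2) (he2' : 0 < e2') (he3 : 0 < e3)
    (he3' : 0 < e3') (d1 : e1 * e1' = d) (d2 : e2 * e2' = d) (d3 : e3 * e3' = d)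
    (hω : Nat.gcd e1 e1' ≤ Z) (c1 : e1 ≤ Z ^ 3 * e1') (c1' : e1' ≤ Z ^ 3 * e1)
    (c2 : e2 ≤ Z ^ 3 * e2') (c2' : e2' ≤ Z ^ 3 * e2) (c3 : e3 ≤ Z ^ 3 * e3')
    (c3' : e3' ≤ Z ^ 3 * e3)
    (h : a3 * ((b1 : ℤ) * b2 * e1 * e2 - a1 * a2 * d) = b3 * e3 * (a1 * b2 * e2 + a2 * b1 * e1)) :
    Lin Z d := by
  have hZ1 : 1 ≤ Z := le_trans hb1 B1
  obtain ⟨s, t, hst, hs, ht⟩ := Nat.exists_coprime e1 e2
  set r := Nat.gcd e1 e2 with hr
  have hr0 : 0 < r := Nat.gcd_pos_of_pos_left _ he1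
  have hs0 : 0 < s := by
    rcases Nat.eq_zero_or_pos s with h0 | h0
    · rw [h0, zero_mul] at hs; omega
    · exact h0
  have ht0 : 0 < t := by
    rcases Nat.eq_zero_or_pos t with h0 | h0
    · rw [h0, zero_mul] at ht; omega
    · exact h0
  have hse : s * e1' = t * e2' := by
    refine Nat.eq_of_mul_eq_mul_left hr0 ?_
    calc r * (s * e1') = (s * r) * e1' := by ring
      _ = (t * r) * e2' := by rw [← hs, ← ht, d1, d2]
      _ = _ := by ring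
  obtain ⟨u, hu⟩ : t ∣ e1' := by
    have : t ∣ s * e1' := ⟨e2', hse⟩
    exact hst.symm.dvd_of_dvd_mul_left this
  have hu0 : 0 < u := by
    rcases Nat.eq_zero_or_pos u with h0 | h0
    · rw [h0, mul_zero] at hu; omega
    · exact h0
  have hd : d = r * s * t * u := by
    rw [← d1, hu]; nth_rewrite 1 [hs]; ring
  -- integer versions
  have rz : (r : ℤ) ≠ 0 := by exact_mod_cast hr0.ne'
  have sz : (s : ℤ) ≠ 0 := by exact_mod_cast hs0.ne'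
  have tz : (t : ℤ) ≠ 0 := by exact_mod_cast ht0.ne'
  have uz : (u : ℤ) ≠ 0 := by exact_mod_cast hu0.ne'
  have b1z : (b1 : ℤ) ≠ 0 := by exact_mod_cast hb1.ne'
  have b2z : (b2 : ℤ) ≠ 0 := by exact_mod_cast hb2.ne'
  have b3z : (b3 : ℤ) ≠ 0 := by exact_mod_cast hb3.ne'
  have e3z : (e3 : ℤ) ≠ 0 := by exact_mod_cast he3.ne'
  have e1c : (e1 : ℤ) = s * r := by exact_mod_cast hs
  have e2c : (e2 : ℤ) = t * r := by exact_mod_cast ht
  have dc : (d : ℤ) = r * s * t * u := by exact_mod_cast hd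
  obtain ⟨y, hy⟩ : ∃ y : ℤ, y = b1 * b2 * r - a1 * a2 * u := ⟨_, rfl⟩
  obtain ⟨z, hz⟩ : ∃ z : ℤ, z = a1 * b2 * t + a2 * b1 * s := ⟨_, rfl⟩
  have h2 : (s : ℤ) * t * a3 * y = b3 * e3 * z := by
    refine mul_left_cancel₀ rz ?_
    rw [e1c, e2c, dc] at h
    rw [hy, hz]
    linear_combination h
  have hcop : IsCoprime (s : ℤ) (t : ℤ) := Nat.isCoprime_iff_coprime.mpr hst
  have k1 : (s : ℤ) ∣ b3 * e3 * (a1 * b2) := by
    have : (s : ℤ) ∣ b3 * e3 * (a1 * b2) * t :=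
      ⟨t * a3 * y - b3 * e3 * a2 * b1, by rw [hz] at h2; linear_combination -h2⟩
    exact hcop.dvd_of_dvd_mul_right this
  have k2 : (t : ℤ) ∣ b3 * e3 * (a2 * b1) := by
    have : (t : ℤ) ∣ b3 * e3 * (a2 * b1) * s :=
      ⟨s * a3 * y - b3 * e3 * a1 * b2, by rw [hz] at h2; linear_combination -h2⟩
    exact hcop.symm.dvd_of_dvd_mul_right this
  obtain ⟨ρ, hρ⟩ : (s : ℤ) * t ∣ a1 * a2 * b1 * b2 * b3 * e3 := by
    refine hcop.mul_dvd ?_ ?_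
    · obtain ⟨w, hw⟩ := k1
      exact ⟨w * (a2 * b1), by linear_combination (a2 * b1) * hw⟩
    · obtain ⟨w, hw⟩ := k2
      exact ⟨w * (a1 * b2), by linear_combination (a1 * b2) * hw⟩
  have hρ0 : ρ ≠ 0 := by
    rintro rfl
    rw [mul_zero] at hρ
    exact (mul_ne_zero (mul_ne_zero (mul_ne_zero (mul_ne_zero (mul_ne_zero ha1 ha2) b1z) b2z) b3z)
      e3z) hρ
  have h3 : a3 * (a1 * a2 * b1 * b2) * y = ρ * z := by
    refine mul_left_cancel₀ (mul_ne_zero sz tz) ?_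
    linear_combination (a1 * a2 * b1 * b2) * h2 + z * hρ
  have h4 : ρ * e3' = a1 * a2 * b1 * b2 * b3 * (r * u) := by
    refine mul_left_cancel₀ (mul_ne_zero sz tz) ?_
    have d3c : (e3 : ℤ) * e3' = r * s * t * u := by rw [← dc]; exact_mod_cast d3
    linear_combination (-(e3' : ℤ)) * hρ + (a1 * a2 * b1 * b2 * b3) * d3c
  -- natural number versions
  set α1 := a1.natAbs with hα1
  set α2 := a2.natAbs with hα2
  set α3 := a3.natAbs with hα3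
  have α1p : 0 < α1 := Int.natAbs_pos.mpr ha1
  have α2p : 0 < α2 := Int.natAbs_pos.mpr ha2
  have α3p : 0 < α3 := Int.natAbs_pos.mpr ha3
  set R := ρ.natAbs with hR
  have hRp : 0 < R := Int.natAbs_pos.mpr hρ0
  have h5 : R * e3' = α1 * α2 * b1 * b2 * b3 * (r * u) := by
    have := congrArg Int.natAbs h4
    simpa only [Int.natAbs_mul, Int.natAbs_natCast] using this
  have h6 : α3 * (α1 * α2 * b1 * b2) * y.natAbs = R * z.natAbs := by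
    have := congrArg Int.natAbs h3
    simpa only [Int.natAbs_mul, Int.natAbs_natCast] using this
  have h7 : α1 * α2 * b1 * b2 * b3 * e3 = s * t * R := by
    have := congrArg Int.natAbs hρ
    simpa only [Int.natAbs_mul, Int.natAbs_natCast] using this
  obtain ⟨g0, hg0⟩ : ∃ g0, g0 = Nat.gcd r u := ⟨_, rfl⟩
  have hg0Z : g0 ≤ Z := by
    refine le_trans (Nat.le_of_dvd (Nat.gcd_pos_of_pos_left _ he1) ?_) hω
    rw [hg0]
    refine Nat.dvd_gcd ?_ ?_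
    · rw [hs]; exact (Nat.gcd_dvd_left _ _).mul_left _
    · rw [hu]; exact (Nat.gcd_dvd_right _ _).mul_left _
  have hg0p : 0 < g0 := by rw [hg0]; exact Nat.gcd_pos_of_pos_left _ hr0
  have m1 : Nat.gcd r y.natAbs ∣ α1 * α2 * g0 := by
    have i1 : ((Nat.gcd r y.natAbs : ℕ) : ℤ) ∣ r := by
      exact_mod_cast Nat.gcd_dvd_left r y.natAbs
    have i2 : ((Nat.gcd r y.natAbs : ℕ) : ℤ) ∣ y :=
      Int.natCast_dvd.mpr (Nat.gcd_dvd_right _ _)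
    have i3 : ((Nat.gcd r y.natAbs : ℕ) : ℤ) ∣ a1 * a2 * u := by
      have : a1 * a2 * u = b1 * b2 * r - y := by rw [hy]; ring
      rw [this]
      exact dvd_sub (i1.mul_left _) i2
    have i4 : Nat.gcd r y.natAbs ∣ α1 * α2 * u := by
      have := Int.natCast_dvd.mp i3
      simpa only [Int.natAbs_mul, Int.natAbs_natCast] using this
    rw [hg0, ← Nat.gcd_mul_left]
    exact Nat.dvd_gcd ((Nat.gcd_dvd_left _ _).mul_left _) i4
  have m2 : Nat.gcd u y.natAbs ∣ b1 * b2 * g0 := by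
    have i1 : ((Nat.gcd u y.natAbs : ℕ) : ℤ) ∣ u := by
      exact_mod_cast Nat.gcd_dvd_left u y.natAbs
    have i2 : ((Nat.gcd u y.natAbs : ℕ) : ℤ) ∣ y :=
      Int.natCast_dvd.mpr (Nat.gcd_dvd_right _ _)
    have i3 : ((Nat.gcd u y.natAbs : ℕ) : ℤ) ∣ b1 * b2 * r := by
      have : (b1 * b2 * r : ℤ) = y + a1 * a2 * u := by rw [hy]; ring
      rw [this]
      exact dvd_add i2 (i1.mul_left _)
    have i4 : Nat.gcd u y.natAbs ∣ b1 * b2 * r := by exact_mod_cast i3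
    rw [hg0, ← Nat.gcd_mul_left]
    exact Nat.dvd_gcd i4 ((Nat.gcd_dvd_left _ _).mul_left _)
  have m3 : Nat.gcd (r * u) y.natAbs ∣ (α1 * α2 * g0) * (b1 * b2 * g0) := by
    refine dvd_trans ?_ (Nat.mul_dvd_mul m1 m2)
    rw [Nat.gcd_comm (r * u), Nat.gcd_comm r, Nat.gcd_comm u]
    exact Nat.gcd_mul_right_dvd_mul_gcd _ _ _
  have m4 : R ∣ (α3 * (α1 * α2 * b1 * b2)) * (α1 * α2 * b1 * b2 * b3) *
      Nat.gcd (r * u) y.natAbs := by
    rw [← Nat.gcd_mul_left]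
    refine Nat.dvd_gcd ?_ ?_
    · refine Dvd.dvd.trans (Dvd.intro _ h5) ?_
      exact ⟨α3 * (α1 * α2 * b1 * b2), by ring⟩
    · refine Dvd.dvd.trans (Dvd.intro _ h6.symm) ?_
      exact ⟨α1 * α2 * b1 * b2 * b3, by ring⟩
  have m5 : R ≤ Z ^ 16 := by
    have n1 : R ∣ (α3 * (α1 * α2 * b1 * b2)) * (α1 * α2 * b1 * b2 * b3) *
        ((α1 * α2 * g0) * (b1 * b2 * g0)) := m4.trans (Nat.mul_dvd_mul_left _ m3)
    have n2 := Nat.le_of_dvd (by positivity) n1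
    refine le_trans n2 ?_
    calc (α3 * (α1 * α2 * b1 * b2)) * (α1 * α2 * b1 * b2 * b3) *
          ((α1 * α2 * g0) * (b1 * b2 * g0))
        ≤ (Z * (Z * Z * Z * Z)) * (Z * Z * Z * Z * Z) * ((Z * Z * Z) * (Z * Z * Z)) := by
          gcongr
      _ = Z ^ 16 := by ring
  -- sizes
  have q1 : e1 ^ 2 ≤ Z ^ 3 * d := by
    rw [← d1]
    calc e1 ^ 2 = e1 * e1 := by ring
      _ ≤ e1 * (Z ^ 3 * e1') := Nat.mul_le_mul_left _ c1
      _ = _ := by ring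
  have q2 : e2 ^ 2 ≤ Z ^ 3 * d := by
    rw [← d2]
    calc e2 ^ 2 = e2 * e2 := by ring
      _ ≤ e2 * (Z ^ 3 * e2') := Nat.mul_le_mul_left _ c2
      _ = _ := by ring
  have q3 : e3 ^ 2 ≤ Z ^ 3 * d := by
    rw [← d3]
    calc e3 ^ 2 = e3 * e3 := by ring
      _ ≤ e3 * (Z ^ 3 * e3') := Nat.mul_le_mul_left _ c3
      _ = _ := by ring
  have p1 : d ≤ Z ^ 3 * e1 ^ 2 := by
    rw [← d1]
    calc e1 * e1' ≤ e1 * (Z ^ 3 * e1) := Nat.mul_le_mul_left _ c1'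
      _ = _ := by ring
  have p2 : d ≤ Z ^ 3 * e2 ^ 2 := by
    rw [← d2]
    calc e2 * e2' ≤ e2 * (Z ^ 3 * e2) := Nat.mul_le_mul_left _ c2'
      _ = _ := by ring
  have p3 : d ≤ Z ^ 3 * e3 ^ 2 := by
    rw [← d3]
    calc e3 * e3' ≤ e3 * (Z ^ 3 * e3) := Nat.mul_le_mul_left _ c3'
      _ = _ := by ring
  have hst3 : s ≤ Z ^ 3 * t := by
    have w1 : e1 ^ 2 ≤ (Z ^ 3 * e2) ^ 2 := by
      calc e1 ^ 2 ≤ Z ^ 3 * d := q1
        _ ≤ Z ^ 3 * (Z ^ 3 * e2 ^ 2) := Nat.mul_le_mul_left _ p2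
        _ = _ := by ring
    have w2 : e1 ≤ Z ^ 3 * e2 := (Nat.pow_le_pow_iff_left (two_ne_zero)).mp w1
    rw [hs, ht] at w2
    refine Nat.le_of_mul_le_mul_right ?_ hr0
    calc s * r ≤ Z ^ 3 * (t * r) := w2
      _ = _ := by ring
  have hts3 : t ≤ Z ^ 3 * s := by
    have w1 : e2 ^ 2 ≤ (Z ^ 3 * e1) ^ 2 := by
      calc e2 ^ 2 ≤ Z ^ 3 * d := q2
        _ ≤ Z ^ 3 * (Z ^ 3 * e1 ^ 2) := Nat.mul_le_mul_left _ p1
        _ = _ := by ring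
    have w2 : e2 ≤ Z ^ 3 * e1 := (Nat.pow_le_pow_iff_left (two_ne_zero)).mp w1
    rw [hs, ht] at w2
    refine Nat.le_of_mul_le_mul_right ?_ hr0
    calc t * r ≤ Z ^ 3 * (s * r) := w2
      _ = _ := by ring
  have hstup : s * t ≤ Z ^ 5 * e3 := by
    calc s * t ≤ s * t * R := Nat.le_mul_of_pos_right _ hRp
      _ = α1 * α2 * b1 * b2 * b3 * e3 := h7.symm
      _ ≤ Z * Z * Z * Z * Z * e3 := by gcongr
      _ = _ := by ring
  have he3up : e3 ≤ Z ^ 16 * (s * t) := by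
    calc e3 ≤ α1 * α2 * b1 * b2 * b3 * e3 := Nat.le_mul_of_pos_left _ (by positivity)
      _ = s * t * R := h7
      _ ≤ s * t * Z ^ 16 := Nat.mul_le_mul_left _ m5
      _ = _ := by ring
  have hmono : ∀ {i j : ℕ}, i ≤ j → Z ^ i ≤ Z ^ j := fun hij => Nat.pow_le_pow_right hZ1 hij
  have size : ∀ x : ℕ, x ^ 2 ≤ Z ^ 3 * (s * t) → x ^ 4 ≤ Z ^ 41 * d := by
    intro x hx
    calc x ^ 4 = (x ^ 2) ^ 2 := by ring
      _ ≤ (Z ^ 3 * (s * t)) ^ 2 := Nat.pow_le_pow_left hx 2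
      _ ≤ (Z ^ 3 * (Z ^ 5 * e3)) ^ 2 :=
        Nat.pow_le_pow_left (Nat.mul_le_mul_left _ hstup) 2
      _ = Z ^ 16 * e3 ^ 2 := by ring
      _ ≤ Z ^ 16 * (Z ^ 3 * d) := Nat.mul_le_mul_left _ q3
      _ = Z ^ 19 * d := by ring
      _ ≤ Z ^ 41 * d := Nat.mul_le_mul_right _ (hmono (by norm_num))
  refine ⟨r, s, t, u, a3 * (a1 * a2 * b1 * b2) * (b1 * b2), a3 * (a1 * a2 * b1 * b2) * (a1 * a2),
    ρ * (a1 * b2), ρ * (a2 * b1), hr0, hs0, ht0, hu0, hd, ?_, ?_, ?_, ?_, ?_, ?_, ?_, ?_, ?_⟩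
  · exact mul_ne_zero (mul_ne_zero ha3 (mul_ne_zero (mul_ne_zero (mul_ne_zero ha1 ha2) b1z) b2z))
      (mul_ne_zero ha1 ha2)
  · rw [hy, hz] at h3
    linear_combination h3
  · rw [Int.abs_eq_natAbs]
    simp only [Int.natAbs_mul, Int.natAbs_natCast]
    have : α3 * (α1 * α2 * b1 * b2) * (b1 * b2) ≤ Z ^ 18 := by
      calc α3 * (α1 * α2 * b1 * b2) * (b1 * b2) ≤ Z * (Z * Z * Z * Z) * (Z * Z) := by gcongr
        _ = Z ^ 7 := by ring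
        _ ≤ _ := hmono (by norm_num)
    exact_mod_cast this
  · rw [Int.abs_eq_natAbs]
    simp only [Int.natAbs_mul, Int.natAbs_natCast]
    have : α3 * (α1 * α2 * b1 * b2) * (α1 * α2) ≤ Z ^ 18 := by
      calc α3 * (α1 * α2 * b1 * b2) * (α1 * α2) ≤ Z * (Z * Z * Z * Z) * (Z * Z) := by gcongr
        _ = Z ^ 7 := by ring
        _ ≤ _ := hmono (by norm_num)
    exact_mod_cast this
  · rw [Int.abs_eq_natAbs]
    simp only [Int.natAbs_mul, Int.natAbs_natCast]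
    have : R * (α1 * b2) ≤ Z ^ 18 := by
      calc R * (α1 * b2) ≤ Z ^ 16 * (Z * Z) := by gcongr
        _ = Z ^ 18 := by ring
    exact_mod_cast this
  · rw [Int.abs_eq_natAbs]
    simp only [Int.natAbs_mul, Int.natAbs_natCast]
    have : R * (α2 * b1) ≤ Z ^ 18 := by
      calc R * (α2 * b1) ≤ Z ^ 16 * (Z * Z) := by gcongr
        _ = Z ^ 18 := by ring
    exact_mod_cast this
  · -- r
    have w1 : (e1 * e2) ^ 2 ≤ (Z ^ 3 * d) ^ 2 := by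
      calc (e1 * e2) ^ 2 = e1 ^ 2 * e2 ^ 2 := by ring
        _ ≤ (Z ^ 3 * d) * (Z ^ 3 * d) := Nat.mul_le_mul q1 q2
        _ = _ := by ring
    have w2 : e1 * e2 ≤ Z ^ 3 * d := (Nat.pow_le_pow_iff_left (two_ne_zero)).mp w1
    have w3 : r ^ 2 * e3 ≤ Z ^ 19 * d := by
      calc r ^ 2 * e3 ≤ r ^ 2 * (Z ^ 16 * (s * t)) := Nat.mul_le_mul_left _ he3up
        _ = Z ^ 16 * ((s * r) * (t * r)) := by ring
        _ = Z ^ 16 * (e1 * e2) := by rw [← hs, ← ht]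
        _ ≤ Z ^ 16 * (Z ^ 3 * d) := Nat.mul_le_mul_left _ w2
        _ = _ := by ring
    have hdp : 0 < d := by rw [← d1]; exact Nat.mul_pos he1 he1'
    refine Nat.le_of_mul_le_mul_right ?_ hdp
    calc r ^ 4 * d ≤ r ^ 4 * (Z ^ 3 * e3 ^ 2) := Nat.mul_le_mul_left _ p3
      _ = Z ^ 3 * (r ^ 2 * e3) ^ 2 := by ring
      _ ≤ Z ^ 3 * (Z ^ 19 * d) ^ 2 := Nat.mul_le_mul_left _ (Nat.pow_le_pow_left w3 2)
      _ = Z ^ 41 * d * d := by ring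
  · refine size s ?_
    calc s ^ 2 = s * s := by ring
      _ ≤ s * (Z ^ 3 * t) := Nat.mul_le_mul_left _ hst3
      _ = _ := by ring
  · refine size t ?_
    calc t ^ 2 = t * t := by ring
      _ ≤ t * (Z ^ 3 * s) := Nat.mul_le_mul_left _ hts3
      _ = _ := by ring

theorem lin : S_lin := by
  intro Z c d N P12 Q12 P23 Q23 P13 Q13 g12 g23 g13 α12 β12 e12 e12' f12 s12 α23 β23 e23 e23' f23
    s23 α13 β13 e13 e13' f13 s13 h12 h23 h13 _ _ _ hT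
  obtain ⟨a12, n12, m12, k12⟩ := signed h12.α1 h12.hg
  obtain ⟨a23, n23, m23, k23⟩ := signed h23.α1 h23.hg
  obtain ⟨a13, n13, m13, k13⟩ := signed h13.α1 h13.hg
  refine lin_core Z d a12 a23 a13 β12 β23 β13 e12 e12' e23 e23' e13 e13' n12 n23 n13 h12.β1 h23.β1
    h13.β1 (m12 ▸ h12.αZ) (m23 ▸ h23.αZ) (m13 ▸ h13.αZ) h12.βZ h23.βZ h13.βZ h12.e0 h12.e'0
    h23.e0 h23.e'0 h13.e0 h13.e'0 h12.ee h23.ee h13.ee h12.ω h12.b1 h12.b2 h23.b1 h23.b2 h13.b1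
    h13.b2 ?_
  rw [h12.hQ, h23.hQ, h13.hQ, k12, k23, k13] at hT
  push_cast at hT
  have f12z : (f12 : ℤ) ≠ 0 := by exact_mod_cast h12.f0.ne'
  have f23z : (f23 : ℤ) ≠ 0 := by exact_mod_cast h23.f0.ne'
  have f13z : (f13 : ℤ) ≠ 0 := by exact_mod_cast h13.f0.ne'
  have β12z : (β12 : ℤ) ≠ 0 := by have := h12.β1; positivity
  have β23z : (β23 : ℤ) ≠ 0 := by have := h23.β1; positivity
  have β13z : (β13 : ℤ) ≠ 0 := by have := h13.β1; positivity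
  refine mul_left_cancel₀ (mul_ne_zero (mul_ne_zero (mul_ne_zero (mul_ne_zero (mul_ne_zero f12z
    f23z) f13z) β12z) β23z) β13z) ?_
  linear_combination hT

end Pool.Agent.TorusAA
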