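import Pool.Agent.TorusAA.Stmts

/-!
# The Motzkin–Straus inequality for graphs without a clique of five vertices
-/

namespace Pool.Agent.TorusAA

private lemma ms_final {k B m : ℝ} (hk : 1 ≤ k) :
    (1 - 1 / k) * m ^ 2 + 2 * ((B - m) * m) ≤ (1 - 1 / (k + 1)) * B ^ 2 := by
  have hk0 : 0 < k := by linarith
  have h1 : (1 - 1 / (k + 1)) * B ^ 2 - ((1 - 1 / k) * m ^ 2 + 2 * ((B - m) * m)) =
      (k * B - (k + 1) * m) ^ 2 / (k * (k + 1)) := by
    field_simp
    ring
  have h2 : 0 ≤ (k * B - (k + 1) * m) ^ 2 / (k * (k + 1)) := by positivity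
  linarith

private lemma ms_aux (k : ℕ) (hk : 1 ≤ k) {ι : Type} [DecidableEq ι] (r : ι → ι → Prop)
    [DecidableRel r] (b : ι → ℝ) (hr : ∀ i j, r i j → r j i) (s : Finset ι)
    (hb : ∀ i ∈ s, 0 ≤ b i)
    (hc : ¬ ∃ x : Fin (k + 1) → ι, (∀ i, x i ∈ s) ∧ ∀ i j, i ≠ j → r (x i) (x j)) :
    ∑ i ∈ s, ∑ j ∈ s, (if r i j then b i * b j else 0) ≤ (1 - 1 / (k : ℝ)) * (∑ i ∈ s, b i) ^ 2 := by
  induction k, hk using Nat.le_induction generalizing s with
  | base =>
    have h0 : ∑ i ∈ s, ∑ j ∈ s, (if r i j then b i * b j else 0) = 0 := by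
      apply Finset.sum_eq_zero
      intro i hi
      apply Finset.sum_eq_zero
      intro j hj
      rw [if_neg]
      intro hij
      apply hc
      refine ⟨![i, j], ?_, ?_⟩
      · intro a
        fin_cases a
        · exact hi
        · exact hj
      · intro a c hac
        fin_cases a <;> fin_cases c
        · exact absurd rfl hac
        · exact hij
        · exact hr _ _ hij
        · exact absurd rfl hac
    rw [h0]
    simp
  | succ k hk ih =>
    rcases s.eq_empty_or_nonempty with rfl | hne
    · simp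
    obtain ⟨i₀, hi₀, hmax⟩ := s.exists_max_image (fun i => ∑ j ∈ s, if r i j then b j else 0) hne
    set m : ℝ := ∑ j ∈ s, if r i₀ j then b j else 0 with hm
    set T : Finset ι := s.filter (fun j => r i₀ j) with hT
    have hTs : T ⊆ s := Finset.filter_subset _ _
    have hTm : ∑ j ∈ T, b j = m := by
      rw [hT, Finset.sum_filter]
    have hcT : ¬ ∃ x : Fin (k + 1) → ι, (∀ i, x i ∈ T) ∧ ∀ i j, i ≠ j → r (x i) (x j) := by
      rintro ⟨x, hx, hxr⟩
      apply hc
      refine ⟨Fin.cons i₀ x, ?_, ?_⟩
      · intro a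
        refine Fin.cases ?_ (fun a => ?_) a
        · exact hi₀
        · exact hTs (hx a)
      · intro a c
        refine Fin.cases ?_ (fun a => ?_) a
        · refine Fin.cases ?_ (fun c => ?_) c
          · intro h
            exact absurd rfl h
          · intro _
            exact (Finset.mem_filter.1 (hx c)).2
        · refine Fin.cases ?_ (fun c => ?_) c
          · intro _
            exact hr _ _ (Finset.mem_filter.1 (hx a)).2
          · intro h
            exact hxr a c fun h' => h (by rw [h'])
    have h1 := ih T (fun i hi => hb i (hTs hi)) hcT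
    rw [hTm] at h1
    set B : ℝ := ∑ i ∈ s, b i with hB
    have hsplit : ∀ g : ι → ℝ, ∑ i ∈ s, g i = ∑ i ∈ T, g i + ∑ i ∈ s \ T, g i := by
      intro g
      rw [add_comm, Finset.sum_sdiff hTs]
    have hBm : ∑ i ∈ s \ T, b i = B - m := by
      have := hsplit b
      rw [hTm] at this
      linarith
    have hrow : ∀ i ∈ s \ T, ∑ j ∈ s, (if r i j then b i * b j else 0) ≤ b i * m := by
      intro i hi
      have his := (Finset.mem_sdiff.1 hi).1
      have h2 : ∑ j ∈ s, (if r i j then b i * b j else 0) =
          b i * ∑ j ∈ s, (if r i j then b j else 0) := by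
        rw [Finset.mul_sum]
        apply Finset.sum_congr rfl
        intro j _
        split_ifs <;> simp
      rw [h2]
      exact mul_le_mul_of_nonneg_left (hmax i his) (hb i his)
    have h3 : ∑ i ∈ s \ T, ∑ j ∈ s, (if r i j then b i * b j else 0) ≤ (B - m) * m := by
      rw [← hBm, Finset.sum_mul]
      exact Finset.sum_le_sum hrow
    have h4 : ∑ i ∈ T, ∑ j ∈ s \ T, (if r i j then b i * b j else 0) ≤ (B - m) * m := by
      rw [Finset.sum_comm]
      refine le_trans (Finset.sum_le_sum fun j hj => ?_) h3
      have hjs := (Finset.mem_sdiff.1 hj).1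
      have h5 : ∑ i ∈ T, (if r i j then b i * b j else 0) =
          ∑ i ∈ T, (if r j i then b j * b i else 0) := by
        apply Finset.sum_congr rfl
        intro i _
        by_cases hij : r i j
        · rw [if_pos hij, if_pos (hr _ _ hij), mul_comm]
        · rw [if_neg hij, if_neg fun h => hij (hr _ _ h)]
      rw [h5]
      apply Finset.sum_le_sum_of_subset_of_nonneg hTs
      intro i hi _
      split_ifs
      · exact mul_nonneg (hb j hjs) (hb i hi)
      · exact le_refl 0
    have h6 : ∑ i ∈ s, ∑ j ∈ s, (if r i j then b i * b j else 0) =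
        ∑ i ∈ T, ∑ j ∈ T, (if r i j then b i * b j else 0) +
        ∑ i ∈ T, ∑ j ∈ s \ T, (if r i j then b i * b j else 0) +
        ∑ i ∈ s \ T, ∑ j ∈ s, (if r i j then b i * b j else 0) := by
      rw [hsplit, ← Finset.sum_add_distrib]
      congr 1
      apply Finset.sum_congr rfl
      intro i _
      exact hsplit _
    have h7 := ms_final (B := B) (m := m) (k := (k : ℝ)) (by exact_mod_cast hk)
    push_cast
    rw [h6]
    linarith

theorem ms : S_ms := by
  intro ι _ s r _ b hb hr hc
  have h := ms_aux 4 (by norm_num) r b hr s hb hc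
  norm_num at h
  exact h

end Pool.Agent.TorusAA
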