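import Pool.Agent.TorusAA.Stmts

/-!
# Arithmetic data of a pair
-/

namespace Pool.Agent.TorusAA

theorem pair_thm : S_pair := by
  intro P Q g d hP hQ hg h
  obtain ⟨al, hal⟩ : Nat.gcd g Q ∣ g := Nat.gcd_dvd_left g Q
  obtain ⟨B, hB⟩ : Nat.gcd g Q ∣ Q := Nat.gcd_dvd_right g Q
  obtain ⟨be, hbe⟩ : Nat.gcd g P ∣ g := Nat.gcd_dvd_left g P
  obtain ⟨A, hA⟩ : Nat.gcd g P ∣ P := Nat.gcd_dvd_right g P
  have hk1 : 0 < Nat.gcd g Q := Nat.gcd_pos_of_pos_left _ hg
  have hk2 : 0 < Nat.gcd g P := Nat.gcd_pos_of_pos_left _ hg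
  have e1 : g / Nat.gcd g Q = al := by
    conv_lhs => rw [hal]
    rw [show Nat.gcd g Q * al / Nat.gcd (Nat.gcd g Q * al) Q =
      Nat.gcd g Q * al / Nat.gcd g Q by rw [← hal]]
    exact Nat.mul_div_cancel_left _ hk1
  have e2 : g / Nat.gcd g P = be := by
    conv_lhs => rw [hbe]
    rw [show Nat.gcd g P * be / Nat.gcd (Nat.gcd g P * be) P =
      Nat.gcd g P * be / Nat.gcd g P by rw [← hbe]]
    exact Nat.mul_div_cancel_left _ hk2
  have e3 : Q / Nat.gcd g Q = B := Nat.div_eq_of_eq_mul_right hk1 hB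
  have e4 : P / Nat.gcd g P = A := Nat.div_eq_of_eq_mul_right hk2 hA
  have c1 : Nat.Coprime al B := by
    rw [← e1, ← e3]
    exact Nat.coprime_div_gcd_div_gcd hk1
  have c2 : Nat.Coprime be A := by
    rw [← e2, ← e4]
    exact Nat.coprime_div_gcd_div_gcd hk2
  rw [e1, e2]
  set k1 := Nat.gcd g Q with hk1def
  set k2 := Nat.gcd g P with hk2def
  have hal0 : 0 < al := Nat.pos_of_ne_zero fun h0 => by rw [h0, mul_zero] at hal; omega
  have hbe0 : 0 < be := Nat.pos_of_ne_zero fun h0 => by rw [h0, mul_zero] at hbe; omega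
  have hAB : A * B = d * (al * be) := by
    have h1 : (k1 * k2) * (A * B) = (k1 * k2) * (d * (al * be)) := by
      calc (k1 * k2) * (A * B) = (k2 * A) * (k1 * B) := by ring
        _ = P * Q := by rw [← hA, ← hB]
        _ = d * (g * g) := by rw [h, sq]
        _ = d * ((k1 * al) * (k2 * be)) := by rw [← hal, ← hbe]
        _ = (k1 * k2) * (d * (al * be)) := by ring
    exact Nat.eq_of_mul_eq_mul_left (Nat.mul_pos hk1 hk2) h1
  obtain ⟨e', he'⟩ : al ∣ A := c1.dvd_of_dvd_mul_right (by rw [hAB]; exact ⟨d * be, by ring⟩)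
  obtain ⟨e, he⟩ : be ∣ B := c2.dvd_of_dvd_mul_left (by rw [hAB]; exact ⟨d * al, by ring⟩)
  have hee : e * e' = d := by
    have h1 : (al * be) * (e * e') = (al * be) * d := by
      calc (al * be) * (e * e') = (al * e') * (be * e) := by ring
        _ = A * B := by rw [← he', ← he]
        _ = (al * be) * d := by rw [hAB]; ring
    exact Nat.eq_of_mul_eq_mul_left (Nat.mul_pos hal0 hbe0) h1
  have c3 : Nat.Coprime al (be * e) := by rw [← he]; exact c1
  have c4 : Nat.Coprime be (al * e') := by rw [← he']; exact c2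
  have c5 : Nat.Coprime al be := Nat.Coprime.coprime_mul_right_right c3
  obtain ⟨f, hf⟩ : al * be ∣ g :=
    c5.mul_dvd_of_dvd_of_dvd (Dvd.intro_left _ hal.symm) (Dvd.intro_left _ hbe.symm)
  have hk1' : k1 = be * f := by
    have : al * k1 = al * (be * f) := by rw [mul_comm al k1, ← hal, hf]; ring
    exact Nat.eq_of_mul_eq_mul_left hal0 this
  have hk2' : k2 = al * f := by
    have : be * k2 = be * (al * f) := by rw [mul_comm be k2, ← hbe, hf]; ring
    exact Nat.eq_of_mul_eq_mul_left hbe0 this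
  have hf0 : 0 < f := Nat.pos_of_ne_zero fun h0 => by rw [h0, mul_zero] at hf; omega
  have he0 : 0 < e := Nat.pos_of_ne_zero fun h0 => by
    rw [he, h0, mul_zero, mul_zero] at hB; omega
  have he'0 : 0 < e' := Nat.pos_of_ne_zero fun h0 => by
    rw [he', h0, mul_zero, mul_zero] at hA; omega
  refine ⟨e, e', f, he0, he'0, hf0, hee, ?_, ?_, hf, c3, c4⟩
  · rw [hA, he', hk2']; ring
  · rw [hB, he, hk1']; ring

end Pool.Agent.TorusAA
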