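import Pool.Agent.TorusAA.Stmts

/-!
# The divisibility for a triple of points
-/

namespace Pool.Agent.TorusAA

private lemma tl_part2 {q1 q2 q3 f1 f2 f3 M s : ℕ} (h1 : f1 * q1 = M) (h2 : f2 * q2 = M)
    (h3 : f3 * q3 = M) (hg : Nat.gcd f1 (Nat.gcd f2 f3) = 1) (hd : q1 ∣ s * (f2 * f3)) (L : ℕ)
    (l1 : q1 ∣ L) (l2 : q2 ∣ L) (l3 : q3 ∣ L) : q1 * q3 * q2 ∣ s * L ^ 2 := by
  have hML : M ∣ L := by
    have a1 : M ∣ f1 * L := by rw [← h1]; exact Nat.mul_dvd_mul_left _ l1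
    have a2 : M ∣ f2 * L := by rw [← h2]; exact Nat.mul_dvd_mul_left _ l2
    have a3 : M ∣ f3 * L := by rw [← h3]; exact Nat.mul_dvd_mul_left _ l3
    have a4 := Nat.dvd_gcd a1 (Nat.dvd_gcd a2 a3)
    rw [Nat.gcd_mul_right, Nat.gcd_mul_right, hg, one_mul] at a4
    exact a4
  have h4 : q1 * q3 * q2 ∣ s * M ^ 2 := by
    have h5 : s * M ^ 2 = s * (f2 * f3) * (q3 * q2) := by
      calc s * M ^ 2 = s * (M * M) := by ring
        _ = s * ((f2 * q2) * (f3 * q3)) := by rw [h2, h3]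
        _ = s * (f2 * f3) * (q3 * q2) := by ring
    rw [h5, mul_assoc q1]
    exact Nat.mul_dvd_mul_right hd _
  exact h4.trans (Nat.mul_dvd_mul_left _ (pow_dvd_pow_of_dvd hML 2))

private lemma gcd_pq {α β e e' : ℕ} (cα : Nat.Coprime α (β * e)) (cβ : Nat.Coprime β (α * e')) :
    Nat.gcd (β ^ 2 * e) (α ^ 2 * e') = Nat.gcd e e' := by
  have h1 : Nat.Coprime (α ^ 2) (β ^ 2 * e) := by
    have ha : Nat.Coprime α β := Nat.Coprime.coprime_mul_right_right cα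
    have hb : Nat.Coprime α e := Nat.Coprime.coprime_mul_left_right cα
    exact Nat.Coprime.pow_left 2 ((ha.pow_right 2).mul_right hb)
  have h2 : Nat.Coprime (β ^ 2) e' := by
    exact Nat.Coprime.pow_left 2 (Nat.Coprime.coprime_mul_left_right cβ)
  have h3 : Nat.gcd (β ^ 2 * e) (α ^ 2 * e') = Nat.gcd (β ^ 2 * e) e' :=
    Nat.Coprime.gcd_mul_left_cancel_right e' h1
  have h4 : Nat.gcd (β ^ 2 * e) e' = Nat.gcd e e' := Nat.Coprime.gcd_mul_left_cancel e h2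
  rw [h3, h4]

/-- `q ∣ 2 p y` implies `q ∣ 4 gcd(e, e') y` -/
private lemma tl_part1 {α β e e' : ℕ} (cα : Nat.Coprime α (β * e))
    (cβ : Nat.Coprime β (α * e')) (x y : ℤ)
    (h : ((β ^ 2 * e + α ^ 2 * e' : ℕ) : ℤ) * x = 2 * ((β ^ 2 * e : ℕ) - (α ^ 2 * e' : ℕ)) * y) :
    ((β ^ 2 * e + α ^ 2 * e' : ℕ) : ℤ) ∣ 4 * (Nat.gcd e e' : ℤ) * y := by
  have hw : ((Nat.gcd e e' : ℕ) : ℤ) = (Nat.gcd (β ^ 2 * e) (α ^ 2 * e') : ℕ) := by
    rw [gcd_pq cα cβ]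
  rw [hw]
  set A := β ^ 2 * e with hA
  set B := α ^ 2 * e' with hB
  rw [Nat.gcd_eq_gcd_ab]
  have d1 : ((A + B : ℕ) : ℤ) ∣ 2 * ((A : ℤ) - B) * y := ⟨x, h.symm⟩
  have d2 : ((A + B : ℕ) : ℤ) ∣ 4 * (A : ℤ) * y := by
    have : 4 * (A : ℤ) * y = 2 * ((A : ℤ) - B) * y + ((A + B : ℕ) : ℤ) * (2 * y) := by
      push_cast
      ring
    rw [this]
    exact dvd_add d1 (Dvd.intro _ rfl)
  have d3 : ((A + B : ℕ) : ℤ) ∣ 4 * (B : ℤ) * y := by
    have : 4 * (B : ℤ) * y = ((A + B : ℕ) : ℤ) * (2 * y) - 2 * ((A : ℤ) - B) * y := by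
      push_cast
      ring
    rw [this]
    exact dvd_sub (Dvd.intro _ rfl) d1
  have : 4 * ((A : ℤ) * A.gcdA B + B * A.gcdB B) * y =
      (4 * (A : ℤ) * y) * A.gcdA B + (4 * (B : ℤ) * y) * A.gcdB B := by ring
  rw [this]
  exact dvd_add (d2.mul_right _) (d3.mul_right _)

private lemma exists_h {g : ℤ} {k a f : ℕ} (hk : 0 < k) (h : g.natAbs = a * (k * f)) :
    ∃ x : ℤ, g = k * x ∧ x.natAbs = a * f := by
  have h1 : (k : ℤ) ∣ g := Int.natCast_dvd.2 ⟨a * f, by rw [h]; ring⟩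
  obtain ⟨x, hx⟩ := h1
  refine ⟨x, hx, ?_⟩
  rw [hx, Int.natAbs_mul, Int.natAbs_natCast] at h
  have h2 : k * x.natAbs = k * (a * f) := by rw [h]; ring
  exact Nat.eq_of_mul_eq_mul_left hk h2

theorem tlem : S_tlem := by
  intro Z c d N P12 Q12 P23 Q23 P13 Q13 g12 g23 g13 α12 β12 e12 e12' f12 s12 α23 β23 e23 e23' f23
    s23 α13 β13 e13 e13' f13 s13 h12 h23 h13 n12 n23 n13 hrel
  set q12 := β12 ^ 2 * e12 + α12 ^ 2 * e12' with hq12
  set q13 := β13 ^ 2 * e13 + α13 ^ 2 * e13' with hq13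
  set q23 := β23 ^ 2 * e23 + α23 ^ 2 * e23' with hq23
  have N12 : f12 * q12 = N := by rw [← n12, h12.hP, h12.hQ]; ring
  have N13 : f13 * q13 = N := by rw [← n13, h13.hP, h13.hQ]; ring
  have N23 : f23 * q23 = N := by rw [← n23, h23.hP, h23.hQ]; ring
  set k := Nat.gcd f12 (Nat.gcd f13 f23) with hk
  have hk0 : 0 < k := Nat.gcd_pos_of_pos_left _ h12.f0
  obtain ⟨x12, hx12⟩ : k ∣ f12 := Nat.gcd_dvd_left _ _
  obtain ⟨x13, hx13⟩ : k ∣ f13 := (Nat.gcd_dvd_right _ _).trans (Nat.gcd_dvd_left _ _)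
  obtain ⟨x23, hx23⟩ : k ∣ f23 := (Nat.gcd_dvd_right _ _).trans (Nat.gcd_dvd_right _ _)
  have hx : Nat.gcd x12 (Nat.gcd x13 x23) = 1 := by
    have h1 : k * Nat.gcd x12 (Nat.gcd x13 x23) = k * 1 := by
      rw [← Nat.gcd_mul_left, ← Nat.gcd_mul_left, ← hx12, ← hx13, ← hx23, mul_one]
    exact Nat.eq_of_mul_eq_mul_left hk0 h1
  set M := x12 * q12 with hM
  have M13 : x13 * q13 = M := by
    have h1 : k * (x13 * q13) = k * M := by
      rw [hM, ← mul_assoc, ← hx13, ← mul_assoc, ← hx12, N13, N12]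
    exact Nat.eq_of_mul_eq_mul_left hk0 h1
  have M23 : x23 * q23 = M := by
    have h1 : k * (x23 * q23) = k * M := by
      rw [hM, ← mul_assoc, ← hx23, ← mul_assoc, ← hx12, N23, N12]
    exact Nat.eq_of_mul_eq_mul_left hk0 h1
  obtain ⟨y12, hy12, ya12⟩ := exists_h (g := g12) (a := α12 * β12) (f := x12) hk0
    (by rw [h12.hg, hx12])
  obtain ⟨y13, hy13, ya13⟩ := exists_h (g := g13) (a := α13 * β13) (f := x13) hk0
    (by rw [h13.hg, hx13])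
  obtain ⟨y23, hy23, ya23⟩ := exists_h (g := g23) (a := α23 * β23) (f := x23) hk0
    (by rw [h23.hg, hx23])
  have hrel2 : ((q12 : ℕ) : ℤ) * (y13 ^ 2 + y23 ^ 2 - y12 ^ 2) =
      2 * ((β12 ^ 2 * e12 : ℕ) - (α12 ^ 2 * e12' : ℕ)) * (y13 * y23) := by
    have h1 : ((f12 : ℤ) * k ^ 2) * (((q12 : ℕ) : ℤ) * (y13 ^ 2 + y23 ^ 2 - y12 ^ 2)) =
        ((f12 : ℤ) * k ^ 2) *
          (2 * ((β12 ^ 2 * e12 : ℕ) - (α12 ^ 2 * e12' : ℕ)) * (y13 * y23)) := by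
      have h2 : (N : ℤ) = f12 * q12 := by exact_mod_cast N12.symm
      have h3 : (Q12 : ℤ) - P12 = f12 * ((β12 ^ 2 * e12 : ℕ) - (α12 ^ 2 * e12' : ℕ)) := by
        rw [h12.hP, h12.hQ]
        push_cast
        ring
      rw [h2, h3, hy12, hy13, hy23] at hrel
      linear_combination hrel
    have h0 : ((f12 : ℤ) * k ^ 2) ≠ 0 := by
      have : 0 < f12 := h12.f0
      positivity
    exact mul_left_cancel₀ h0 h1
  have hdz := tl_part1 h12.cα h12.cβ _ _ hrel2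
  refine ⟨4 * Nat.gcd e12 e12' * (α13 * β13 * (α23 * β23)), ?_, ?_, ?_⟩
  · have hw : 0 < Nat.gcd e12 e12' := Nat.gcd_pos_of_pos_left _ h12.e0
    have a1 := h13.α1
    have a2 := h13.β1
    have a3 := h23.α1
    have a4 := h23.β1
    have : 0 < 4 * Nat.gcd e12 e12' * (α13 * β13 * (α23 * β23)) := by positivity
    exact this
  · calc 4 * Nat.gcd e12 e12' * (α13 * β13 * (α23 * β23)) ≤ 4 * Z * (Z * Z * (Z * Z)) := by
          gcongr
          · exact h12.ω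
          · exact h13.αZ
          · exact h13.βZ
          · exact h23.αZ
          · exact h23.βZ
      _ = 4 * Z ^ 5 := by ring
  · intro L l1 l2 l3
    apply tl_part2 rfl M23 M13 (by rw [Nat.gcd_comm x23]; exact hx) _ L l1 l3 l2
    have h1 := Int.natAbs_dvd_natAbs.2 hdz
    rw [Int.natAbs_natCast, Int.natAbs_mul, Int.natAbs_mul, Int.natAbs_mul, ya13, ya23] at h1
    have h2 : (4 : ℤ).natAbs * ((Nat.gcd e12 e12' : ℕ) : ℤ).natAbs * (α13 * β13 * x13 *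
        (α23 * β23 * x23)) =
        4 * Nat.gcd e12 e12' * (α13 * β13 * (α23 * β23)) * (x23 * x13) := by
      rw [Int.natAbs_natCast]
      simp only [Int.reduceAbs]
      ring
    rw [h2] at h1
    exact h1

end Pool.Agent.TorusAA
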