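import Pool.Agent.TorusAA.Stmts
import Pool.Agent.TorusAA.Api

/-! Three points on a circle. -/

namespace Pool.Agent.TorusAA

open Quaternion Pool.Agent.TorusL4

private theorem smul_one_eq {v : ℍ[ℤ]} (hv0 : v.re = 0) (hv : v ≠ 0) {s t : ℤ}
    (h : s • (1 : ℍ[ℤ]) = t • v) : s = 0 ∧ t = 0 := by
  have h1 := congrArg (fun q : ℍ[ℤ] => q.re) h
  simp only [re_smul, re_one, smul_eq_mul, mul_one, hv0, mul_zero] at h1
  refine ⟨h1, ?_⟩
  rw [h1, zero_smul] at h
  exact (smul_eq_zero.mp h.symm).resolve_right hv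

/-- Two points. -/
private theorem pair_mul {c g : ℤ} {v x y : ℍ[ℤ]} {n : ℕ} (hv0 : v.re = 0) (hx0 : x.re = 0)
    (hy0 : y.re = 0) (hx : nq x = n) (hy : nq y = n) (hxD : nq (c • v - x) = n)
    (hyD : nq (c • v - y) = n) (h : (x - y) * (x + y - c • v) = g • v) :
    (nq (x - y) : ℤ) + nq (x + y - c • v) = 4 * n - normSq (c • v) ∧
    (x + x - c • v) * (y + y - c • v) =
      (-((nq (x + y - c • v) : ℤ) - nq (x - y))) • (1 : ℍ[ℤ]) + (2 * g) • v := by
  obtain ⟨D, hD⟩ : ∃ D, D = c • v := ⟨_, rfl⟩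
  have hD0 : D.re = 0 := by rw [hD, re_smul, hv0, smul_zero]
  rw [← hD] at hxD hyD h ⊢
  have qx : (nq x : ℤ) = n := by rw [hx]
  have qy : (nq y : ℤ) = n := by rw [hy]
  have qxD : (nq (D - x) : ℤ) = n := by rw [hxD]
  have qyD : (nq (D - y) : ℤ) = n := by rw [hyD]
  rw [nq_def'] at qx qy qxD qyD
  simp only [re_sub, imI_sub, imJ_sub, imK_sub, hx0, hy0, hD0] at qx qy qxD qyD
  refine ⟨?_, ?_⟩
  · rw [nq_def', nq_def', normSq_def']
    simp only [re_sub, imI_sub, imJ_sub, imK_sub, re_add, imI_add, imJ_add, imK_add, hx0, hy0,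
      hD0]
    linear_combination qx + qy + qxD + qyD
  · have h2 : (2 : ℤ) • ((x + x - D) * (y + y - D)) = (2 : ℤ) •
        ((-((nq (x + y - D) : ℤ) - nq (x - y))) • (1 : ℍ[ℤ]) + (2 * g) • v) := by
      have e1 : (2 : ℤ) • ((x + x - D) * (y + y - D)) =
          ((x + x - D) * (y + y - D) + (y + y - D) * (x + x - D)) +
          ((x + x - D) * (y + y - D) - (y + y - D) * (x + x - D)) := by
        rw [two_smul]; abel
      have e2 : (x + x - D) * (y + y - D) - (y + y - D) * (x + x - D) =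
          (4 : ℤ) • ((x - y) * (x + y - D)) - (x + x - D) * (x + x - D)
            + (y + y - D) * (y + y - D) := by
        have : (4 : ℤ) • ((x - y) * (x + y - D)) =
            ((x + x - D) - (y + y - D)) * ((x + x - D) + (y + y - D)) := by
          have a1 : (x + x - D) - (y + y - D) = (2 : ℤ) • (x - y) := by rw [two_smul]; abel
          have a2 : (x + x - D) + (y + y - D) = (2 : ℤ) • (x + y - D) := by rw [two_smul]; abel
          rw [a1, a2, smul_mul_smul_comm]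
          norm_num
        rw [this]
        noncomm_ring
      have e3 : (x + x - D) * (x + x - D) = (-(4 * n - normSq D)) • (1 : ℍ[ℤ]) := by
        rw [mul_self_pure (by rw [re_sub, re_add, hx0, hD0]; rfl)]
        congr 1
        rw [normSq_def', normSq_def']
        simp only [re_sub, imI_sub, imJ_sub, imK_sub, re_add, imI_add, imJ_add, imK_add, hx0, hD0]
        linear_combination (-2) * qx - 2 * qxD
      have e4 : (y + y - D) * (y + y - D) = (-(4 * n - normSq D)) • (1 : ℍ[ℤ]) := by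
        rw [mul_self_pure (by rw [re_sub, re_add, hy0, hD0]; rfl)]
        congr 1
        rw [normSq_def', normSq_def']
        simp only [re_sub, imI_sub, imJ_sub, imK_sub, re_add, imI_add, imJ_add, imK_add, hy0, hD0]
        linear_combination (-2) * qy - 2 * qyD
      have e5 : (x + x - D) * (y + y - D) + (y + y - D) * (x + x - D) =
          (-(2 * ((nq (x + y - D) : ℤ) - nq (x - y)))) • (1 : ℍ[ℤ]) := by
        rw [nq_def', nq_def']
        ext
        · simp only [re_add, re_mul, re_sub, imI_sub, imJ_sub, imK_sub, imI_add, imJ_add, imK_add,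
            re_smul, re_one, smul_eq_mul, hx0, hy0, hD0]
          ring
        · simp only [imI_add, imI_mul, re_add, re_sub, imI_sub, imJ_sub, imK_sub, imJ_add, imK_add,
            imI_smul, imI_one, smul_eq_mul, hx0, hy0, hD0]
          ring
        · simp only [imJ_add, imJ_mul, re_add, re_sub, imI_sub, imJ_sub, imK_sub, imI_add, imK_add,
            imJ_smul, imJ_one, smul_eq_mul, hx0, hy0, hD0]
          ring
        · simp only [imK_add, imK_mul, re_add, re_sub, imI_sub, imJ_sub, imK_sub, imI_add, imJ_add,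
            imK_smul, imK_one, smul_eq_mul, hx0, hy0, hD0]
          ring
      rw [e1, e2, e3, e4, e5, h, smul_add, smul_smul, smul_smul, smul_smul, sub_add_cancel]
      congr 1
      · congr 1; ring
      · congr 1; ring
    exact smul_right_injective _ (two_ne_zero : (2 : ℤ) ≠ 0) h2

/-- The relations for integers. -/
private theorem alg {N d δ12 δ23 δ13 g12 g23 g13 : ℤ} (hN : N ≠ 0)
    (r1 : N * δ13 = δ12 * δ23 - 4 * d * g12 * g23) (r2 : N * g13 = δ12 * g23 + g12 * δ23)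
    (r3 : N ^ 2 = δ12 ^ 2 + 4 * d * g12 ^ 2) (r4 : N ^ 2 = δ23 ^ 2 + 4 * d * g23 ^ 2) :
    N * (g13 ^ 2 + g23 ^ 2 - g12 ^ 2) = 2 * δ12 * g13 * g23 ∧
    g13 * ((N + δ12) * (N + δ23) - 4 * d * g12 * g23) =
      (N + δ13) * (g12 * (N + δ23) + g23 * (N + δ12)) := by
  constructor
  · refine mul_left_cancel₀ hN ?_
    have h : (N * g13 - δ12 * g23) ^ 2 = g12 ^ 2 * δ23 ^ 2 := by
      rw [r2]; ring
    linear_combination h + g23 ^ 2 * r3 - g12 ^ 2 * r4
  · have hE : g13 * (δ12 + δ23) = (N + δ13) * (g12 + g23) := by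
      refine mul_left_cancel₀ hN ?_
      linear_combination (δ12 + δ23) * r2 - (g12 + g23) * r1 - g23 * r3 - g12 * r4
    linear_combination N * hE - g13 * r1 + (N + δ13) * r2

theorem triple : S_triple := by
  intro n c v x1 x2 x3 g12 g23 g13 hv0 hv1 hc x10 x20 x30 q1 q2 q3 q1D q2D q3D hne h12 h23 h13
  have hv : v ≠ 0 := by
    rintro rfl; rw [ct_zero] at hv1; exact zero_ne_one hv1
  obtain ⟨s12, m12⟩ := pair_mul hv0 x10 x20 q1 q2 q1D q2D h12
  obtain ⟨s23, m23⟩ := pair_mul hv0 x20 x30 q2 q3 q2D q3D h23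
  obtain ⟨s13, m13⟩ := pair_mul hv0 x10 x30 q1 q3 q1D q3D h13
  obtain ⟨N, hN⟩ : ∃ N : ℤ, N = 4 * n - normSq (c • v) := ⟨_, rfl⟩
  rw [← hN] at s12 s23 s13
  have hN0 : N ≠ 0 := by
    have h1 := nq_pos hne
    have h2 : 0 ≤ (nq (x1 + x2 - c • v) : ℤ) := Int.natCast_nonneg _
    have h3 : (0 : ℤ) < nq (x1 - x2) := by exact_mod_cast h1
    omega
  have hD0 : (c • v).re = 0 := by rw [re_smul, hv0, smul_zero]
  -- the square of `2 x2 - D`
  have w2 : (x2 + x2 - c • v) * (x2 + x2 - c • v) = (-N) • (1 : ℍ[ℤ]) := by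
    rw [mul_self_pure (by rw [re_sub, re_add, x20, hD0]; rfl), hN]
    congr 1
    have qx : (nq x2 : ℤ) = n := by rw [q2]
    have qxD : (nq (c • v - x2) : ℤ) = n := by rw [q2D]
    generalize c • v = D at *
    rw [nq_def'] at qx qxD
    simp only [re_sub, imI_sub, imJ_sub, imK_sub, x20, hD0] at qx qxD
    rw [normSq_def', normSq_def']
    simp only [re_sub, imI_sub, imJ_sub, imK_sub, re_add, imI_add, imJ_add, imK_add, x20, hD0]
    linear_combination (-2) * qx - 2 * qxD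
  obtain ⟨d, hd⟩ : ∃ d : ℤ, d = (nq v : ℤ) := ⟨_, rfl⟩
  have vv : v * v = (-d) • (1 : ℍ[ℤ]) := by rw [mul_self_pure hv0, hd, nq_cast]
  obtain ⟨δ12, hδ12⟩ : ∃ δ : ℤ, δ = (nq (x1 + x2 - c • v) : ℤ) - nq (x1 - x2) := ⟨_, rfl⟩
  obtain ⟨δ23, hδ23⟩ : ∃ δ : ℤ, δ = (nq (x2 + x3 - c • v) : ℤ) - nq (x2 - x3) := ⟨_, rfl⟩
  obtain ⟨δ13, hδ13⟩ : ∃ δ : ℤ, δ = (nq (x1 + x3 - c • v) : ℤ) - nq (x1 - x3) := ⟨_, rfl⟩
  rw [← hδ12] at m12
  rw [← hδ23] at m23
  rw [← hδ13] at m13
  have hprod : ((x1 + x1 - c • v) * (x2 + x2 - c • v)) * ((x2 + x2 - c • v) * (x3 + x3 - c • v))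
      = (-N) • ((x1 + x1 - c • v) * (x3 + x3 - c • v)) := by
    rw [mul_assoc, ← mul_assoc (x2 + x2 - c • v), w2, smul_mul_assoc, one_mul, mul_smul_comm]
  rw [m12, m23, m13] at hprod
  have hexp : ((-δ12) • (1 : ℍ[ℤ]) + (2 * g12) • v) * ((-δ23) • (1 : ℍ[ℤ]) + (2 * g23) • v) =
      (δ12 * δ23 - 4 * d * g12 * g23) • (1 : ℍ[ℤ]) - (2 * (δ12 * g23 + g12 * δ23)) • v := by
    rw [mul_add, add_mul, add_mul, smul_mul_smul_comm, smul_mul_smul_comm, smul_mul_smul_comm,
      smul_mul_smul_comm, vv]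
    simp only [smul_smul, one_mul, mul_one]
    module
  rw [hexp] at hprod
  have h0 : (δ12 * δ23 - 4 * d * g12 * g23 - N * δ13) • (1 : ℍ[ℤ]) =
      (2 * (δ12 * g23 + g12 * δ23) - 2 * (N * g13)) • v := by
    have : (δ12 * δ23 - 4 * d * g12 * g23 - N * δ13) • (1 : ℍ[ℤ]) -
      (2 * (δ12 * g23 + g12 * δ23) - 2 * (N * g13)) • v =
      ((δ12 * δ23 - 4 * d * g12 * g23) • (1 : ℍ[ℤ]) - (2 * (δ12 * g23 + g12 * δ23)) • v) -
      (-N) • ((-δ13) • (1 : ℍ[ℤ]) + (2 * g13) • v) := by module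
    rw [hprod, sub_self] at this
    exact sub_eq_zero.mp this
  obtain ⟨r1, r2⟩ := smul_one_eq hv0 hv h0
  -- the norms
  have hnorm : ∀ {y z : ℍ[ℤ]} {δ g : ℤ}, normSq y = N → normSq z = N →
      y * z = (-δ) • (1 : ℍ[ℤ]) + (2 * g) • v → N ^ 2 = δ ^ 2 + 4 * d * g ^ 2 := by
    intro y z δ g hy hz hyz
    have h1 : normSq (y * z) = N * N := by rw [map_mul, hy, hz]
    rw [hyz, normSq_def'] at h1
    simp only [re_add, imI_add, imJ_add, imK_add, re_smul, imI_smul, imJ_smul, imK_smul, re_one,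
      imI_one, imJ_one, imK_one, smul_eq_mul, hv0] at h1
    have h2 : d = v.imI ^ 2 + v.imJ ^ 2 + v.imK ^ 2 := by
      rw [hd, nq_def', hv0]; ring
    rw [h2]
    linear_combination (-1) * h1
  have hNS : ∀ {x : ℍ[ℤ]}, x.re = 0 → nq x = n → nq (c • v - x) = n →
      normSq (x + x - c • v) = N := by
    intro x hx0 hx hxD
    rw [hN]
    have qx : (nq x : ℤ) = n := by rw [hx]
    have qxD : (nq (c • v - x) : ℤ) = n := by rw [hxD]
    generalize c • v = D at *
    rw [nq_def'] at qx qxD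
    simp only [re_sub, imI_sub, imJ_sub, imK_sub, hx0, hD0] at qx qxD
    rw [normSq_def', normSq_def']
    simp only [re_sub, imI_sub, imJ_sub, imK_sub, re_add, imI_add, imJ_add, imK_add, hx0, hD0]
    linear_combination 2 * qx + 2 * qxD
  have r3 := hnorm (hNS x10 q1 q1D) (hNS x20 q2 q2D) m12
  have r4 := hnorm (hNS x20 q2 q2D) (hNS x30 q3 q3D) m23
  obtain ⟨a1, a2⟩ := alg hN0 (show N * δ13 = δ12 * δ23 - 4 * d * g12 * g23 by linarith)
    (show N * g13 = δ12 * g23 + g12 * δ23 by linarith) r3 r4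
  have e12 : 2 * (nq (x1 + x2 - c • v) : ℤ) = N + δ12 := by rw [hδ12]; linarith
  have e23 : 2 * (nq (x2 + x3 - c • v) : ℤ) = N + δ23 := by rw [hδ23]; linarith
  have e13 : 2 * (nq (x1 + x3 - c • v) : ℤ) = N + δ13 := by rw [hδ13]; linarith
  refine ⟨?_, ?_, ?_, ?_⟩
  · rw [s12, ← hδ12]; exact a1
  · rw [← hd]
    have : (4 : ℤ) * (g13 * ((nq (x1 + x2 - c • v) : ℤ) * nq (x2 + x3 - c • v) - d * g12 * g23)) =
        4 * (nq (x1 + x3 - c • v) * (g12 * nq (x2 + x3 - c • v) + g23 * nq (x1 + x2 - c • v))) := by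
      have f1 : (4 : ℤ) * (g13 * ((nq (x1 + x2 - c • v) : ℤ) * nq (x2 + x3 - c • v)
          - d * g12 * g23)) = g13 * ((2 * (nq (x1 + x2 - c • v) : ℤ)) *
          (2 * (nq (x2 + x3 - c • v) : ℤ)) - 4 * d * g12 * g23) := by ring
      have f2 : 4 * ((nq (x1 + x3 - c • v) : ℤ) * (g12 * nq (x2 + x3 - c • v)
          + g23 * nq (x1 + x2 - c • v))) = (2 * (nq (x1 + x3 - c • v) : ℤ)) *
          (g12 * (2 * (nq (x2 + x3 - c • v) : ℤ)) + g23 * (2 * (nq (x1 + x2 - c • v) : ℤ))) := by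
        ring
      rw [f1, f2, e12, e23, e13]
      exact a2
    linarith
  · rw [s23, s12]
  · rw [s13, s12]

end Pool.Agent.TorusAA
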