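import Pool.Agent.TorusAA.Stmts
import Pool.Agent.TorusAA.Api

/-! The energy bound in one class modulo eight for a non-exceptional number. -/

namespace Pool.Agent.TorusAA

open Quaternion Pool.Agent.TorusL4

theorem core_aa (hg : S_gain) (he : S_energy) (hc : S_ctmul) (δ : ℝ) (hδ : 0 < δ) :
    ∃ K : ℝ, 0 < K ∧ ∀ (S : Finset ℍ[ℤ]) (m : ℕ) (a : ℍ[ℤ] → ℝ), 0 < m → ¬ (4 : ℤ) ∣ m →
      ¬ Exc δ m → (∀ x ∈ S, x.re = 0) → (∀ x ∈ S, normSq x = (m : ℤ)) → (∀ x, 0 ≤ a x) →
      (∀ x, x ∉ S → a x = 0) → (∀ x, a (-x) = a x) →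
      (∀ x y, a x ≠ 0 → a y ≠ 0 → Cong8 x y) → EE S a ≤ K * (∑ x ∈ S, a x ^ 2) ^ 2 := by
  have hl2 : 0 < Real.log 2 := Real.log_pos (by norm_num)
  refine ⟨7 * (5 + 24 / δ) + (6 + 36 / δ), by positivity, ?_⟩
  intro S m a hm hm4 hex hS0 hSn ha haS hneg hcl
  have hmR : (1 : ℝ) ≤ m := by exact_mod_cast hm
  have hlm : 0 ≤ Real.log m := Real.log_nonneg hmR
  have hsq : 0 ≤ (∑ x ∈ S, a x ^ 2) ^ 2 := sq_nonneg _
  have hlog4 : Real.log (4 * (m : ℝ)) = 2 * Real.log 2 + Real.log m := by
    rw [Real.log_mul (by norm_num) (by positivity), show (4 : ℝ) = 2 ^ 2 by norm_num,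
      Real.log_pow]
    push_cast; ring
  -- the gain of every box
  have hgain8 : ∀ x y z, XX a x y z ≠ 0 → 8 * Real.log 2 ≤ gain x y z := by
    intro x y z hX
    obtain ⟨c1, c2, c3, ax, ay, az, aP⟩ := XX_ne_zero hX
    have hS : ∀ w, a w ≠ 0 → w ∈ S := fun w hw => by
      by_contra h; exact hw (haS _ h)
    exact (sep hm4 (hS0 x (hS x ax)) (hS0 y (hS y ay)) (hS0 z (hS z az)) (hSn x (hS x ax))
      (hSn y (hS y ay)) (hSn z (hS z az)) (hSn _ (hS _ aP)) c1 c2 c3 (hcl _ _ aP ax)
      (hcl _ _ aP ay) (hcl _ _ aP az) (Or.inl le_rfl) (Or.inl le_rfl)).1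
  by_cases hbig : 24 * Real.log 2 ≤ δ * Real.log m
  · -- large m
    unfold Exc at hex
    push Not at hex
    obtain ⟨hNS, hD⟩ := hex
    set M := ⌈(m : ℝ) ^ δ⌉₊ with hM
    have hMδ : (m : ℝ) ^ δ ≤ M := Nat.le_ceil _
    have hmδ : 0 < (m : ℝ) ^ δ := Real.rpow_pos_of_pos (by linarith) _
    have hM0 : (0 : ℝ) < M := lt_of_lt_of_le hmδ hMδ
    have hM1 : 1 ≤ M := by
      have : 0 < M := by exact_mod_cast hM0
      exact this
    have hlogM : δ * Real.log m ≤ Real.log M := by
      rw [← Real.log_rpow (by linarith)]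
      exact Real.log_le_log hmδ hMδ
    have hG : 0 < Real.log M - 12 * Real.log 2 := by linarith
    have key := he S m a M (Real.log M - 12 * Real.log 2)
      (fun D => ct D ^ 4 ≤ 4 * M ^ 7 * m) hm hS0 hSn ha haS hneg hG (by
        intro x y z hX
        have h8 := hgain8 x y z hX
        refine ⟨by linarith, ?_⟩
        obtain ⟨c1, c2, c3, ax, ay, az, aP⟩ := XX_ne_zero hX
        have hS : ∀ w, a w ≠ 0 → w ∈ S := fun w hw => by
          by_contra h; exact hw (haS _ h)
        have hn : ∀ w ∈ S, nq w = m := fun w hw => by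
          have := hSn w hw
          rw [← nq_cast] at this
          exact_mod_cast this
        have hb := box_of_points (hS0 x (hS x ax)) (hS0 y (hS y ay)) (hS0 z (hS z az))
          (hn x (hS x ax)) (hn y (hS y ay)) (hn z (hS z az)) (hn _ (hS _ aP)) c1 c2 c3
        rcases hg _ _ _ M hb.toOB hM1 with h | h
        · left
          exact h.swap12.swap23.swap12
        · right
          exact h) (by
        intro u1 u2 u3 hb hgd hA
        have h := hc m M u1 u2 u3 hm hb hgd hNS
        show ct u1 ^ 4 ≤ 4 * M ^ 7 * m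
        have hA' : 4 * M ^ 7 * m < ct u3 ^ 4 := not_le.mp hA
        by_contra hcon
        push Not at hcon
        have h1 : (4 * M ^ 7 * m) * (4 * M ^ 7 * m) < ct u1 ^ 4 * ct u3 ^ 4 :=
          Nat.mul_lt_mul'' hcon hA'
        have h2 : ct u1 ^ 4 * ct u3 ^ 4 = (ct u1 * ct u3) ^ 2 * (ct u1 * ct u3) ^ 2 := by ring
        rw [h2] at h1
        exact absurd (Nat.mul_le_mul h h) (not_le.mpr h1)) (by
        intro D hD0 hDne hDA
        exact hD D hD0 hDne hDA)
    refine le_trans key (mul_le_mul_of_nonneg_right ?_ hsq)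
    have h1 : 12 * Real.log (4 * m) / (Real.log M - 12 * Real.log 2) ≤ 2 + 24 / δ := by
      rw [div_le_iff₀ hG, hlog4]
      have h2 : δ / 2 * Real.log m ≤ Real.log M - 12 * Real.log 2 := by linarith
      have h3 : (2 + 24 / δ) * (δ / 2 * Real.log m) ≤
          (2 + 24 / δ) * (Real.log M - 12 * Real.log 2) :=
        mul_le_mul_of_nonneg_left h2 (by positivity)
      have h4 : (2 + 24 / δ) * (δ / 2 * Real.log m) = δ * Real.log m + 12 * Real.log m := by
        field_simp
        ring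
      linarith
    have h5 : 0 ≤ 36 / δ := by positivity
    linarith
  · -- small m
    push Not at hbig
    have key := core_gen S m (by exact_mod_cast hm) a hS0 hSn ha haS hneg (8 * Real.log 2)
      (by positivity) (fun x _ y _ z _ hX => hgain8 x y z hX)
    refine le_trans key (mul_le_mul_of_nonneg_right ?_ hsq)
    have h1 : Real.log m < 24 * Real.log 2 / δ := by
      rw [lt_div_iff₀ hδ]; linarith
    have h2 : 12 * Real.log (4 * ((m : ℤ) : ℝ)) / (8 * Real.log 2) ≤ 3 + 36 / δ := by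
      rw [div_le_iff₀ (by positivity), Int.cast_natCast, hlog4]
      have h3 : (3 + 36 / δ) * (8 * Real.log 2) =
          24 * Real.log 2 + 12 * (24 * Real.log 2 / δ) := by
        field_simp
        ring
      rw [h3]
      linarith
    have h5 : 0 ≤ 24 / δ := by positivity
    linarith

end Pool.Agent.TorusAA
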