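import Pool.Agent.TorusL4.UpperSym

/-! Uniform `L^4` bounds for almost all eigenvalues of `T^3`: definitions.

A box inscribed in the sphere `|x|^2 = n` has three pairwise orthogonal sides `u1, u2, u3`
(pure integer quaternions) with `|u1|^2 + |u2|^2 + |u3|^2 = 4 n`. -/

namespace Pool.Agent.TorusAA

open Quaternion Pool.Agent.TorusL4

/-- `ct (x y) / gcd (ct (x y), |y|^2)`: for orthogonal pure `x, y` this is the numerator of the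
rational number `tan θ / |v|`, where `tan θ = |x| / |y|` and `v` is the primitive vector orthogonal
to `x` and `y`. -/
def al (x y : ℍ[ℤ]) : ℕ := ct (x * y) / Nat.gcd (ct (x * y)) (nq y)

/-- Two sides are balanced up to the factor `M`. -/
def G2 (M : ℕ) (x y : ℍ[ℤ]) : Prop :=
  al x y ≤ M ∧ al y x ≤ M ∧ nq x ≤ M * nq y ∧ nq y ≤ M * nq x

/-- The box with sides `u1, u2, u3` is good. -/
def Gd (M : ℕ) (u1 u2 u3 : ℍ[ℤ]) : Prop := G2 M u1 u2 ∧ G2 M u1 u3 ∧ G2 M u2 u3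

/-- Three nonzero pairwise orthogonal pure quaternions. -/
structure OB (u1 u2 u3 : ℍ[ℤ]) : Prop where
  r1 : u1.re = 0
  r2 : u2.re = 0
  r3 : u3.re = 0
  d12 : dot u1 u2 = 0
  d13 : dot u1 u3 = 0
  d23 : dot u2 u3 = 0
  n1 : u1 ≠ 0
  n2 : u2 ≠ 0
  n3 : u3 ≠ 0

/-- The sides of a box inscribed in the sphere `|x|^2 = n`. -/
structure Box (n : ℕ) (u1 u2 u3 : ℍ[ℤ]) : Prop extends OB u1 u2 u3 where
  sum : nq u1 + nq u2 + nq u3 = 4 * n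

/-- Five points on the circle `|x|^2 = |D - x|^2 = n` any two of which span a good box with the
side `D`. -/
def Clq (n M : ℕ) (D : ℍ[ℤ]) : Prop := ∃ x : Fin 5 → ℍ[ℤ],
  (∀ i, (x i).re = 0 ∧ nq (x i) = n ∧ nq (D - x i) = n) ∧
  ∀ i j, i ≠ j → x i - x j ≠ 0 ∧ x i + x j - D ≠ 0 ∧ Gd M D (x i - x j) (x i + x j - D)

/-- No large square divides `4 n`. -/
def NS (Z n : ℕ) : Prop := ∀ m : ℕ, m ^ 2 ∣ 4 * n → m ≤ Z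

theorem G2.symm {M : ℕ} {x y : ℍ[ℤ]} (h : G2 M x y) : G2 M y x :=
  ⟨h.2.1, h.1, h.2.2.2, h.2.2.1⟩

theorem dot_comm' (x y : ℍ[ℤ]) : dot x y = dot y x := by unfold dot; ring

theorem Gd.swap12 {M : ℕ} {u1 u2 u3 : ℍ[ℤ]} (h : Gd M u1 u2 u3) : Gd M u2 u1 u3 :=
  ⟨h.1.symm, h.2.2, h.2.1⟩

theorem Gd.swap23 {M : ℕ} {u1 u2 u3 : ℍ[ℤ]} (h : Gd M u1 u2 u3) : Gd M u1 u3 u2 :=
  ⟨h.2.1, h.1, h.2.2.symm⟩

theorem OB.swap12 {u1 u2 u3 : ℍ[ℤ]} (h : OB u1 u2 u3) : OB u2 u1 u3 :=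
  ⟨h.r2, h.r1, h.r3, by rw [dot_comm']; exact h.d12, h.d23, h.d13, h.n2, h.n1, h.n3⟩

theorem OB.swap23 {u1 u2 u3 : ℍ[ℤ]} (h : OB u1 u2 u3) : OB u1 u3 u2 :=
  ⟨h.r1, h.r3, h.r2, h.d13, h.d12, by rw [dot_comm']; exact h.d23, h.n1, h.n3, h.n2⟩

theorem Box.swap12 {n : ℕ} {u1 u2 u3 : ℍ[ℤ]} (h : Box n u1 u2 u3) : Box n u2 u1 u3 :=
  ⟨h.toOB.swap12, by have := h.sum; omega⟩

theorem Box.swap23 {n : ℕ} {u1 u2 u3 : ℍ[ℤ]} (h : Box n u1 u2 u3) : Box n u1 u3 u2 :=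
  ⟨h.toOB.swap23, by have := h.sum; omega⟩

theorem G2.mono {M M' : ℕ} (hM : M ≤ M') {x y : ℍ[ℤ]} (h : G2 M x y) : G2 M' x y :=
  ⟨h.1.trans hM, h.2.1.trans hM, h.2.2.1.trans (Nat.mul_le_mul_right _ hM),
    h.2.2.2.trans (Nat.mul_le_mul_right _ hM)⟩

theorem Gd.mono {M M' : ℕ} (hM : M ≤ M') {u1 u2 u3 : ℍ[ℤ]} (h : Gd M u1 u2 u3) :
    Gd M' u1 u2 u3 := ⟨h.1.mono hM, h.2.1.mono hM, h.2.2.mono hM⟩

theorem Clq.mono {n M M' : ℕ} (hM : M ≤ M') {D : ℍ[ℤ]} (h : Clq n M D) : Clq n M' D := by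
  obtain ⟨x, h1, h2⟩ := h
  exact ⟨x, h1, fun i j hij => ⟨(h2 i j hij).1, (h2 i j hij).2.1, (h2 i j hij).2.2.mono hM⟩⟩

/-- The arithmetic data of a pair of points: `P, Q` are the squared lengths of the two sides
orthogonal to `D = c v`, `|v|^2 = d`, and `g` is the absolute value of the coefficient of `v` in
their product. -/
structure PD (Z c d P Q g α β e e' f s : ℕ) : Prop where
  α1 : 1 ≤ α
  αZ : α ≤ Z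
  β1 : 1 ≤ β
  βZ : β ≤ Z
  e0 : 0 < e
  e'0 : 0 < e'
  f0 : 0 < f
  ee : e * e' = d
  hP : P = α ^ 2 * e' * f
  hQ : Q = β ^ 2 * e * f
  hg : g = α * β * f
  cα : Nat.Coprime α (β * e)
  cβ : Nat.Coprime β (α * e')
  ω : Nat.gcd e e' ≤ Z
  b1 : e ≤ Z ^ 3 * e'
  b2 : e' ≤ Z ^ 3 * e
  s1 : 1 ≤ s
  sZ : s ≤ Z ^ 2
  hc : c * (β ^ 2 * e + α ^ 2 * e') ∣ s * (P + Q)

/-- The integer `d` is a product of four factors of size about `d^(1/4)` satisfying a linear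
relation with small coefficients. -/
def Lin (Z d : ℕ) : Prop := ∃ (r s t u : ℕ) (A B C E : ℤ), 0 < r ∧ 0 < s ∧ 0 < t ∧ 0 < u ∧
  d = r * s * t * u ∧ B ≠ 0 ∧ A * r - B * u = C * t + E * s ∧
  |A| ≤ Z ^ 18 ∧ |B| ≤ Z ^ 18 ∧ |C| ≤ Z ^ 18 ∧ |E| ≤ Z ^ 18 ∧
  r ^ 4 ≤ Z ^ 41 * d ∧ s ^ 4 ≤ Z ^ 41 * d ∧ t ^ 4 ≤ Z ^ 41 * d

/-- The pairs `i < j` of indices. -/
def prs : Finset (Fin 5 × Fin 5) := Finset.univ.filter fun p => p.1 < p.2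

/-- The arithmetic consequences of a clique: `D = c v`, `|v|^2 = d`, `4 n = c^2 d + N`. -/
def Cfg (Z c d N : ℕ) : Prop :=
  0 < N ∧ Lin Z d ∧ N ≤ 2 * Z * (c ^ 2 * d) ∧
  ∃ α β e s : Fin 5 × Fin 5 → ℕ,
    (∀ p ∈ prs, 1 ≤ α p ∧ α p ≤ Z ∧ 1 ≤ β p ∧ β p ≤ Z ∧ e p ∣ d ∧ 1 ≤ s p ∧ s p ≤ Z ^ 2 ∧
      c * (β p ^ 2 * e p + α p ^ 2 * (d / e p)) ∣ s p * N ∧
      d ≤ Z ^ 3 * (β p ^ 2 * e p + α p ^ 2 * (d / e p)) ^ 2) ∧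
    ∀ L : ℕ, 0 < L → (∀ p ∈ prs, (β p ^ 2 * e p + α p ^ 2 * (d / e p)) ∣ L) →
      ∏ p ∈ prs, (β p ^ 2 * e p + α p ^ 2 * (d / e p)) ≤ (4 * Z ^ 5) ^ 10 * L ^ 6

end Pool.Agent.TorusAA
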