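import Pool.Agent.TorusAA.Scaled

/-! The final theorem: uniform `L^4` bound and trace inequality for almost all eigenvalues. -/

namespace Pool.Agent.TorusAA

open Quaternion MeasureTheory Pool.Agent.TorusL4

/-- The exceptional set. -/
def ExcN (δ : ℝ) : Set ℕ := {n | ∃ k m : ℕ, n = 4 ^ k * m ∧ 0 < m ∧ ¬ 4 ∣ m ∧ Exc δ m}

theorem excN_sub (δ : ℝ) (X : ℕ) : {n : ℕ | 1 ≤ n ∧ n ≤ X ∧ n ∈ ExcN δ} ⊆
    {n : ℕ | 1 ≤ n ∧ n ≤ X ∧ Exc δ n} ∪
      (fun n => 4 * n) '' {n : ℕ | 1 ≤ n ∧ n ≤ X / 4 ∧ n ∈ ExcN δ} := by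
  rintro n ⟨h1, h2, k, m, h3, h4, h5, h6⟩
  rcases k with _ | k
  · left
    rw [pow_zero, one_mul] at h3
    subst h3
    exact ⟨h1, h2, h6⟩
  · right
    refine ⟨4 ^ k * m, ⟨?_, ?_, k, m, rfl, h4, h5, h6⟩, ?_⟩
    · exact Nat.mul_pos (by positivity) h4
    · rw [Nat.le_div_iff_mul_le (by norm_num)]
      rw [h3, pow_succ] at h2
      nlinarith
    · show 4 * (4 ^ k * m) = n
      rw [h3, pow_succ]; ring

theorem finite_le (X : ℕ) (P : ℕ → Prop) : {n : ℕ | 1 ≤ n ∧ n ≤ X ∧ P n}.Finite :=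
  (Set.finite_Iic X).subset fun _ hn => hn.2.1

theorem excN_count {δ η C : ℝ} (hη : 0 < η) (hη2 : η ≤ 1 / 2) (hC : 0 < C)
    (h : ∀ X : ℕ, 1 ≤ X →
      (Nat.card {n : ℕ | 1 ≤ n ∧ n ≤ X ∧ Exc δ n} : ℝ) ≤ C * (X : ℝ) ^ (1 - η)) (X : ℕ) :
    (Nat.card {n : ℕ | 1 ≤ n ∧ n ≤ X ∧ n ∈ ExcN δ} : ℝ) ≤ 2 * C * (X : ℝ) ^ (1 - η) := by
  induction X using Nat.strong_induction_on with
  | _ X ih =>
    rcases Nat.eq_zero_or_pos X with rfl | hX
    · have : {n : ℕ | 1 ≤ n ∧ n ≤ 0 ∧ n ∈ ExcN δ} = ∅ := by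
        refine Set.eq_empty_of_forall_notMem ?_
        rintro n ⟨h1, h2, _⟩
        omega
      rw [Nat.card_coe_set_eq, this, Set.ncard_empty, Nat.cast_zero]
      exact mul_nonneg (by linarith) (Real.rpow_nonneg (by norm_num) _)
    · have h1 := ih (X / 4) (Nat.div_lt_self hX (by norm_num))
      have h2 := h X hX
      have h3 : Nat.card {n : ℕ | 1 ≤ n ∧ n ≤ X ∧ n ∈ ExcN δ} ≤
          Nat.card {n : ℕ | 1 ≤ n ∧ n ≤ X ∧ Exc δ n} +
          Nat.card {n : ℕ | 1 ≤ n ∧ n ≤ X / 4 ∧ n ∈ ExcN δ} := by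
        rw [Nat.card_coe_set_eq, Nat.card_coe_set_eq, Nat.card_coe_set_eq]
        refine le_trans (Set.ncard_le_ncard (excN_sub δ X) ?_) ?_
        · exact (finite_le X _).union ((finite_le (X / 4) _).image _)
        · refine le_trans (Set.ncard_union_le _ _) ?_
          exact Nat.add_le_add_left (Set.ncard_image_le (finite_le (X / 4) _)) _
      have h4 : (Nat.card {n : ℕ | 1 ≤ n ∧ n ≤ X ∧ n ∈ ExcN δ} : ℝ) ≤
          Nat.card {n : ℕ | 1 ≤ n ∧ n ≤ X ∧ Exc δ n} +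
          Nat.card {n : ℕ | 1 ≤ n ∧ n ≤ X / 4 ∧ n ∈ ExcN δ} := by exact_mod_cast h3
      have hX0 : (0 : ℝ) < X := by exact_mod_cast hX
      have h5 : (((X / 4 : ℕ) : ℝ)) ^ (1 - η) ≤ (X : ℝ) ^ (1 - η) / 2 := by
        have h6 : (((X / 4 : ℕ) : ℝ)) ≤ X / 4 := Nat.cast_div_le
        refine le_trans (Real.rpow_le_rpow (by positivity) h6 (by linarith)) ?_
        rw [Real.div_rpow hX0.le (by norm_num)]
        have h7 : (2 : ℝ) ≤ 4 ^ (1 - η) := by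
          calc (2 : ℝ) = 4 ^ (1 / 2 : ℝ) := by
                rw [show (4 : ℝ) = 2 ^ (2 : ℝ) by norm_num, ← Real.rpow_mul (by norm_num)]
                norm_num
            _ ≤ _ := Real.rpow_le_rpow_of_exponent_le (by norm_num) (by linarith)
        exact div_le_div_of_nonneg_left (by positivity) (by norm_num) h7
      calc (Nat.card {n : ℕ | 1 ≤ n ∧ n ≤ X ∧ n ∈ ExcN δ} : ℝ)
          ≤ C * (X : ℝ) ^ (1 - η) + 2 * C * ((X / 4 : ℕ) : ℝ) ^ (1 - η) := by linarith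
        _ ≤ C * (X : ℝ) ^ (1 - η) + 2 * C * ((X : ℝ) ^ (1 - η) / 2) := by gcongr
        _ = 2 * C * (X : ℝ) ^ (1 - η) := by ring

/-- Cauchy-Schwarz with a density. -/
theorem trace_of_L4 {C : ℝ} (hC : 0 ≤ C) (u : (Fin 3 → ℝ) → ℂ) (hu : Continuous u)
    (h4 : ∫ x in cube, ‖u x‖ ^ 4 ≤ C ^ 2 * (∫ x in cube, ‖u x‖ ^ 2) ^ 2)
    (f : (Fin 3 → ℝ) → ℝ) (hf : MemLp f 2 (volume.restrict cube)) :
    ∫ x in cube, |f x| * ‖u x‖ ^ 2 ≤
      C * (∫ x in cube, f x ^ 2) ^ (1 / 2 : ℝ) * ∫ x in cube, ‖u x‖ ^ 2 := by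
  have h2 : (0 : ℝ) ≤ ∫ x in cube, ‖u x‖ ^ 2 :=
    integral_nonneg fun x => by positivity
  have hg : MemLp (fun x => ‖u x‖ ^ 2) 2 (volume.restrict cube) := by
    have hc : Continuous fun x => ‖u x‖ ^ 2 := hu.norm.pow 2
    exact (memLp_two_iff_integrable_sq hc.aestronglyMeasurable).mpr (cont_int (hc.pow 2))
  have h := integral_mul_le_Lp_mul_Lq_of_nonneg (μ := volume.restrict cube)
    (p := 2) (q := 2) (f := fun x => |f x|) (g := fun x => ‖u x‖ ^ 2)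
    ⟨by norm_num, by norm_num, by norm_num⟩
    (Filter.Eventually.of_forall fun x => abs_nonneg _)
    (Filter.Eventually.of_forall fun x => by positivity)
    (by
      have := hf.abs
      have e : (ENNReal.ofReal 2) = 2 := by simp
      rw [e]; exact this)
    (by
      have e : (ENNReal.ofReal 2) = 2 := by simp
      rw [e]; exact hg)
  refine le_trans h ?_
  have e1 : ∫ x in cube, |f x| ^ (2 : ℝ) = ∫ x in cube, f x ^ 2 := by
    refine integral_congr_ae (Filter.Eventually.of_forall fun x => ?_)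
    show |f x| ^ (2 : ℝ) = f x ^ 2
    rw [Real.rpow_two, sq_abs]
  have e2 : ∫ x in cube, (‖u x‖ ^ 2) ^ (2 : ℝ) = ∫ x in cube, ‖u x‖ ^ 4 := by
    refine integral_congr_ae (Filter.Eventually.of_forall fun x => ?_)
    show (‖u x‖ ^ 2) ^ (2 : ℝ) = ‖u x‖ ^ 4
    rw [Real.rpow_two]; ring
  rw [e1, e2]
  have e3 : (∫ x in cube, ‖u x‖ ^ 4) ^ (1 / 2 : ℝ) ≤ C * ∫ x in cube, ‖u x‖ ^ 2 := by
    have h0 : (0 : ℝ) ≤ ∫ x in cube, ‖u x‖ ^ 4 := integral_nonneg fun x => by positivity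
    calc (∫ x in cube, ‖u x‖ ^ 4) ^ (1 / 2 : ℝ)
        ≤ (C ^ 2 * (∫ x in cube, ‖u x‖ ^ 2) ^ 2) ^ (1 / 2 : ℝ) :=
          Real.rpow_le_rpow h0 h4 (by norm_num)
      _ = C * ∫ x in cube, ‖u x‖ ^ 2 := by
          rw [← mul_pow, ← Real.sqrt_eq_rpow, Real.sqrt_sq (by positivity)]
  have e4 : 0 ≤ (∫ x in cube, f x ^ 2) ^ (1 / 2 : ℝ) :=
    Real.rpow_nonneg (integral_nonneg fun x => by positivity) _
  calc (∫ x in cube, f x ^ 2) ^ (1 / 2 : ℝ) * (∫ x in cube, ‖u x‖ ^ 4) ^ (1 / 2 : ℝ)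
      ≤ (∫ x in cube, f x ^ 2) ^ (1 / 2 : ℝ) * (C * ∫ x in cube, ‖u x‖ ^ 2) :=
        mul_le_mul_of_nonneg_left e3 e4
    _ = _ := by ring

theorem eigen_cont {n : ℕ} {u : (Fin 3 → ℝ) → ℂ} (hu : IsEigen n u) : Continuous u := by
  obtain ⟨s, c, _, h⟩ := hu
  rw [funext h]
  exact continuous_finsetSum _ fun k _ => continuous_const.mul (ex_cont k)

theorem eigen_zero {u : (Fin 3 → ℝ) → ℂ} (hu : IsEigen 0 u) :
    ∫ x in cube, ‖u x‖ ^ 4 ≤ (∫ x in cube, ‖u x‖ ^ 2) ^ 2 := by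
  obtain ⟨s, c, hs, h⟩ := hu
  have h0 : ∀ k ∈ s, k = 0 := by
    intro k hk
    have := hs k hk
    ext i
    have h1 : k i ^ 2 ≤ ∑ i, k i ^ 2 :=
      Finset.single_le_sum (f := fun i => k i ^ 2) (fun _ _ => sq_nonneg _) (Finset.mem_univ i)
    rw [this] at h1
    have h2 : k i ^ 2 = 0 := le_antisymm h1 (sq_nonneg _)
    exact pow_eq_zero_iff (two_ne_zero) |>.mp h2
  have h1 : ∀ x, u x = ∑ k ∈ s, c k := by
    intro x
    rw [h x]
    refine Finset.sum_congr rfl fun k hk => ?_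
    rw [h0 k hk, ex_zero, mul_one]
  have hvol : (volume.restrict cube).real Set.univ = (2 * Real.pi) ^ 3 := by
    have h2 := int_L2 {0} (fun _ => 1)
    simp only [Finset.sum_singleton, ex_zero, mul_one, norm_one, one_pow] at h2
    rw [integral_const, smul_eq_mul, mul_one] at h2
    exact h2
  simp_rw [h1]
  rw [integral_const, integral_const, hvol, smul_eq_mul, smul_eq_mul]
  have := two_pi_cube
  have h4 : (0 : ℝ) ≤ ‖∑ k ∈ s, c k‖ ^ 4 := by positivity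
  nlinarith

/-- The main theorem, from the statements of the packages. -/
theorem main_aa (hg : S_gain) (he : S_energy) (hc : S_ctmul) (hx : S_exc) :
    ∃ (η C : ℝ) (E : Set ℕ), 0 < η ∧ (∀ X : ℕ, 1 ≤ X →
        (Nat.card {n : ℕ | 1 ≤ n ∧ n ≤ X ∧ n ∈ E} : ℝ) ≤ C * (X : ℝ) ^ (1 - η)) ∧
      ∀ (n : ℕ) (u : (Fin 3 → ℝ) → ℂ), n ∉ E → IsEigen n u →
        ∫ x in cube, ‖u x‖ ^ 4 ≤ C * (∫ x in cube, ‖u x‖ ^ 2) ^ 2 ∧
        ∀ f : (Fin 3 → ℝ) → ℝ, MemLp f 2 (volume.restrict cube) →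
          ∫ x in cube, |f x| * ‖u x‖ ^ 2 ≤
            C * (∫ x in cube, f x ^ 2) ^ (1 / 2 : ℝ) * ∫ x in cube, ‖u x‖ ^ 2 := by
  obtain ⟨δ, η, C, hδ, hη, hη2, hC, hcount⟩ := hx
  obtain ⟨K, hK, hcore⟩ := core_aa hg he hc δ hδ
  have hcb : ∀ m : ℕ, 0 < m → ¬ (4 : ℤ) ∣ m → ¬ Exc δ m → CoreBd K m :=
    fun m h1 h2 h3 S a => hcore S m a h1 h2 h3
  obtain ⟨B, hB⟩ : ∃ B : ℝ, B = max (2 * C) (max 1 (512 ^ 3 * 16 * K)) := ⟨_, rfl⟩
  have hB1 : 2 * C ≤ B := hB ▸ le_max_left _ _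
  have hB2 : 1 ≤ B := hB ▸ (le_max_left _ _).trans (le_max_right _ _)
  have hB3 : 512 ^ 3 * 16 * K ≤ B := hB ▸ (le_max_right _ _).trans (le_max_right _ _)
  refine ⟨η, B, ExcN δ, hη, ?_, ?_⟩
  · intro X _
    refine le_trans (excN_count hη hη2 hC hcount X) ?_
    gcongr
  · intro n u hn hu
    have hL4 : ∫ x in cube, ‖u x‖ ^ 4 ≤ B * (∫ x in cube, ‖u x‖ ^ 2) ^ 2 := by
      rcases Nat.eq_zero_or_pos n with rfl | hn0
      · refine le_trans (eigen_zero hu) ?_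
        have : (0 : ℝ) ≤ (∫ x in cube, ‖u x‖ ^ 2) ^ 2 := sq_nonneg _
        nlinarith
      · obtain ⟨k, m, hm, hm4, hnm⟩ := exists_four_pow n hn0
        lift m to ℕ using hm.le
        have hm0 : 0 < m := by exact_mod_cast hm
        have hnm' : n = 4 ^ k * m := by exact_mod_cast hnm
        subst hnm'
        have hex : ¬ Exc δ m := by
          intro h
          exact hn ⟨k, m, rfl, hm0, fun h4 => hm4 (by exact_mod_cast h4), h⟩
        refine le_trans (eigen_aa hK.le k m (hcb m hm0 hm4 hex) u hu) ?_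
        exact mul_le_mul_of_nonneg_right hB3 (sq_nonneg _)
    refine ⟨hL4, ?_⟩
    intro f hf
    refine trace_of_L4 (by linarith) u (eigen_cont hu) (le_trans hL4 ?_) f hf
    exact mul_le_mul_of_nonneg_right (by nlinarith) (sq_nonneg _)

end Pool.Agent.TorusAA
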