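import Pool.Agent.TorusAA.Core
import Pool.Agent.TorusL4.Final

/-! Removing powers of four, and the `L^4` bound for exponential sums. -/

namespace Pool.Agent.TorusAA

open Quaternion MeasureTheory Pool.Agent.TorusL4

/-- The conclusion of `core_aa` for one number `m`. -/
def CoreBd (K : ℝ) (m : ℕ) : Prop := ∀ (S : Finset ℍ[ℤ]) (a : ℍ[ℤ] → ℝ),
  (∀ x ∈ S, x.re = 0) → (∀ x ∈ S, normSq x = (m : ℤ)) → (∀ x, 0 ≤ a x) →
  (∀ x, x ∉ S → a x = 0) → (∀ x, a (-x) = a x) →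
  (∀ x y, a x ≠ 0 → a y ≠ 0 → Cong8 x y) → EE S a ≤ K * (∑ x ∈ S, a x ^ 2) ^ 2

theorem scaled_aa {K : ℝ} (k m : ℕ) (hcore : CoreBd K m) (S : Finset ℍ[ℤ])
    (a : ℍ[ℤ] → ℝ) (hS0 : ∀ x ∈ S, x.re = 0) (hSn : ∀ x ∈ S, normSq x = 4 ^ k * (m : ℤ))
    (ha : ∀ x, 0 ≤ a x) (haS : ∀ x, x ∉ S → a x = 0) (hneg : ∀ x, a (-x) = a x)
    (hcl : ∀ x y, a x ≠ 0 → a y ≠ 0 → (∃ w : ℍ[ℤ], x - y = (8 * 2 ^ k : ℤ) • w) ∨
      (∃ w : ℍ[ℤ], x + y = (8 * 2 ^ k : ℤ) • w)) :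
    EE S a ≤ K * (∑ x ∈ S, a x ^ 2) ^ 2 := by
  have h2k : (2 ^ k : ℤ) ≠ 0 := by positivity
  have hinj : Function.Injective (fun x : ℍ[ℤ] => (2 ^ k : ℤ) • x) :=
    fun x y h => smul_right_injective _ h2k h
  set S' := S.preimage (fun x : ℍ[ℤ] => (2 ^ k : ℤ) • x) (hinj.injOn) with hS'
  have hmem : ∀ x, x ∈ S' ↔ (2 ^ k : ℤ) • x ∈ S := fun x => Finset.mem_preimage
  have hsum : ∀ f : ℍ[ℤ] → ℝ, ∑ x ∈ S, f x = ∑ x ∈ S', f ((2 ^ k : ℤ) • x) := by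
    intro f
    rw [hS', Finset.sum_preimage (fun x : ℍ[ℤ] => (2 ^ k : ℤ) • x) S hinj.injOn f]
    intro x hx hx'
    obtain ⟨y, _, rfl⟩ := pow_of_four_pow_dvd k m (hS0 x hx) (hSn x hx)
    exact absurd ⟨y, rfl⟩ hx'
  have e1 : EE S a = EE S' (fun x => a ((2 ^ k : ℤ) • x)) := by
    unfold EE
    rw [hsum]
    refine Finset.sum_congr rfl fun x _ => ?_
    rw [hsum]
    refine Finset.sum_congr rfl fun y _ => ?_
    rw [hsum]
    refine Finset.sum_congr rfl fun z _ => ?_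
    show _ = a ((2 ^ k : ℤ) • x) * a ((2 ^ k : ℤ) • y) * a ((2 ^ k : ℤ) • z) *
      a ((2 ^ k : ℤ) • (x + y + z))
    rw [smul_add, smul_add]
  have key := hcore S' (fun x => a ((2 ^ k : ℤ) • x))
    (by
      intro x hx
      have := hS0 _ ((hmem x).mp hx)
      rw [re_smul, smul_eq_mul] at this
      exact (mul_eq_zero.mp this).resolve_left h2k)
    (by
      intro x hx
      have := hSn _ ((hmem x).mp hx)
      rw [normSq_smul] at this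
      have h4 : ((2 : ℤ) ^ k) ^ 2 = 4 ^ k := by rw [← pow_mul, mul_comm, pow_mul]; norm_num
      rw [h4] at this
      exact mul_left_cancel₀ (by positivity) this)
    (fun x => ha _)
    (fun x hx => haS _ (fun h => hx ((hmem x).mpr h)))
    (fun x => by rw [smul_neg, hneg])
    (by
      intro x y hx hy
      rcases hcl _ _ hx hy with ⟨w, hw⟩ | ⟨w, hw⟩
      · left
        refine ⟨w, smul_right_injective _ h2k ?_⟩
        simp only
        rw [smul_sub, hw, smul_smul]; congr 1; ring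
      · right
        refine ⟨w, smul_right_injective _ h2k ?_⟩
        simp only
        rw [smul_add, hw, smul_smul]; congr 1; ring)
  rw [e1, hsum (fun x => a x ^ 2)]
  exact key

theorem one_class_aa {K : ℝ} (hK : 0 ≤ K) (k m : ℕ) (hcore : CoreBd K m)
    (s : Finset (Fin 3 → ℤ)) (c : (Fin 3 → ℤ) → ℂ) (hs : ∀ x ∈ s, ∑ i, x i ^ 2 = 4 ^ k * (m : ℤ))
    (hcl : ∀ x ∈ s, ∀ y ∈ s, ∀ i, (8 * 2 ^ k : ℤ) ∣ x i - y i) :
    ∫ x in cube, ‖∑ k ∈ s, c k * ex k x‖ ^ 4 ≤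
      (2 * Real.pi) ^ 3 * (16 * K * (∑ k ∈ s, ‖c k‖ ^ 2) ^ 2) := by
  refine le_trans (int_L4 s c) ?_
  refine mul_le_mul_of_nonneg_left ?_ (by positivity)
  refine le_trans (EV_le s c) ?_
  have hdiv : ∀ x ∈ s, ∀ y ∈ s, ∃ w : ℍ[ℤ], toQ x - toQ y = (8 * 2 ^ k : ℤ) • w := by
    intro x hx y hy
    have h := hcl x hx y hy
    choose w hw using h
    refine ⟨toQ w, ?_⟩
    rw [← toQ_sub]
    ext
    · rw [re_smul, toQ_re, toQ_re]; simp
    · rw [imI_smul, smul_eq_mul]; exact hw 0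
    · rw [imJ_smul, smul_eq_mul]; exact hw 1
    · rw [imK_smul, smul_eq_mul]; exact hw 2
  have hrep : ∀ x : ℍ[ℤ], aq s c x ≠ 0 → ∃ v ∈ s, x = toQ v ∨ x = -toQ v := by
    intro x hx
    obtain ⟨h1, h2 | h2⟩ := aq_ne_zero s c hx
    · exact ⟨toV x, h2, Or.inl (toQ_toV h1).symm⟩
    · refine ⟨-toV x, h2, Or.inr ?_⟩
      rw [toQ_neg, neg_neg, toQ_toV h1]
  have key := scaled_aa k m hcore (SQ s) (aq s c) (SQ_re s) (SQ_norm s hs) (aq_nonneg s c)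
    (aq_support s c) (aq_neg s c) (by
      intro x y hx hy
      obtain ⟨v, hv, rfl | rfl⟩ := hrep x hx <;> obtain ⟨w, hw, rfl | rfl⟩ := hrep y hy
      · exact Or.inl (hdiv v hv w hw)
      · right
        rw [← sub_eq_add_neg]
        exact hdiv v hv w hw
      · right
        obtain ⟨z, hz⟩ := hdiv w hw v hv
        exact ⟨z, by rw [← hz]; abel⟩
      · left
        obtain ⟨z, hz⟩ := hdiv w hw v hv
        exact ⟨z, by rw [← hz]; abel⟩)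
  refine le_trans key ?_
  have h1 := sum_aq_sq s c
  have h2 : 0 ≤ ∑ x ∈ SQ s, aq s c x ^ 2 := Finset.sum_nonneg fun _ _ => sq_nonneg _
  have h3 : (∑ x ∈ SQ s, aq s c x ^ 2) ^ 2 ≤ (4 * ∑ k ∈ s, ‖c k‖ ^ 2) ^ 2 :=
    pow_le_pow_left₀ h2 h1 2
  calc K * (∑ x ∈ SQ s, aq s c x ^ 2) ^ 2
      ≤ K * (4 * ∑ k ∈ s, ‖c k‖ ^ 2) ^ 2 := mul_le_mul_of_nonneg_left h3 hK
    _ = _ := by ring

/-- The `L^4` bound in terms of the coefficients. -/
theorem L4_aa {K : ℝ} (hK : 0 ≤ K) (e m : ℕ) (hcore : CoreBd K m)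
    (s : Finset (Fin 3 → ℤ)) (c : (Fin 3 → ℤ) → ℂ)
    (hs : ∀ x ∈ s, ∑ i, x i ^ 2 = 4 ^ e * (m : ℤ)) :
    ∫ x in cube, ‖∑ k ∈ s, c k * ex k x‖ ^ 4 ≤
      (2 * Real.pi) ^ 3 * (512 ^ 3 * 16 * K * (∑ k ∈ s, ‖c k‖ ^ 2) ^ 2) := by
  classical
  -- every coordinate is divisible by 2^e
  have hdvd : ∀ x ∈ s, ∀ i, (2 ^ e : ℤ) ∣ x i := by
    intro x hx i
    obtain ⟨y, _, hy⟩ := pow_of_four_pow_dvd e m (toQ_re x) (by rw [normSq_toQ, hs x hx])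
    have h1 : x = fun i => 2 ^ e * toV y i := by
      rw [← toV_toQ x, hy]
      ext j
      fin_cases j <;> rfl
    rw [h1]
    exact dvd_mul_right _ _
  let cl : (Fin 3 → ℤ) → (Fin 3 → ZMod 8) := fun x i => ((x i / 2 ^ e : ℤ) : ZMod 8)
  let f : (Fin 3 → ZMod 8) → (Fin 3 → ℝ) → ℂ := fun κ x =>
    ∑ k ∈ s.filter (fun k => cl k = κ), c k * ex k x
  have hf : ∀ κ, Continuous (f κ) := fun κ =>
    continuous_finsetSum _ fun k _ => continuous_const.mul (ex_cont k)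
  have hsum : ∀ x, ∑ k ∈ s, c k * ex k x = ∑ κ, f κ x := by
    intro x
    exact (Finset.sum_fiberwise s cl (fun k => c k * ex k x)).symm
  have hcard : (Finset.univ : Finset (Fin 3 → ZMod 8)).card = 512 := by
    rw [Finset.card_univ, Fintype.card_fun, ZMod.card, Fintype.card_fin]; norm_num
  have hpt : ∀ x, ‖∑ k ∈ s, c k * ex k x‖ ^ 4 ≤ 512 ^ 3 * ∑ κ, ‖f κ x‖ ^ 4 := by
    intro x
    rw [hsum x]
    have h1 : ‖∑ κ, f κ x‖ ^ 4 ≤ (∑ κ, ‖f κ x‖) ^ 4 :=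
      pow_le_pow_left₀ (norm_nonneg _) (norm_sum_le _ _) 4
    have h3 := pow_sum_div_card_le_sum_pow (s := (Finset.univ : Finset (Fin 3 → ZMod 8)))
      (f := fun κ => ‖f κ x‖) (n := 3) (fun κ _ => norm_nonneg _)
    rw [hcard, div_le_iff₀ (by positivity)] at h3
    push_cast at h3
    linarith
  have hint : ∫ x in cube, ‖∑ k ∈ s, c k * ex k x‖ ^ 4 ≤
      512 ^ 3 * ∑ κ, ∫ x in cube, ‖f κ x‖ ^ 4 := by
    have hi : ∀ κ ∈ (Finset.univ : Finset (Fin 3 → ZMod 8)),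
        Integrable (fun x => ‖f κ x‖ ^ 4) (volume.restrict cube) :=
      fun κ _ => cont_int ((hf κ).norm.pow 4)
    rw [← integral_finsetSum _ hi, ← integral_const_mul]
    refine integral_mono ?_ ?_ hpt
    · exact cont_int ((continuous_finsetSum _ fun k _ =>
        continuous_const.mul (ex_cont k)).norm.pow 4)
    · exact cont_int (continuous_const.mul
        (continuous_finsetSum _ fun κ _ => (hf κ).norm.pow 4))
  refine le_trans hint ?_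
  have hone : ∀ κ, ∫ x in cube, ‖f κ x‖ ^ 4 ≤ (2 * Real.pi) ^ 3 * (16 * K *
      (∑ k ∈ s.filter (fun k => cl k = κ), ‖c k‖ ^ 2) ^ 2) := by
    intro κ
    refine one_class_aa hK e m hcore (s.filter (fun k => cl k = κ)) c ?_ ?_
    · intro x hx
      rw [hs x (Finset.mem_filter.mp hx).1]
    · intro x hx y hy i
      obtain ⟨hx1, hx2⟩ := Finset.mem_filter.mp hx
      obtain ⟨hy1, hy2⟩ := Finset.mem_filter.mp hy
      have h1 : cl x i = cl y i := by rw [hx2, hy2]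
      have h2 : (8 : ℤ) ∣ x i / 2 ^ e - y i / 2 ^ e := by
        have h3 : ((x i / 2 ^ e - y i / 2 ^ e : ℤ) : ZMod 8) = 0 := by
          push_cast
          exact sub_eq_zero.mpr h1
        exact (ZMod.intCast_zmod_eq_zero_iff_dvd _ 8).mp h3
      obtain ⟨t, ht⟩ := h2
      obtain ⟨a, ha⟩ := hdvd x hx1 i
      obtain ⟨b, hb⟩ := hdvd y hy1 i
      have h2e : (2 ^ e : ℤ) ≠ 0 := by positivity
      rw [ha, hb, Int.mul_ediv_cancel_left _ h2e, Int.mul_ediv_cancel_left _ h2e] at ht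
      exact ⟨t, by rw [ha, hb]; linear_combination (2 ^ e : ℤ) * ht⟩
  have hsq : ∑ κ, (∑ k ∈ s.filter (fun k => cl k = κ), ‖c k‖ ^ 2) ^ 2 ≤
      (∑ k ∈ s, ‖c k‖ ^ 2) ^ 2 := by
    rw [← Finset.sum_fiberwise s cl (fun k => ‖c k‖ ^ 2)]
    exact Finset.sum_sq_le_sq_sum_of_nonneg fun κ _ => Finset.sum_nonneg fun _ _ => sq_nonneg _
  calc 512 ^ 3 * ∑ κ, ∫ x in cube, ‖f κ x‖ ^ 4
      ≤ 512 ^ 3 * ∑ κ, (2 * Real.pi) ^ 3 * (16 * K *
        (∑ k ∈ s.filter (fun k => cl k = κ), ‖c k‖ ^ 2) ^ 2) := by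
        refine mul_le_mul_of_nonneg_left (Finset.sum_le_sum fun κ _ => hone κ) (by norm_num)
    _ = (2 * Real.pi) ^ 3 * (512 ^ 3 * 16 * K *
        ∑ κ, (∑ k ∈ s.filter (fun k => cl k = κ), ‖c k‖ ^ 2) ^ 2) := by
        rw [← Finset.mul_sum, ← Finset.mul_sum]; ring
    _ ≤ _ := by
        refine mul_le_mul_of_nonneg_left ?_ (by positivity)
        refine mul_le_mul_of_nonneg_left hsq ?_
        positivity

/-- The `L^4` bound for eigenfunctions. -/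
theorem eigen_aa {K : ℝ} (hK : 0 ≤ K) (e m : ℕ) (hcore : CoreBd K m) (u : (Fin 3 → ℝ) → ℂ)
    (hu : IsEigen (4 ^ e * m) u) :
    ∫ x in cube, ‖u x‖ ^ 4 ≤ 512 ^ 3 * 16 * K * (∫ x in cube, ‖u x‖ ^ 2) ^ 2 := by
  obtain ⟨s, c, hs, hu⟩ := hu
  rw [funext hu]
  have h1 := L4_aa hK e m hcore s c (by intro x hx; rw [hs x hx]; push_cast; ring)
  refine le_trans h1 ?_
  rw [int_L2]
  have h3 := two_pi_cube
  have hw : 0 ≤ (∑ k ∈ s, ‖c k‖ ^ 2) ^ 2 := sq_nonneg _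
  calc (2 * Real.pi) ^ 3 * (512 ^ 3 * 16 * K * (∑ k ∈ s, ‖c k‖ ^ 2) ^ 2)
      ≤ (2 * Real.pi) ^ 3 * (2 * Real.pi) ^ 3 *
        (512 ^ 3 * 16 * K * (∑ k ∈ s, ‖c k‖ ^ 2) ^ 2) := by
        refine mul_le_mul_of_nonneg_right ?_ (by positivity)
        nlinarith
    _ = _ := by ring

end Pool.Agent.TorusAA
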