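import Pool.Agent.TorusAA.Defs

/-! Statements of the packages. -/

namespace Pool.Agent.TorusAA

open Quaternion Pool.Agent.TorusL4

/-- AA1: a box which is not good has a large gain. -/
def S_gain : Prop := ∀ (u1 u2 u3 : ℍ[ℤ]) (M : ℕ), OB u1 u2 u3 → 1 ≤ M →
  Gd M u1 u2 u3 ∨ Real.log M - 12 * Real.log 2 ≤ FF u2 u3 + FF u1 u3 + FF u1 u2

/-- AA2: Motzkin-Straus for graphs without a clique of five vertices. -/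
def S_ms : Prop := ∀ (ι : Type) [DecidableEq ι] (s : Finset ι) (r : ι → ι → Prop)
  [DecidableRel r] (b : ι → ℝ), (∀ i ∈ s, 0 ≤ b i) → (∀ i j, r i j → r j i) →
  (¬ ∃ x : Fin 5 → ι, (∀ i, x i ∈ s) ∧ ∀ i j, i ≠ j → r (x i) (x j)) →
  ∑ i ∈ s, ∑ j ∈ s, (if r i j then b i * b j else 0) ≤ 3 / 4 * (∑ i ∈ s, b i) ^ 2

/-- AA3: the energy bound. -/
def S_energy : Prop := ∀ (S : Finset ℍ[ℤ]) (n : ℕ) (a : ℍ[ℤ] → ℝ) (M : ℕ) (G : ℝ)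
  (Adm : ℍ[ℤ] → Prop), 0 < n → (∀ x ∈ S, x.re = 0) → (∀ x ∈ S, normSq x = (n : ℤ)) →
  (∀ x, 0 ≤ a x) → (∀ x, x ∉ S → a x = 0) → (∀ x, a (-x) = a x) → 0 < G →
  (∀ x y z, XX a x y z ≠ 0 → 0 ≤ gain x y z ∧ (Gd M (x + y) (x + z) (y + z) ∨
    G ≤ gain x y z)) →
  (∀ u1 u2 u3, Box n u1 u2 u3 → Gd M u1 u2 u3 → ¬ Adm u3 → Adm u1) →
  (∀ D : ℍ[ℤ], D.re = 0 → D ≠ 0 → Adm D → ¬ Clq n M D) →
  EE S a ≤ 7 * (3 + 12 * Real.log (4 * n) / G) * (∑ x ∈ S, a x ^ 2) ^ 2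

/-- AA4: arithmetic data of a pair. -/
def S_pair : Prop := ∀ P Q g d : ℕ, 0 < P → 0 < Q → 0 < g → P * Q = d * g ^ 2 →
  ∃ e e' f : ℕ, 0 < e ∧ 0 < e' ∧ 0 < f ∧ e * e' = d ∧
    P = (g / Nat.gcd g Q) ^ 2 * e' * f ∧ Q = (g / Nat.gcd g P) ^ 2 * e * f ∧
    g = (g / Nat.gcd g Q) * (g / Nat.gcd g P) * f ∧
    Nat.Coprime (g / Nat.gcd g Q) ((g / Nat.gcd g P) * e) ∧
    Nat.Coprime (g / Nat.gcd g P) ((g / Nat.gcd g Q) * e')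

/-- AA5: arithmetic data of a good box with side `D`. -/
def S_boxpair : Prop := ∀ (n Z : ℕ) (D u1 u2 v : ℍ[ℤ]), 0 < n → Box n D u1 u2 →
  Gd Z D u1 u2 → NS Z n → ct v = 1 → D = (ct D : ℤ) • v →
  ∃ (g : ℤ) (α β e e' f s : ℕ), u1 * u2 = g • v ∧
    PD Z (ct D) (nq v) (nq u1) (nq u2) g.natAbs α β e e' f s

/-- AA6: the contents of two sides of a good box. -/
def S_ctmul : Prop := ∀ (n Z : ℕ) (u1 u2 u3 : ℍ[ℤ]), 0 < n → Box n u1 u2 u3 →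
  Gd Z u1 u2 u3 → NS Z n → (ct u1 * ct u3) ^ 2 ≤ 4 * Z ^ 7 * n

/-- AA7: three points on a circle. -/
def S_triple : Prop := ∀ (n : ℕ) (c : ℤ) (v x1 x2 x3 : ℍ[ℤ]) (g12 g23 g13 : ℤ),
  v.re = 0 → ct v = 1 → c ≠ 0 → x1.re = 0 → x2.re = 0 → x3.re = 0 →
  nq x1 = n → nq x2 = n → nq x3 = n → nq (c • v - x1) = n → nq (c • v - x2) = n →
  nq (c • v - x3) = n → x1 - x2 ≠ 0 →
  (x1 - x2) * (x1 + x2 - c • v) = g12 • v → (x2 - x3) * (x2 + x3 - c • v) = g23 • v →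
  (x1 - x3) * (x1 + x3 - c • v) = g13 • v →
  ((nq (x1 - x2) : ℤ) + nq (x1 + x2 - c • v)) * (g13 ^ 2 + g23 ^ 2 - g12 ^ 2) =
    2 * ((nq (x1 + x2 - c • v) : ℤ) - nq (x1 - x2)) * g13 * g23 ∧
  g13 * ((nq (x1 + x2 - c • v) : ℤ) * nq (x2 + x3 - c • v) - nq v * g12 * g23) =
    nq (x1 + x3 - c • v) * (g12 * nq (x2 + x3 - c • v) + g23 * nq (x1 + x2 - c • v)) ∧
  (nq (x2 - x3) : ℤ) + nq (x2 + x3 - c • v) = nq (x1 - x2) + nq (x1 + x2 - c • v) ∧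
  (nq (x1 - x3) : ℤ) + nq (x1 + x3 - c • v) = nq (x1 - x2) + nq (x1 + x2 - c • v)

/-- AA8: the divisibility for a triple of points. -/
def S_tlem : Prop := ∀ (Z c d N : ℕ) (P12 Q12 P23 Q23 P13 Q13 : ℕ) (g12 g23 g13 : ℤ)
  (α12 β12 e12 e12' f12 s12 α23 β23 e23 e23' f23 s23 α13 β13 e13 e13' f13 s13 : ℕ),
  PD Z c d P12 Q12 g12.natAbs α12 β12 e12 e12' f12 s12 →
  PD Z c d P23 Q23 g23.natAbs α23 β23 e23 e23' f23 s23 →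
  PD Z c d P13 Q13 g13.natAbs α13 β13 e13 e13' f13 s13 →
  P12 + Q12 = N → P23 + Q23 = N → P13 + Q13 = N →
  (N : ℤ) * (g13 ^ 2 + g23 ^ 2 - g12 ^ 2) = 2 * ((Q12 : ℤ) - P12) * g13 * g23 →
  ∃ s : ℕ, 1 ≤ s ∧ s ≤ 4 * Z ^ 5 ∧ ∀ L : ℕ, β12 ^ 2 * e12 + α12 ^ 2 * e12' ∣ L →
    β13 ^ 2 * e13 + α13 ^ 2 * e13' ∣ L → β23 ^ 2 * e23 + α23 ^ 2 * e23' ∣ L →
    (β12 ^ 2 * e12 + α12 ^ 2 * e12') * (β13 ^ 2 * e13 + α13 ^ 2 * e13') *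
      (β23 ^ 2 * e23 + α23 ^ 2 * e23') ∣ s * L ^ 2

/-- AA9: five points. -/
def S_five : Prop := ∀ (q : Fin 5 × Fin 5 → ℕ) (σ : ℕ), (∀ p ∈ prs, 0 < q p) →
  (∀ i j k : Fin 5, i < j → j < k → ∃ s : ℕ, 1 ≤ s ∧ s ≤ σ ∧ ∀ L : ℕ, q (i, j) ∣ L →
    q (i, k) ∣ L → q (j, k) ∣ L → q (i, j) * q (i, k) * q (j, k) ∣ s * L ^ 2) →
  ∀ L : ℕ, 0 < L → (∀ p ∈ prs, q p ∣ L) → ∏ p ∈ prs, q p ≤ σ ^ 10 * L ^ 6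

/-- AA10: the linear relation. -/
def S_lin : Prop := ∀ (Z c d N : ℕ) (P12 Q12 P23 Q23 P13 Q13 : ℕ) (g12 g23 g13 : ℤ)
  (α12 β12 e12 e12' f12 s12 α23 β23 e23 e23' f23 s23 α13 β13 e13 e13' f13 s13 : ℕ),
  PD Z c d P12 Q12 g12.natAbs α12 β12 e12 e12' f12 s12 →
  PD Z c d P23 Q23 g23.natAbs α23 β23 e23 e23' f23 s23 →
  PD Z c d P13 Q13 g13.natAbs α13 β13 e13 e13' f13 s13 →
  P12 + Q12 = N → P23 + Q23 = N → P13 + Q13 = N →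
  g13 * ((Q12 : ℤ) * Q23 - d * g12 * g23) = Q13 * (g12 * Q23 + g23 * Q12) →
  Lin Z d

/-- AA11: a clique gives an arithmetic configuration. -/
def S_cfg : Prop := ∀ (n Z : ℕ) (D : ℍ[ℤ]), 0 < n → D.re = 0 → D ≠ 0 → NS Z n → Clq n Z D →
  ∃ d N : ℕ, 4 * n = ct D ^ 2 * d + N ∧ Cfg Z (ct D) d N

/-- AA12: the number of configurations for a fixed content `c`. -/
def S_count : Prop := ∀ (X Z c T : ℕ), 1 ≤ X → 1 ≤ Z → 1 ≤ c →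
  (∀ m : ℕ, 1 ≤ m → m ≤ 4 * X → m.divisors.card ≤ T) →
  (Nat.card {n : ℕ | 1 ≤ n ∧ n ≤ X ∧ X ≤ Z * n ∧
    ∃ d N : ℕ, 4 * n = c ^ 2 * d + N ∧ Cfg Z c d N} : ℝ) ≤
    20000 * (Z : ℝ) ^ 180 * (T : ℝ) ^ 10 * (X : ℝ) ^ (11 / 12 : ℝ) * (c : ℝ) ^ (-5 / 6 : ℝ)

/-- The exceptional set (before powers of four). -/
def Exc (δ : ℝ) (n : ℕ) : Prop := ¬ NS ⌈(n : ℝ) ^ δ⌉₊ n ∨
  ∃ D : ℍ[ℤ], D.re = 0 ∧ D ≠ 0 ∧ ct D ^ 4 ≤ 4 * ⌈(n : ℝ) ^ δ⌉₊ ^ 7 * n ∧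
    Clq n ⌈(n : ℝ) ^ δ⌉₊ D

/-- AA13: the exceptional set is small. -/
def S_exc : Prop := ∃ δ η C : ℝ, 0 < δ ∧ 0 < η ∧ η ≤ 1 / 2 ∧ 0 < C ∧ ∀ X : ℕ, 1 ≤ X →
  (Nat.card {n : ℕ | 1 ≤ n ∧ n ≤ X ∧ Exc δ n} : ℝ) ≤ C * (X : ℝ) ^ (1 - η)

end Pool.Agent.TorusAA
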